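import Mathlib

open Filter MeasureTheory Set Topology Metric

namespace Pool.Agent.Lib.MP_3f9d7d_an

/-! ### Holomorphic dependence of circle integrals on parameters -/

section param

variable {X : Type*} [NormedAddCommGroup X] [NormedSpace ℂ X]

lemma bounded_near {Φ : X × ℂ → ℂ} {U : Set (X × ℂ)} (hU : IsOpen U) (hΦ : ContinuousOn Φ U)
    {K : Set ℂ} (hK : IsCompact K) {x0 : X} (hx : ∀ w ∈ K, (x0, w) ∈ U) :
    ∃ δ > 0, ∃ M, ∀ x ∈ ball x0 δ, ∀ w ∈ K, (x, w) ∈ U ∧ ‖Φ (x, w)‖ ≤ M := by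
  have hcont : ContinuousOn (fun w => ‖Φ (x0, w)‖) K :=
    (hΦ.comp (by fun_prop : ContinuousOn (fun w : ℂ => (x0, w)) K) hx).norm
  obtain ⟨M, hM⟩ := (hK.image_of_continuousOn hcont).bddAbove
  have hP : ∀ w ∈ K, ∀ᶠ z : X × ℂ in 𝓝 (x0, w), (z.1, z.2) ∈ U ∧ ‖Φ (z.1, z.2)‖ ≤ M + 1 := by
    intro w hw
    have h1 : ContinuousAt Φ (x0, w) := hΦ.continuousAt (hU.mem_nhds (hx w hw))
    have h2 : ‖Φ (x0, w)‖ < M + 1 := by
      have := hM (mem_image_of_mem _ hw)
      linarith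
    filter_upwards [hU.mem_nhds (hx w hw), h1.norm.eventually_lt_const h2] with z hz1 hz2
    exact ⟨hz1, hz2.le⟩
  have := hK.eventually_forall_of_forall_eventually
    (P := fun x w => (x, w) ∈ U ∧ ‖Φ (x, w)‖ ≤ M + 1) hP
  obtain ⟨δ, hδ, h⟩ := Metric.eventually_nhds_iff_ball.mp this
  exact ⟨δ, hδ, M + 1, fun x hx w hw => h x hx w hw⟩

lemma param_diff {Φ : X × ℂ → ℂ} {U : Set (X × ℂ)} (hΦ : DifferentiableOn ℂ Φ U) (hU : IsOpen U)
    {x : X} {w : ℂ} (h : (x, w) ∈ U) : DifferentiableAt ℂ (fun x => Φ (x, w)) x := by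
  have h1 := hΦ.differentiableAt (hU.mem_nhds h)
  exact h1.comp (f := fun x => (x, w)) x (by fun_prop)

lemma continuousAt_fderiv_param [FiniteDimensional ℂ X] {Φ : X × ℂ → ℂ} {U : Set (X × ℂ)}
    (hU : IsOpen U) (hΦ : DifferentiableOn ℂ Φ U) {x0 : X} {w0 : ℂ} (hx : (x0, w0) ∈ U) :
    ContinuousAt (fun w => fderiv ℂ (fun x => Φ (x, w)) x0) w0 := by
  have : ProperSpace X := FiniteDimensional.proper ℂ X
  obtain ⟨R, hR, V, hV, hRV⟩ : ∃ R > 0, ∃ V ∈ 𝓝 w0, closedBall x0 R ×ˢ V ⊆ U := by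
    obtain ⟨A, hA, B, hB, hAB⟩ := mem_nhds_prod_iff.mp (hU.mem_nhds hx)
    obtain ⟨R, hR, hRA⟩ := Metric.nhds_basis_closedBall.mem_iff.mp hA
    exact ⟨R, hR, B, hB, (prod_mono hRA subset_rfl).trans hAB⟩
  rw [Metric.continuousAt_iff']
  intro ε hε
  have hP : ∀ x ∈ closedBall x0 R, ∀ᶠ z : ℂ × X in 𝓝 (w0, x),
      ‖Φ (z.2, z.1) - Φ (z.2, w0)‖ < ε * R / 4 := by
    intro x hxR
    have hmem : (x, w0) ∈ U := hRV ⟨hxR, mem_of_mem_nhds hV⟩
    have h1 : ContinuousAt Φ (x, w0) := hΦ.continuousOn.continuousAt (hU.mem_nhds hmem)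
    have h2 : ContinuousAt (fun z : ℂ × X => Φ (z.2, z.1) - Φ (z.2, w0)) (w0, x) := by
      apply ContinuousAt.sub
      · exact ContinuousAt.comp (f := fun z : ℂ × X => (z.2, z.1)) h1 (by fun_prop)
      · exact ContinuousAt.comp (f := fun z : ℂ × X => (z.2, w0)) h1 (by fun_prop)
    apply h2.norm.eventually_lt_const
    simp only [sub_self, norm_zero]
    positivity
  have h3 := (isCompact_closedBall x0 R).eventually_forall_of_forall_eventually
    (P := fun w x => ‖Φ (x, w) - Φ (x, w0)‖ < ε * R / 4) hP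
  filter_upwards [h3, hV] with w hw hwV
  rw [dist_eq_norm]
  have hsub : ball x0 R ×ˢ V ⊆ U := (prod_mono ball_subset_closedBall subset_rfl).trans hRV
  have hd1 : ∀ v ∈ V, ∀ x ∈ ball x0 R, DifferentiableAt ℂ (fun x => Φ (x, v)) x :=
    fun v hv x hx => param_diff hΦ hU (hsub ⟨hx, hv⟩)
  have hw0V := mem_of_mem_nhds hV
  have h4 : fderiv ℂ (fun x => Φ (x, w)) x0 - fderiv ℂ (fun x => Φ (x, w0)) x0 =
      fderiv ℂ (fun x => Φ (x, w) - Φ (x, w0)) x0 := by
    rw [fderiv_fun_sub (hd1 w hwV x0 (mem_ball_self hR)) (hd1 w0 hw0V x0 (mem_ball_self hR))]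
  rw [h4]
  have h5 : DifferentiableOn ℂ (fun x => Φ (x, w) - Φ (x, w0)) (ball x0 R) := fun x hx =>
    ((hd1 w hwV x hx).sub (hd1 w0 hw0V x hx)).differentiableWithinAt
  have h6 : MapsTo (fun x => Φ (x, w) - Φ (x, w0)) (ball x0 R)
      (closedBall ((fun x => Φ (x, w) - Φ (x, w0)) x0) (ε * R / 2)) := by
    intro x hx
    rw [mem_closedBall, dist_eq_norm]
    calc ‖(Φ (x, w) - Φ (x, w0)) - (Φ (x0, w) - Φ (x0, w0))‖ ≤
        ‖Φ (x, w) - Φ (x, w0)‖ + ‖Φ (x0, w) - Φ (x0, w0)‖ := norm_sub_le _ _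
      _ ≤ ε * R / 4 + ε * R / 4 :=
        add_le_add (hw x (ball_subset_closedBall hx)).le
          (hw x0 (mem_closedBall_self hR.le)).le
      _ = ε * R / 2 := by ring
  have h7 := Complex.norm_fderiv_le_div_of_mapsTo_ball h5 h6 hR
  calc _ ≤ ε * R / 2 / R := h7
    _ = ε / 2 := by field_simp
    _ < ε := by linarith

/-- Circle integrals of holomorphic functions of several variables are holomorphic in the
parameters. -/
theorem differentiableAt_circleIntegral_param [FiniteDimensional ℂ X] {Φ : X × ℂ → ℂ}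
    {U : Set (X × ℂ)} (hU : IsOpen U) (hΦ : DifferentiableOn ℂ Φ U) {x0 : X} {c : ℂ} {r : ℝ}
    (hr : 0 ≤ r) (hx : ∀ w ∈ sphere c r, (x0, w) ∈ U) :
    DifferentiableAt ℂ (fun x => ∮ w in C(c, r), Φ (x, w)) x0 := by
  obtain ⟨δ, hδ, M, hM⟩ := bounded_near hU hΦ.continuousOn (isCompact_sphere c r) hx
  have hmem : ∀ θ : ℝ, circleMap c r θ ∈ sphere c r := fun θ => circleMap_mem_sphere c hr θ
  have hM0 : 0 ≤ M := (norm_nonneg _).trans (hM x0 (mem_ball_self hδ) _ (hmem 0)).2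
  have hcd : Continuous (deriv (circleMap c r)) := by
    have h := (contDiff_circleMap c r (n := 1)).continuous_deriv le_rfl
    exact h
  set F : X → ℝ → ℂ := fun x θ => deriv (circleMap c r) θ • Φ (x, circleMap c r θ) with hF
  have hcontθ : ∀ x ∈ ball x0 δ, Continuous (F x) := by
    intro x hx
    apply hcd.smul
    have h1 : ContinuousOn (fun w => Φ (x, w)) (sphere c r) :=
      hΦ.continuousOn.comp (by fun_prop : ContinuousOn (fun w : ℂ => (x, w)) (sphere c r))
        (fun w hw => (hM x hx w hw).1)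
    exact h1.comp_continuous (continuous_circleMap c r) hmem
  set F' : ℝ → X →L[ℂ] ℂ := fun θ => deriv (circleMap c r) θ •
    fderiv ℂ (fun x => Φ (x, circleMap c r θ)) x0 with hF'
  have hF'c : Continuous F' := by
    apply hcd.smul
    rw [continuous_iff_continuousAt]
    intro θ
    exact ContinuousAt.comp (g := fun w => fderiv ℂ (fun x => Φ (x, w)) x0)
      (continuousAt_fderiv_param hU hΦ (hx _ (hmem θ))) (continuous_circleMap c r).continuousAt
  have hnd : ∀ θ, ‖deriv (circleMap c r) θ‖ ≤ |r| := by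
    intro θ
    rw [deriv_circleMap]
    simp
  have key := intervalIntegral.hasFDerivAt_integral_of_dominated_loc_of_lip (𝕜 := ℂ)
    (μ := volume) (a := 0) (b := 2 * Real.pi) (F := F) (F' := F') (x₀ := x0)
    (s := ball x0 (δ / 2)) (bound := fun _ => |r| * (4 * M / δ))
    (ball_mem_nhds x0 (by positivity)) ?_ ?_ ?_ ?_ ?_ ?_
  · exact key.2.differentiableAt
  · filter_upwards [ball_mem_nhds x0 hδ] with x hx
    exact (hcontθ x hx).aestronglyMeasurable
  · exact (hcontθ x0 (mem_ball_self hδ)).intervalIntegrable _ _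
  · exact hF'c.aestronglyMeasurable
  · filter_upwards with θ _
    apply LipschitzOnWith.of_dist_le_mul
    intro x hx y hy
    have hw := hmem θ
    -- Lipschitz bound
    have hb : ∀ z ∈ ball x0 (δ / 2), ‖fderiv ℂ (fun x => Φ (x, circleMap c r θ)) z‖ ≤ 4 * M / δ := by
      intro z hz
      have hsub : ball z (δ / 2) ⊆ ball x0 δ := by
        intro y hy
        rw [mem_ball] at *
        calc dist y x0 ≤ dist y z + dist z x0 := dist_triangle _ _ _
          _ < δ / 2 + δ / 2 := add_lt_add hy hz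
          _ = δ := by ring
      have h5 : DifferentiableOn ℂ (fun x => Φ (x, circleMap c r θ)) (ball z (δ / 2)) :=
        fun y hy => (param_diff hΦ hU (hM y (hsub hy) _ hw).1).differentiableWithinAt
      have h6 : MapsTo (fun x => Φ (x, circleMap c r θ)) (ball z (δ / 2))
          (closedBall ((fun x => Φ (x, circleMap c r θ)) z) (2 * M)) := by
        intro y hy
        rw [mem_closedBall, dist_eq_norm]
        calc ‖Φ (y, circleMap c r θ) - Φ (z, circleMap c r θ)‖ ≤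
            ‖Φ (y, circleMap c r θ)‖ + ‖Φ (z, circleMap c r θ)‖ := norm_sub_le _ _
          _ ≤ M + M := add_le_add (hM y (hsub hy) _ hw).2
              (hM z (hsub (mem_ball_self (by positivity))) _ hw).2
          _ = 2 * M := by ring
      have h7 := Complex.norm_fderiv_le_div_of_mapsTo_ball h5 h6 (by positivity)
      calc _ ≤ 2 * M / (δ / 2) := h7
        _ = 4 * M / δ := by field_simp; ring
    have h8 : ‖Φ (x, circleMap c r θ) - Φ (y, circleMap c r θ)‖ ≤ 4 * M / δ * ‖x - y‖ := by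
      apply (convex_ball x0 (δ / 2)).norm_image_sub_le_of_norm_fderiv_le (𝕜 := ℂ)
        (f := fun x => Φ (x, circleMap c r θ)) _ hb hy hx
      intro z hz
      exact param_diff hΦ hU (hM z (ball_subset_ball (by linarith) hz) _ hw).1
    simp only [hF]
    rw [dist_eq_norm, ← smul_sub, norm_smul, dist_eq_norm, Real.coe_nnabs,
      abs_of_nonneg (by positivity : 0 ≤ |r| * (4 * M / δ)), mul_assoc]
    exact mul_le_mul (hnd θ) h8 (norm_nonneg _) (abs_nonneg _)
  · exact intervalIntegrable_const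
  · filter_upwards with θ _
    have h9 := (param_diff hΦ hU (hx _ (hmem θ))).hasFDerivAt
    exact h9.const_smul (deriv (circleMap c r) θ)

end param

end Pool.Agent.Lib.MP_3f9d7d_an
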