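import Mathlib
import Pool.Agent.Lib.MP_3f9d7d_an.Hol

open Filter MeasureTheory Set Topology Metric

namespace Pool.Agent.Lib.MP_3f9d7d_an

/-- The partial derivative in the last variable is holomorphic. -/
theorem differentiableOn_partial {X : Type*} [NormedAddCommGroup X] [NormedSpace ℂ X]
    [FiniteDimensional ℂ X] {G : X × ℂ → ℂ} {U : Set (X × ℂ)} (hU : IsOpen U)
    (hG : DifferentiableOn ℂ G U) :
    DifferentiableOn ℂ (fun z : X × ℂ => deriv (fun w => G (z.1, w)) z.2) U := by
  rintro ⟨x0, w0⟩ hz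
  apply DifferentiableAt.differentiableWithinAt
  obtain ⟨A, hA, B, hB, hAB⟩ := mem_nhds_prod_iff.mp (hU.mem_nhds hz)
  obtain ⟨η, hη, hηB⟩ := Metric.nhds_basis_closedBall.mem_iff.mp hB
  obtain ⟨A', hA'A, hA'o, hx0A'⟩ := _root_.mem_nhds_iff.mp hA
  -- the integral representation
  set Φ : (X × ℂ) × ℂ → ℂ := fun q => ((q.2 - q.1.2) ^ 2)⁻¹ * G (q.1.1, q.2) with hΦ
  set V : Set ((X × ℂ) × ℂ) := {q | (q.1.1, q.2) ∈ U ∧ q.2 ≠ q.1.2} with hV
  have hVo : IsOpen V := by
    apply IsOpen.inter
    · exact hU.preimage (by fun_prop : Continuous fun q : (X × ℂ) × ℂ => (q.1.1, q.2))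
    · exact isOpen_ne_fun (by fun_prop) (by fun_prop)
  have hΦd : DifferentiableOn ℂ Φ V := by
    intro q hq
    apply DifferentiableAt.differentiableWithinAt
    have h1 : DifferentiableAt ℂ (fun q : (X × ℂ) × ℂ => G (q.1.1, q.2)) q :=
      (hG.differentiableAt (hU.mem_nhds hq.1)).comp (f := fun q : (X × ℂ) × ℂ => (q.1.1, q.2)) q
        (by fun_prop)
    have h2 : (q.2 - q.1.2) ^ 2 ≠ 0 := pow_ne_zero _ (sub_ne_zero.mpr hq.2)
    have h3 : DifferentiableAt ℂ (fun q : (X × ℂ) × ℂ => (q.2 - q.1.2) ^ 2) q := by fun_prop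
    exact (h3.inv h2).mul h1
  have hint : DifferentiableAt ℂ (fun z : X × ℂ => ∮ w in C(w0, η), Φ (z, w)) (x0, w0) := by
    apply differentiableAt_circleIntegral_param hVo hΦd hη.le
    intro w hw
    refine ⟨hAB ⟨mem_of_mem_nhds hA, hηB (sphere_subset_closedBall hw)⟩, ?_⟩
    intro h
    have h' : w = w0 := h
    rw [h', mem_sphere, dist_self] at hw
    linarith
  have heq : ∀ᶠ z : X × ℂ in 𝓝 (x0, w0), deriv (fun w => G (z.1, w)) z.2 =
      (2 * Real.pi * Complex.I : ℂ)⁻¹ • ∮ w in C(w0, η), Φ (z, w) := by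
    have h1 : A' ×ˢ ball w0 η ∈ 𝓝 (x0, w0) :=
      prod_mem_nhds (hA'o.mem_nhds hx0A') (ball_mem_nhds w0 hη)
    filter_upwards [h1] with z hz
    have hUo : IsOpen {w | (z.1, w) ∈ U} := hU.preimage (by fun_prop : Continuous fun w : ℂ => (z.1, w))
    rw [← Complex.two_pi_I_inv_smul_circleIntegral_sub_sq_inv_smul_of_differentiable hUo
      (c := w0) (R := η) (f := fun w => G (z.1, w)) ?_ ?_ hz.2]
    · rfl
    · intro w hw
      exact hAB ⟨hA'A hz.1, hηB hw⟩
    · intro w hw
      apply DifferentiableAt.differentiableWithinAt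
      exact (hG.differentiableAt (hU.mem_nhds hw)).comp (f := fun w : ℂ => (z.1, w)) w (by fun_prop)
  exact (hint.fun_const_smul ((2 * Real.pi * Complex.I : ℂ)⁻¹)).congr_of_eventuallyEq heq

lemma finite_zeros {G : ℂ → ℂ} {c : ℂ} {ρ ε : ℝ} (hε : 0 < ε) (hερ : ε < ρ)
    (hG : DifferentiableOn ℂ G (ball c ρ)) (hne : ∀ w ∈ sphere c ε, G w ≠ 0) :
    {w ∈ closedBall c ε | G w = 0}.Finite := by
  by_contra hinf
  have hinf' : {w ∈ closedBall c ε | G w = 0}.Infinite := hinf
  obtain ⟨a, ha, hacc⟩ := hinf'.exists_accPt_of_subset_isCompact (isCompact_closedBall c ε)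
    (sep_subset _ _)
  have hsub : closedBall c ε ⊆ ball c ρ := closedBall_subset_ball hερ
  have hana := hG.analyticOnNhd isOpen_ball
  have hfreq : ∃ᶠ z in 𝓝[≠] a, G z = 0 := by
    rw [accPt_iff_frequently_nhdsNE] at hacc
    exact hacc.mono fun z hz => hz.2
  have h0 := hana.eqOn_zero_of_preconnected_of_frequently_eq_zero (convex_ball c ρ).isPreconnected
    (hsub ha) hfreq
  obtain ⟨w, hw⟩ : (sphere c ε).Nonempty := NormedSpace.sphere_nonempty.mpr hε.le
  exact hne w hw (h0 (hsub (sphere_subset_closedBall hw)))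

lemma factor_zero {G : ℂ → ℂ} {c : ℂ} {ρ ε : ℝ} (hε : 0 < ε) (hερ : ε < ρ)
    (hG : DifferentiableOn ℂ G (ball c ρ)) (hne : ∀ w ∈ sphere c ε, G w ≠ 0) {α : ℂ}
    (hα : α ∈ ball c ε) :
    ∃ (n : ℕ) (G1 : ℂ → ℂ), DifferentiableOn ℂ G1 (ball c ρ) ∧ G1 α ≠ 0 ∧
      ∀ w ∈ ball c ρ, G w = (w - α) ^ n * G1 w := by
  have hαρ : α ∈ ball c ρ := ball_subset_ball hερ.le hα
  have hana : AnalyticAt ℂ G α := hG.analyticAt (isOpen_ball.mem_nhds hαρ)
  have hnz : ¬ ∀ᶠ z in 𝓝 α, G z = 0 := by
    intro h
    have h0 := (hG.analyticOnNhd isOpen_ball).eqOn_zero_of_preconnected_of_eventuallyEq_zero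
      (convex_ball c ρ).isPreconnected hαρ h
    obtain ⟨w, hw⟩ : (sphere c ε).Nonempty := NormedSpace.sphere_nonempty.mpr hε.le
    exact hne w hw (h0 (closedBall_subset_ball hερ (sphere_subset_closedBall hw)))
  obtain ⟨n, g, hg, hgα, hgeq⟩ := hana.exists_eventuallyEq_pow_smul_nonzero_iff.mpr hnz
  classical
  set G1 : ℂ → ℂ := fun w => if w = α then g α else G w / (w - α) ^ n with hG1
  have hev : G1 =ᶠ[𝓝 α] g := by
    filter_upwards [hgeq] with z hz
    simp only [hG1]
    split_ifs with h
    · rw [h]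
    · rw [hz, smul_eq_mul, mul_div_cancel_left₀ _ (pow_ne_zero _ (sub_ne_zero.mpr h))]
  refine ⟨n, G1, ?_, ?_, ?_⟩
  · intro w hw
    apply DifferentiableAt.differentiableWithinAt
    by_cases h : w = α
    · subst h
      exact hg.differentiableAt.congr_of_eventuallyEq hev
    · have h1 : DifferentiableAt ℂ (fun w => G w / (w - α) ^ n) w :=
        (hG.differentiableAt (isOpen_ball.mem_nhds hw)).div (by fun_prop)
          (pow_ne_zero _ (sub_ne_zero.mpr h))
      apply h1.congr_of_eventuallyEq
      filter_upwards [isOpen_ne.mem_nhds h] with z hz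
      simp [hG1, hz]
  · simp [hG1, hgα]
  · intro w _
    by_cases h : w = α
    · subst h
      have := hgeq.self_of_nhds
      simp only [hG1, if_true]
      rw [this, smul_eq_mul]
    · simp only [hG1, h, if_false]
      rw [mul_div_cancel₀]
      exact pow_ne_zero _ (sub_ne_zero.mpr h)

/-- The argument principle, in the form needed here. -/
theorem exists_roots {c : ℂ} {ρ ε : ℝ} (hε : 0 < ε) (hερ : ε < ρ) {G : ℂ → ℂ}
    (hG : DifferentiableOn ℂ G (ball c ρ)) (hne : ∀ w ∈ sphere c ε, G w ≠ 0) :
    ∃ s : Multiset ℂ, (∀ α ∈ s, α ∈ ball c ε) ∧ (∀ w ∈ ball c ε, G w = 0 ↔ w ∈ s) ∧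
      ∀ φ : ℂ → ℂ, DifferentiableOn ℂ φ (ball c ρ) →
        (∮ w in C(c, ε), φ w * (deriv G w / G w)) = 2 * Real.pi * Complex.I * (s.map φ).sum := by
  have hsub : closedBall c ε ⊆ ball c ρ := closedBall_subset_ball hερ
  obtain ⟨n, hn⟩ : ∃ n, ({w ∈ closedBall c ε | G w = 0}).ncard = n := ⟨_, rfl⟩
  induction n using Nat.strong_induction_on generalizing G with
  | _ n ih =>
    by_cases hz : ∃ α ∈ closedBall c ε, G α = 0
    · obtain ⟨α, hα, hα0⟩ := hz
      have hαb : α ∈ ball c ε := by
        rw [mem_ball]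
        rw [mem_closedBall] at hα
        refine lt_of_le_of_ne hα fun h => hne α (by rwa [mem_sphere]) hα0
      obtain ⟨k, G1, hG1, hG1α, hGeq⟩ := factor_zero hε hερ hG hne hαb
      have hne1 : ∀ w ∈ sphere c ε, G1 w ≠ 0 := by
        intro w hw h
        apply hne w hw
        rw [hGeq w (hsub (sphere_subset_closedBall hw)), h, mul_zero]
      have hlt : ({w ∈ closedBall c ε | G1 w = 0}).ncard < n := by
        rw [← hn]
        apply Set.ncard_lt_ncard _ (finite_zeros hε hερ hG hne)
        refine ⟨?_, ?_⟩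
        · intro w hw
          refine ⟨hw.1, ?_⟩
          rw [hGeq w (hsub hw.1), hw.2, mul_zero]
        · intro h
          exact hG1α (h ⟨hα, hα0⟩).2
      obtain ⟨s, hs1, hs2, hs3⟩ := ih _ hlt hG1 hne1 rfl
      have hk : k ≠ 0 := by
        intro hk
        rw [hGeq α (hsub hα), hk, pow_zero, one_mul] at hα0
        exact hG1α hα0
      refine ⟨Multiset.replicate k α + s, ?_, ?_, ?_⟩
      · intro β hβ
        rcases Multiset.mem_add.mp hβ with h | h
        · rw [Multiset.eq_of_mem_replicate h]; exact hαb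
        · exact hs1 β h
      · intro w hw
        rw [Multiset.mem_add, Multiset.mem_replicate, ← hs2 w hw,
          hGeq w (ball_subset_ball hερ.le hw), mul_eq_zero, pow_eq_zero_iff hk, sub_eq_zero]
        simp [hk]
      · intro φ hφ
        have hder : ∀ w ∈ sphere c ε, φ w * (deriv G w / G w) =
            (k : ℂ) * ((w - α)⁻¹ • φ w) + φ w * (deriv G1 w / G1 w) := by
          intro w hw
          have hwb : w ∈ ball c ρ := hsub (sphere_subset_closedBall hw)
          have hwα : w - α ≠ 0 := by
            intro h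
            rw [sub_eq_zero] at h
            rw [h, mem_sphere] at hw
            rw [mem_ball] at hαb
            linarith
          have hd : HasDerivAt G (k * (w - α) ^ (k - 1) * G1 w + (w - α) ^ k * deriv G1 w) w := by
            have h1 : HasDerivAt (fun w => (w - α) ^ k) (k * (w - α) ^ (k - 1)) w := by
              have h0 : HasDerivAt (fun w : ℂ => w - α) 1 w := (hasDerivAt_id w).sub_const α
              refine HasDerivAt.congr_deriv (h0.fun_pow k) ?_
              ring
            have h2 : HasDerivAt G1 (deriv G1 w) w :=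
              (hG1.differentiableAt (isOpen_ball.mem_nhds hwb)).hasDerivAt
            apply (h1.mul h2).congr_of_eventuallyEq
            filter_upwards [isOpen_ball.mem_nhds hwb] with z hz
            exact hGeq z hz
          rw [hd.deriv, hGeq w hwb]
          have h3 := hne1 w hw
          have h4 : (w - α) ^ k = (w - α) ^ (k - 1) * (w - α) := by
            rw [← pow_succ, Nat.sub_add_cancel (Nat.one_le_iff_ne_zero.mpr hk)]
          have h5 : (w - α) ^ (k - 1) ≠ 0 := pow_ne_zero _ hwα
          rw [h4, smul_eq_mul]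
          field_simp
        rw [circleIntegral.integral_congr hε.le hder]
        have hφc : ContinuousOn φ (sphere c ε) :=
          hφ.continuousOn.mono (sphere_subset_closedBall.trans hsub)
        have hdG1 : ContinuousOn (deriv G1) (sphere c ε) :=
          (hG1.deriv isOpen_ball).continuousOn.mono (sphere_subset_closedBall.trans hsub)
        have hG1c : ContinuousOn G1 (sphere c ε) :=
          hG1.continuousOn.mono (sphere_subset_closedBall.trans hsub)
        rw [circleIntegral.integral_add]
        · rw [circleIntegral.integral_const_mul, hs3 φ hφ,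
            (hφ.mono hsub).circleIntegral_sub_inv_smul hαb]
          rw [Multiset.map_add, Multiset.sum_add, Multiset.map_replicate, Multiset.sum_replicate]
          simp only [smul_eq_mul, nsmul_eq_mul]
          ring
        · apply ContinuousOn.circleIntegrable hε.le
          apply continuousOn_const.mul
          refine ContinuousOn.fun_smul ?_ hφc
          apply ContinuousOn.inv₀ (by fun_prop)
          intro w hw h
          rw [sub_eq_zero] at h
          rw [h, mem_sphere] at hw
          rw [mem_ball] at hαb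
          linarith
        · apply ContinuousOn.circleIntegrable hε.le
          exact hφc.mul (hdG1.div hG1c hne1)
    · push Not at hz
      refine ⟨0, by simp, ?_, ?_⟩
      · intro w hw
        simp [hz w (ball_subset_closedBall hw)]
      · intro φ hφ
        simp only [Multiset.map_zero, Multiset.sum_zero, mul_zero]
        apply Complex.circleIntegral_eq_zero_of_differentiable_on_off_countable hε.le
          Set.countable_empty
        · have h1 : ContinuousOn (deriv G) (closedBall c ε) :=
            (hG.deriv isOpen_ball).continuousOn.mono hsub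
          exact (hφ.continuousOn.mono hsub).mul (h1.div (hG.continuousOn.mono hsub) hz)
        · intro z hzb
          have hzρ : z ∈ ball c ρ := ball_subset_ball hερ.le hzb.1
          have h1 := (hG.deriv isOpen_ball).differentiableAt (isOpen_ball.mem_nhds hzρ)
          have h2 := hG.differentiableAt (isOpen_ball.mem_nhds hzρ)
          have h3 := hφ.differentiableAt (isOpen_ball.mem_nhds hzρ)
          exact h3.mul (h1.div h2 (hz z (ball_subset_closedBall hzb.1)))

end Pool.Agent.Lib.MP_3f9d7d_an
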