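import Mathlib
import Pool.Agent.Lib.MP_3f9d7d_an.Roots

open Filter MeasureTheory Set Topology Metric

namespace Pool.Agent.Lib.MP_3f9d7d_an

/-- A product is holomorphic as soon as all power sums are (Newton's identities). -/
lemma prod_diff_of_powsum {X : Type*} [NormedAddCommGroup X] [NormedSpace ℂ X] {P : Set X}
    (m : ℕ) (v : X → Fin m → ℂ)
    (h : ∀ k, 1 ≤ k → DifferentiableOn ℂ (fun x => ∑ j, v x j ^ k) P) :
    DifferentiableOn ℂ (fun x => ∏ j, v x j) P := by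
  have key : ∀ k, DifferentiableOn ℂ
      (fun x => MvPolynomial.aeval (v x) (MvPolynomial.esymm (Fin m) ℂ k)) P := by
    intro k
    induction k using Nat.strong_induction_on with
    | _ k ih =>
      rcases Nat.eq_zero_or_pos k with hk | hk
      · subst hk
        simp
      · have hN := MvPolynomial.mul_esymm_eq_sum (Fin m) ℂ k
        have hval : ∀ x, MvPolynomial.aeval (v x) (MvPolynomial.esymm (Fin m) ℂ k) =
            (k : ℂ)⁻¹ * ((-1) ^ (k + 1) *
              ∑ a ∈ Finset.HasAntidiagonal.antidiagonal k with a.1 < k, (-1) ^ a.1 *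
                MvPolynomial.aeval (v x) (MvPolynomial.esymm (Fin m) ℂ a.1) *
                (∑ j, v x j ^ a.2)) := by
          intro x
          have h1 := congrArg (MvPolynomial.aeval (v x)) hN
          simp only [map_mul, map_natCast, map_pow, map_neg, map_one, map_sum] at h1
          have h2 : ∀ n, MvPolynomial.aeval (v x) (MvPolynomial.psum (Fin m) ℂ n) =
              ∑ j, v x j ^ n := by
            intro n
            simp [MvPolynomial.psum]
          simp only [h2] at h1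
          rw [← h1]
          have hk' : (k : ℂ) ≠ 0 := by exact_mod_cast hk.ne'
          field_simp
        have heq : (fun x => MvPolynomial.aeval (v x) (MvPolynomial.esymm (Fin m) ℂ k)) =
            fun x => (k : ℂ)⁻¹ * ((-1) ^ (k + 1) *
              ∑ a ∈ Finset.HasAntidiagonal.antidiagonal k with a.1 < k, (-1) ^ a.1 *
                MvPolynomial.aeval (v x) (MvPolynomial.esymm (Fin m) ℂ a.1) *
                (∑ j, v x j ^ a.2)) := funext hval
        rw [heq]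
        apply DifferentiableOn.const_mul
        apply DifferentiableOn.const_mul
        apply DifferentiableOn.fun_sum
        intro a ha
        rw [Finset.mem_filter, Finset.HasAntidiagonal.mem_antidiagonal] at ha
        have ha2 : 1 ≤ a.2 := by omega
        exact ((ih a.1 ha.2).const_mul _).mul (h a.2 ha2)
  have h2 : (fun x => ∏ j, v x j) =
      fun x => MvPolynomial.aeval (v x) (MvPolynomial.esymm (Fin m) ℂ m) := by
    funext x
    rw [MvPolynomial.esymm]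
    have : Finset.powersetCard m (Finset.univ : Finset (Fin m)) = {Finset.univ} := by
      have h3 := Finset.powersetCard_self (Finset.univ : Finset (Fin m))
      simpa using h3
    rw [this]
    simp
  rw [h2]
  exact key m

/-- The zeros in a disc of a family of holomorphic functions of one variable. -/
structure RootSys {X : Type*} [NormedAddCommGroup X] [NormedSpace ℂ X] (G : X × ℂ → ℂ) (P : Set X)
    (w0 : ℂ) (ε ρ : ℝ) (m : ℕ) (α : X → Fin m → ℂ) : Prop where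
  eps_pos : 0 < ε
  eps_lt : ε < ρ
  isOpen : IsOpen P
  sphere : ∀ x ∈ P, ∀ w ∈ sphere w0 ε, G (x, w) ≠ 0
  mem : ∀ x ∈ P, ∀ j, α x j ∈ ball w0 ε
  zero_iff : ∀ x ∈ P, ∀ w ∈ ball w0 ε, G (x, w) = 0 ↔ ∃ j, α x j = w
  integral : ∀ x ∈ P, ∀ φ : ℂ → ℂ, DifferentiableOn ℂ φ (ball w0 ρ) →
    (∮ w in C(w0, ε), φ w * (deriv (fun w => G (x, w)) w / G (x, w))) =
      2 * Real.pi * Complex.I * ∑ j, φ (α x j)

lemma multiset_fin (s : Multiset ℂ) : ∃ α : Fin s.card → ℂ, (∀ w, w ∈ s ↔ ∃ j, α j = w) ∧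
    ∀ φ : ℂ → ℂ, (s.map φ).sum = ∑ j, φ (α j) := by
  induction s using Quot.inductionOn with
  | _ l =>
    refine ⟨fun j => l.get (j.cast (by simp)), ?_, ?_⟩
    · intro w
      change w ∈ (l : Multiset ℂ) ↔ _
      rw [Multiset.mem_coe, List.mem_iff_get]
      constructor
      · rintro ⟨n, hn⟩
        exact ⟨n.cast (by simp), by simpa using hn⟩
      · rintro ⟨n, hn⟩
        exact ⟨n.cast (by simp), by simpa using hn⟩
    · intro φ
      change ((l : Multiset ℂ).map φ).sum = _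
      rw [Multiset.map_coe, Multiset.sum_coe]
      have h1 : (l.map φ).sum = ∑ j : Fin l.length, φ (l.get j) := by
        rw [← List.sum_ofFn]
        congr 1
        rw [← List.ofFn_get l]
        simp
      rw [h1]
      rfl

section rootsys

variable {X : Type*} [NormedAddCommGroup X] [NormedSpace ℂ X] [FiniteDimensional ℂ X]

/-- The logarithmic derivative in the last variable. -/
noncomputable def lder (G : X × ℂ → ℂ) (z : X × ℂ) : ℂ := deriv (fun w => G (z.1, w)) z.2 / G z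

omit [FiniteDimensional ℂ X] in
lemma isOpen_nz {Ω : Set (X × ℂ)} (hΩ : IsOpen Ω) {G : X × ℂ → ℂ} (hG : DifferentiableOn ℂ G Ω) :
    IsOpen {z ∈ Ω | G z ≠ 0} :=
  hG.continuousOn.isOpen_inter_preimage hΩ isOpen_compl_singleton

lemma lder_diff {Ω : Set (X × ℂ)} (hΩ : IsOpen Ω) {G : X × ℂ → ℂ} (hG : DifferentiableOn ℂ G Ω) :
    DifferentiableOn ℂ (lder G) {z ∈ Ω | G z ≠ 0} := by
  have h1 := (differentiableOn_partial hΩ hG).mono (sep_subset Ω fun z => G z ≠ 0)
  have h2 := hG.mono (sep_subset Ω fun z => G z ≠ 0)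
  have h3 : DifferentiableOn ℂ (fun z => (G z)⁻¹) {z ∈ Ω | G z ≠ 0} := h2.fun_inv fun z hz => hz.2
  have h4 := h1.mul h3
  have h5 : lder G = fun z => deriv (fun w => G (z.1, w)) z.2 * (G z)⁻¹ := by
    funext z
    rw [lder, div_eq_mul_inv]
  rw [h5]
  exact h4

lemma integral_lder_diff {Ω : Set (X × ℂ)} (hΩ : IsOpen Ω) {G : X × ℂ → ℂ}
    (hG : DifferentiableOn ℂ G Ω) {φ : X × ℂ → ℂ} (hφ : DifferentiableOn ℂ φ Ω) {x : X} {w0 : ℂ}
    {ε : ℝ} (hε : 0 ≤ ε) (h : ∀ w ∈ sphere w0 ε, (x, w) ∈ Ω ∧ G (x, w) ≠ 0) :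
    DifferentiableAt ℂ (fun x => ∮ w in C(w0, ε), φ (x, w) *
      (deriv (fun w => G (x, w)) w / G (x, w))) x := by
  have h1 : DifferentiableOn ℂ (fun z => φ z * lder G z) {z ∈ Ω | G z ≠ 0} :=
    (hφ.mono (sep_subset Ω fun z => G z ≠ 0)).mul (lder_diff hΩ hG)
  exact differentiableAt_circleIntegral_param (isOpen_nz hΩ hG) h1 hε fun w hw => h w hw

/-- Existence of root systems near an isolated zero of a slice. -/
theorem exists_rootSys {Ω : Set (X × ℂ)} (hΩ : IsOpen Ω) {G : X × ℂ → ℂ}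
    (hG : DifferentiableOn ℂ G Ω) {x0 : X} {w0 : ℂ} (hmem : (x0, w0) ∈ Ω)
    (hne : ∀ᶠ w in 𝓝[≠] w0, G (x0, w) ≠ 0) {N : Set (X × ℂ)} (hN : N ∈ 𝓝 (x0, w0)) :
    ∃ (P : Set X) (ε ρ : ℝ) (m : ℕ) (α : X → Fin m → ℂ), RootSys G P w0 ε ρ m α ∧ x0 ∈ P ∧
      P ×ˢ ball w0 ρ ⊆ Ω ∩ N := by
  obtain ⟨A, hA, B, hB, hAB⟩ := mem_nhds_prod_iff.mp (inter_mem (hΩ.mem_nhds hmem) hN)
  rw [eventually_nhdsWithin_iff] at hne
  obtain ⟨ρ, hρ, hρB⟩ := Metric.mem_nhds_iff.mp (inter_mem hB hne)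
  set ε := ρ / 2 with hε
  have hε0 : 0 < ε := by positivity
  have hερ : ε < ρ := by rw [hε]; linarith
  have hsph : ∀ w ∈ sphere w0 ε, (x0, w) ∈ Ω ∧ G (x0, w) ≠ 0 := by
    intro w hw
    have hwρ : w ∈ ball w0 ρ := closedBall_subset_ball hερ (sphere_subset_closedBall hw)
    refine ⟨(hAB ⟨mem_of_mem_nhds hA, (hρB hwρ).1⟩).1, (hρB hwρ).2 ?_⟩
    intro h
    have h' : w = w0 := h
    rw [h', mem_sphere, dist_self] at hw
    linarith
  -- shrink `P`
  have hP1 : ∀ᶠ x in 𝓝 x0, ∀ w ∈ sphere w0 ε, (x, w) ∈ Ω ∧ G (x, w) ≠ 0 := by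
    apply (isCompact_sphere w0 ε).eventually_forall_of_forall_eventually
      (P := fun x w => (x, w) ∈ Ω ∧ G (x, w) ≠ 0)
    intro w hw
    exact (isOpen_nz hΩ hG).mem_nhds (hsph w hw)
  have hP12 : ∀ᶠ x in 𝓝 x0, x ∈ A ∧ ∀ w ∈ sphere w0 ε, (x, w) ∈ Ω ∧ G (x, w) ≠ 0 :=
    (eventually_mem_set.mpr hA).and hP1
  obtain ⟨δ, hδ, hδP⟩ := Metric.eventually_nhds_iff_ball.mp hP12
  -- the roots
  have hsl : ∀ x ∈ A, DifferentiableOn ℂ (fun w => G (x, w)) (ball w0 ρ) := by
    intro x hx w hw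
    apply DifferentiableAt.differentiableWithinAt
    have hxw : (x, w) ∈ Ω := (hAB ⟨hx, (hρB hw).1⟩).1
    exact (hG.differentiableAt (hΩ.mem_nhds hxw)).comp (f := fun w : ℂ => (x, w)) w (by fun_prop)
  have hex : ∀ x : X, ∃ s : Multiset ℂ, x ∈ ball x0 δ → ((∀ α ∈ s, α ∈ ball w0 ε) ∧
      (∀ w ∈ ball w0 ε, G (x, w) = 0 ↔ w ∈ s) ∧
      ∀ φ : ℂ → ℂ, DifferentiableOn ℂ φ (ball w0 ρ) →
        (∮ w in C(w0, ε), φ w * (deriv (fun w => G (x, w)) w / G (x, w))) =
          2 * Real.pi * Complex.I * (s.map φ).sum) := by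
    intro x
    by_cases hx : x ∈ ball x0 δ
    · obtain ⟨s, hs⟩ := exists_roots hε0 hερ (hsl x (hδP x hx).1)
        (fun w hw => ((hδP x hx).2 w hw).2)
      exact ⟨s, fun _ => hs⟩
    · exact ⟨0, fun h => absurd h hx⟩
  choose s hs using hex
  -- the number of roots is locally constant
  have hcard : ∀ x ∈ ball x0 δ, ((s x).card : ℂ) = (2 * Real.pi * Complex.I)⁻¹ *
      ∮ w in C(w0, ε), 1 * (deriv (fun w => G (x, w)) w / G (x, w)) := by
    intro x hx
    have h1 := (hs x hx).2.2 (fun _ => 1) (differentiableOn_const _)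
    rw [h1, Multiset.map_const', Multiset.sum_replicate, ← mul_assoc,
      inv_mul_cancel₀ Complex.two_pi_I_ne_zero]
    simp
  have hcontc : ContinuousAt (fun x => (2 * Real.pi * Complex.I : ℂ)⁻¹ *
      ∮ w in C(w0, ε), 1 * (deriv (fun w => G (x, w)) w / G (x, w))) x0 := by
    apply ContinuousAt.mul continuousAt_const
    exact (integral_lder_diff hΩ hG (φ := fun _ => 1) (differentiableOn_const _) hε0.le
      (fun w hw => (hδP x0 (mem_ball_self hδ)).2 w hw)).continuousAt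
  obtain ⟨δ', hδ', hδ'P⟩ := Metric.continuousAt_iff.mp hcontc 1 one_pos
  set δ'' := min δ δ' with hδ''
  have hδ''0 : 0 < δ'' := lt_min hδ hδ'
  have hmconst : ∀ x ∈ ball x0 δ'', (s x).card = (s x0).card := by
    intro x hx
    have hxδ : x ∈ ball x0 δ := ball_subset_ball (min_le_left _ _) hx
    have hxδ' : dist x x0 < δ' := lt_of_lt_of_le hx (min_le_right _ _)
    have h1 := hδ'P hxδ'
    rw [← hcard x hxδ, ← hcard x0 (mem_ball_self hδ), dist_eq_norm] at h1
    have h2 : ‖(((s x).card : ℤ) : ℂ) - (((s x0).card : ℤ) : ℂ)‖ < 1 := by simpa using h1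
    rw [← Int.cast_sub, Complex.norm_intCast] at h2
    have h3 : |((s x).card : ℤ) - (s x0).card| < 1 := by exact_mod_cast h2
    have h4 := Int.abs_lt_one_iff.mp h3
    omega
  have hα : ∀ x : X, ∃ α : Fin (s x0).card → ℂ, x ∈ ball x0 δ'' →
      ((∀ w, w ∈ s x ↔ ∃ j, α j = w) ∧ ∀ φ : ℂ → ℂ, ((s x).map φ).sum = ∑ j, φ (α j)) := by
    intro x
    by_cases hx : x ∈ ball x0 δ''
    · obtain ⟨α, hα1, hα2⟩ := multiset_fin (s x)
      rw [← hmconst x hx]
      exact ⟨α, fun _ => ⟨hα1, hα2⟩⟩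
    · exact ⟨fun _ => 0, fun h => absurd h hx⟩
  choose α hα using hα
  have hsub : ball x0 δ'' ⊆ ball x0 δ := ball_subset_ball (min_le_left _ _)
  refine ⟨ball x0 δ'', ε, ρ, (s x0).card, α, ?_, mem_ball_self hδ''0, ?_⟩
  · refine ⟨hε0, hερ, isOpen_ball, ?_, ?_, ?_, ?_⟩
    · intro x hx w hw
      exact ((hδP x (hsub hx)).2 w hw).2
    · intro x hx j
      exact (hs x (hsub hx)).1 _ (((hα x hx).1 _).mpr ⟨j, rfl⟩)
    · intro x hx w hw
      rw [(hs x (hsub hx)).2.1 w hw, (hα x hx).1]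
    · intro x hx φ hφ
      rw [(hs x (hsub hx)).2.2 φ hφ, (hα x hx).2]
  · rintro ⟨x, w⟩ ⟨hx, hw⟩
    exact hAB ⟨(hδP x (hsub hx)).1, (hρB hw).1⟩

end rootsys

end Pool.Agent.Lib.MP_3f9d7d_an
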