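import Mathlib
import Pool.Agent.Lib.MP_3f9d7d_an.Elim

open Filter MeasureTheory Set Topology Metric

namespace Pool.Agent.Lib.MP_3f9d7d_an

/-- If every element of a space of functions vanishes at one of finitely many points, then all of
them vanish at one common point. -/
lemma exists_common_point {Y : Type*} (F : Submodule ℂ (Y → ℂ)) {m : ℕ} (y : Fin m → Y)
    (h : ∀ g ∈ F, ∃ j, g (y j) = 0) : ∃ j, ∀ g ∈ F, g (y j) = 0 := by
  classical
  set S : Fin m → Subspace ℂ F := fun j =>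
    LinearMap.ker ((LinearMap.proj (y j) : (Y → ℂ) →ₗ[ℂ] ℂ).comp F.subtype) with hS
  by_contra hcon
  push Not at hcon
  have htop : (⊤ : Subspace ℂ F) ∉ Finset.univ.image S := by
    intro hmem
    rw [Finset.mem_image] at hmem
    obtain ⟨j, -, hj⟩ := hmem
    obtain ⟨g, hg, hgj⟩ := hcon j
    have : (⟨g, hg⟩ : F) ∈ S j := by rw [hj]; trivial
    exact hgj this
  apply Subspace.biUnion_ne_univ_of_top_notMem htop
  rw [Set.eq_univ_iff_forall]
  rintro ⟨g, hg⟩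
  obtain ⟨j, hj⟩ := h g hg
  simp only [Set.mem_iUnion]
  exact ⟨S j, Finset.mem_image_of_mem _ (Finset.mem_univ j), hj⟩

variable {X : Type*} [NormedAddCommGroup X] [NormedSpace ℂ X] [FiniteDimensional ℂ X]

lemma powsum_diff {Ω : Set (X × ℂ)} (hΩ : IsOpen Ω) {G : X × ℂ → ℂ}
    (hG : DifferentiableOn ℂ G Ω) {P : Set X} {w0 : ℂ} {ε ρ : ℝ} {m : ℕ} {α : X → Fin m → ℂ}
    (hR : RootSys G P w0 ε ρ m α) (hP : P ×ˢ ball w0 ρ ⊆ Ω) {φ : X × ℂ → ℂ}
    (hφ : DifferentiableOn ℂ φ Ω) : DifferentiableOn ℂ (fun x => ∑ j, φ (x, α x j)) P := by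
  have hsub : ∀ w ∈ sphere w0 ε, w ∈ ball w0 ρ := fun w hw =>
    closedBall_subset_ball hR.eps_lt (sphere_subset_closedBall hw)
  have h1 : ∀ x ∈ P, ∑ j, φ (x, α x j) = (2 * Real.pi * Complex.I : ℂ)⁻¹ *
      ∮ w in C(w0, ε), φ (x, w) * (deriv (fun w => G (x, w)) w / G (x, w)) := by
    intro x hx
    have h2 : DifferentiableOn ℂ (fun w => φ (x, w)) (ball w0 ρ) := by
      intro w hw
      apply DifferentiableAt.differentiableWithinAt
      exact (hφ.differentiableAt (hΩ.mem_nhds (hP ⟨hx, hw⟩))).comp (f := fun w : ℂ => (x, w)) w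
        (by fun_prop)
    rw [hR.integral x hx _ h2, ← mul_assoc, inv_mul_cancel₀ Complex.two_pi_I_ne_zero, one_mul]
  intro x hx
  apply DifferentiableAt.differentiableWithinAt
  have h3 := (integral_lder_diff hΩ hG hφ (x := x) hR.eps_pos.le
    (fun w hw => ⟨hP ⟨hx, hsub w hw⟩, hR.sphere x hx w hw⟩)).const_mul
    (2 * Real.pi * Complex.I : ℂ)⁻¹
  apply h3.congr_of_eventuallyEq
  filter_upwards [hR.isOpen.mem_nhds hx] with z hz
  exact h1 z hz

/-- Elimination: the projection of a common zero set is locally a common zero set (version with a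
given root system). -/
theorem elimination_rootSys {Ω : Set (X × ℂ)} (hΩ : IsOpen Ω) {F : Submodule ℂ (X × ℂ → ℂ)}
    (hF : ∀ g ∈ F, DifferentiableOn ℂ g Ω) {G : X × ℂ → ℂ} (hGF : G ∈ F) {P : Set X} {w0 : ℂ}
    {ε ρ : ℝ} {m : ℕ} {α : X → Fin m → ℂ} (hR : RootSys G P w0 ε ρ m α)
    (hPΩ : P ×ˢ ball w0 ρ ⊆ Ω) :
    ∃ (F' : Submodule ℂ (X → ℂ)), (∀ a ∈ F', DifferentiableOn ℂ a P) ∧
      ∀ x ∈ P, (∀ a ∈ F', a x = 0) ↔ ∃ w ∈ ball w0 ε, ∀ g ∈ F, g (x, w) = 0 := by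
  set Nm : (X × ℂ → ℂ) → X → ℂ := fun g x => ∏ j, g (x, α x j) with hNm
  have hNd : ∀ g ∈ F, DifferentiableOn ℂ (Nm g) P := by
    intro g hg
    apply prod_diff_of_powsum m (fun x j => g (x, α x j))
    intro k _
    exact powsum_diff hΩ (hF G hGF) hR hPΩ (φ := fun z => g z ^ k) ((hF g hg).fun_pow k)
  refine ⟨Submodule.span ℂ (Nm '' F), ?_, ?_⟩
  · intro a ha
    induction ha using Submodule.span_induction with
    | mem a ha =>
      obtain ⟨g, hg, rfl⟩ := ha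
      exact hNd g hg
    | zero => exact differentiableOn_const _
    | add a b _ _ ha hb => exact ha.add hb
    | smul c a _ ha => exact ha.const_smul c
  · intro x hx
    constructor
    · intro h
      have h1 : ∀ g ∈ F, ∃ j, g (x, α x j) = 0 := by
        intro g hg
        have h2 := h (Nm g) (Submodule.subset_span ⟨g, hg, rfl⟩)
        simp only [hNm, Finset.prod_eq_zero_iff] at h2
        obtain ⟨j, -, hj⟩ := h2
        exact ⟨j, hj⟩
      obtain ⟨j, hj⟩ := exists_common_point F (fun j => (x, α x j)) h1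
      exact ⟨α x j, hR.mem x hx j, hj⟩
    · rintro ⟨w, hw, hwF⟩ a ha
      obtain ⟨j, hj⟩ := (hR.zero_iff x hx w hw).mp (hwF G hGF)
      induction ha using Submodule.span_induction with
      | mem a ha =>
        obtain ⟨g, hg, rfl⟩ := ha
        apply Finset.prod_eq_zero (Finset.mem_univ j)
        rw [hj]
        exact hwF g hg
      | zero => rfl
      | add a b _ _ ha hb => simp [ha, hb]
      | smul c a _ ha => simp [ha]

/-- Elimination: the projection of a common zero set is locally a common zero set. -/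
theorem elimination {Ω : Set (X × ℂ)} (hΩ : IsOpen Ω) {F : Submodule ℂ (X × ℂ → ℂ)}
    (hF : ∀ g ∈ F, DifferentiableOn ℂ g Ω) {x0 : X} {w0 : ℂ} (hmem : (x0, w0) ∈ Ω)
    {G : X × ℂ → ℂ} (hGF : G ∈ F) (hne : ∀ᶠ w in 𝓝[≠] w0, G (x0, w) ≠ 0)
    {N : Set (X × ℂ)} (hN : N ∈ 𝓝 (x0, w0)) :
    ∃ (P : Set X) (ε : ℝ) (F' : Submodule ℂ (X → ℂ)), IsOpen P ∧ x0 ∈ P ∧ 0 < ε ∧
      P ×ˢ ball w0 ε ⊆ Ω ∩ N ∧ (∀ a ∈ F', DifferentiableOn ℂ a P) ∧
      ∀ x ∈ P, (∀ a ∈ F', a x = 0) ↔ ∃ w ∈ ball w0 ε, ∀ g ∈ F, g (x, w) = 0 := by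
  obtain ⟨P, ε, ρ, m, α, hR, hx0, hsub⟩ := exists_rootSys hΩ (hF G hGF) hmem hne hN
  obtain ⟨F', hF', hiff⟩ := elimination_rootSys hΩ hF hGF hR fun z hz => (hsub hz).1
  exact ⟨P, ε, F', hR.isOpen, hx0, hR.eps_pos,
    (prod_mono subset_rfl (ball_subset_ball hR.eps_lt.le)).trans hsub, hF', hiff⟩

end Pool.Agent.Lib.MP_3f9d7d_an
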