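import Mathlib
import Pool.Agent.Lib.MP_3f9d7d_an.Elim2

open Filter MeasureTheory Set Topology Metric

namespace Pool.Agent.Lib.MP_3f9d7d_an

universe u

/-- The common zero set in `Ω` of a space of functions. -/
def CZ {W : Type u} (F : Submodule ℂ (W → ℂ)) (Ω : Set W) : Set W := {z ∈ Ω | ∀ g ∈ F, g z = 0}

section line

variable {W : Type u} [NormedAddCommGroup W] [NormedSpace ℂ W]

lemma line_diff {Ω : Set W} (hΩ : IsOpen Ω) {g : W → ℂ} (hg : DifferentiableOn ℂ g Ω) (z v : W)
    {U : Set ℂ} (hU : ∀ s ∈ U, z + s • v ∈ Ω) :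
    DifferentiableOn ℂ (fun s : ℂ => g (z + s • v)) U := by
  intro s hs
  apply DifferentiableAt.differentiableWithinAt
  exact (hg.differentiableAt (hΩ.mem_nhds (hU s hs))).comp (f := fun s : ℂ => z + s • v) s
    (by fun_prop)

lemma exists_ball_line {Ω : Set W} (hΩ : IsOpen Ω) {z : W} (hz : z ∈ Ω) (v : W) :
    ∃ δ > 0, ∀ s ∈ ball (0 : ℂ) δ, z + s • v ∈ Ω := by
  have h1 : Continuous fun s : ℂ => z + s • v := by fun_prop
  have h2 : (fun s : ℂ => z + s • v) ⁻¹' Ω ∈ 𝓝 (0 : ℂ) := by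
    apply (hΩ.preimage h1).mem_nhds
    simpa using hz
  exact Metric.mem_nhds_iff.mp h2

end line

/-- Splitting off a line. -/
lemma exists_split {W : Type u} [NormedAddCommGroup W] [NormedSpace ℂ W] [FiniteDimensional ℂ W]
    {v : W} (hv : v ≠ 0) : ∃ (X : Submodule ℂ W) (e : (X × ℂ) ≃L[ℂ] W),
      (∀ x s, e (x, s) = (x : W) + s • v) ∧ Module.finrank ℂ X + 1 = Module.finrank ℂ W := by
  obtain ⟨X, hX⟩ := Submodule.exists_isCompl (ℂ ∙ v)
  set L : (X × ℂ) →ₗ[ℂ] W := LinearMap.coprod X.subtype (LinearMap.toSpanSingleton ℂ W v) with hL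
  have hLa : ∀ x s, L (x, s) = (x : W) + s • v := by
    intro x s
    simp [hL]
  have hinj : Function.Injective L := by
    rw [← LinearMap.ker_eq_bot, LinearMap.ker_eq_bot']
    rintro ⟨x, s⟩ h
    rw [hLa] at h
    have h1 : s • v ∈ (ℂ ∙ v) ⊓ X := by
      refine ⟨Submodule.smul_mem _ _ (Submodule.mem_span_singleton_self v), ?_⟩
      have : s • v = -(x : W) := by rw [eq_neg_iff_add_eq_zero, add_comm]; exact h
      rw [this]
      exact X.neg_mem x.2
    rw [hX.inf_eq_bot, Submodule.mem_bot] at h1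
    have h2 : s = 0 := by
      rcases smul_eq_zero.mp h1 with h | h
      · exact h
      · exact absurd h hv
    subst h2
    simp only [zero_smul, add_zero] at h
    have h3 : x = 0 := Subtype.ext h
    simp [h3]
  have hsurj : Function.Surjective L := by
    intro z
    have h1 : z ∈ (ℂ ∙ v) ⊔ X := by rw [hX.sup_eq_top]; trivial
    obtain ⟨a, ha, b, hb, hab⟩ := Submodule.mem_sup.mp h1
    obtain ⟨s, rfl⟩ := Submodule.mem_span_singleton.mp ha
    exact ⟨(⟨b, hb⟩, s), by rw [hLa, ← hab, add_comm]⟩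
  set e := (LinearEquiv.ofBijective L ⟨hinj, hsurj⟩).toContinuousLinearEquiv with he
  refine ⟨X, e, fun x s => hLa x s, ?_⟩
  have h1 := (LinearEquiv.ofBijective L ⟨hinj, hsurj⟩).finrank_eq
  rw [Module.finrank_prod, Module.finrank_self] at h1
  exact h1

/-- Local projection lemma: near a non-isolated point which is isolated in its fibre, a linear
functional maps a common zero set onto a neighbourhood. -/
theorem local_projection (n : ℕ) : ∀ (W : Type u) [NormedAddCommGroup W] [NormedSpace ℂ W]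
    [FiniteDimensional ℂ W], Module.finrank ℂ W = n → ∀ (ℓ : W →L[ℂ] ℂ) (Ω : Set W),
    IsOpen Ω → ∀ (F : Submodule ℂ (W → ℂ)), (∀ g ∈ F, DifferentiableOn ℂ g Ω) →
    ∀ z0 ∈ CZ F Ω, (∀ᶠ z in 𝓝 z0, z ∈ CZ F Ω → ℓ z = ℓ z0 → z = z0) →
    (∃ᶠ z in 𝓝[≠] z0, z ∈ CZ F Ω) → ∀ N ∈ 𝓝 z0, ℓ '' (CZ F Ω ∩ N) ∈ 𝓝 (ℓ z0) := by
  induction n with
  | zero =>
    intro W _ _ _ hfin ℓ Ω hΩ F hF z0 hz0 hiso hfreq N hN
    exfalso
    have : Subsingleton W := Module.finrank_zero_iff.mp hfin
    obtain ⟨z, -, hz⟩ := (hfreq.and_eventually self_mem_nhdsWithin).exists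
    exact hz (Subsingleton.elim z z0)
  | succ n ih =>
    intro W _ _ _ hfin ℓ Ω hΩ F hF z0 hz0 hiso hfreq N hN
    by_cases hker : ∃ v : W, v ≠ 0 ∧ ℓ v = 0
    · obtain ⟨v, hv, hℓv⟩ := hker
      obtain ⟨X, e, heq, hfinX⟩ := exists_split hv
      set x0 := (e.symm z0).1 with hx0
      set w0 := (e.symm z0).2 with hw0
      have hez0 : e (x0, w0) = z0 := by
        rw [hx0, hw0]; exact e.apply_symm_apply z0
      -- a function in `F` with isolated zero along the line
      obtain ⟨δ, hδ, hδΩ⟩ := exists_ball_line hΩ hz0.1 v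
      have hisoline : ∀ᶠ s in 𝓝 (0 : ℂ), z0 + s • v ∈ CZ F Ω → s = 0 := by
        have h1 : Tendsto (fun s : ℂ => z0 + s • v) (𝓝 0) (𝓝 z0) := by
          have : Continuous fun s : ℂ => z0 + s • v := by fun_prop
          have := this.tendsto 0
          simpa using this
        filter_upwards [h1.eventually hiso] with s hs hmem
        have h2 := hs hmem (by simp [hℓv])
        have h3 : s • v = 0 := by simpa using h2
        rcases smul_eq_zero.mp h3 with h | h
        · exact h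
        · exact absurd h hv
      obtain ⟨s1, hs1, hs10, hs1δ⟩ : ∃ s1 : ℂ, (z0 + s1 • v ∈ CZ F Ω → s1 = 0) ∧ s1 ≠ 0 ∧
          s1 ∈ ball (0 : ℂ) δ := by
        have h1 : ∀ᶠ s in 𝓝[≠] (0 : ℂ), (z0 + s • v ∈ CZ F Ω → s = 0) ∧ s ≠ 0 ∧
            s ∈ ball (0 : ℂ) δ := by
          filter_upwards [nhdsWithin_le_nhds hisoline, self_mem_nhdsWithin,
            nhdsWithin_le_nhds (ball_mem_nhds (0 : ℂ) hδ)] with s h1 h2 h3
          exact ⟨h1, h2, h3⟩
        exact h1.exists
      obtain ⟨g, hgF, hgne⟩ : ∃ g ∈ F, g (z0 + s1 • v) ≠ 0 := by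
        by_contra hcon
        push Not at hcon
        exact hs10 (hs1 ⟨hδΩ s1 hs1δ, hcon⟩)
      have hgana : AnalyticOnNhd ℂ (fun s : ℂ => g (z0 + s • v)) (ball 0 δ) :=
        (line_diff hΩ (hF g hgF) z0 v hδΩ).analyticOnNhd isOpen_ball
      have hgev : ∀ᶠ s in 𝓝[≠] (0 : ℂ), g (z0 + s • v) ≠ 0 := by
        by_contra hcon
        have h1 : ∃ᶠ s in 𝓝[≠] (0 : ℂ), g (z0 + s • v) = 0 := by
          intro h2; exact hcon h2
        have h2 := hgana.eqOn_zero_of_preconnected_of_frequently_eq_zero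
          (convex_ball (0 : ℂ) δ).isPreconnected (mem_ball_self hδ) h1
        exact hgne (h2 hs1δ)
      -- transport
      set F' : Submodule ℂ (X × ℂ → ℂ) := F.map (LinearMap.funLeft ℂ ℂ e) with hF'
      have hF'd : ∀ g ∈ F', DifferentiableOn ℂ g (e ⁻¹' Ω) := by
        rintro _ ⟨g, hg, rfl⟩
        exact (hF g hg).comp e.differentiable.differentiableOn (fun z hz => hz)
      have hΩ' : IsOpen (e ⁻¹' Ω) := hΩ.preimage e.continuous
      have hCZ' : ∀ x s, (∀ g ∈ F', g (x, s) = 0) ↔ ∀ g ∈ F, g (e (x, s)) = 0 := by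
        intro x s
        constructor
        · intro h g hg
          exact h _ ⟨g, hg, rfl⟩
        · rintro h _ ⟨g, hg, rfl⟩
          exact h g hg
      have hne' : ∀ᶠ w in 𝓝[≠] w0, (LinearMap.funLeft ℂ ℂ e g) (x0, w) ≠ 0 := by
        have h1 : Tendsto (fun w : ℂ => w - w0) (𝓝[≠] w0) (𝓝[≠] 0) := by
          apply tendsto_nhdsWithin_of_tendsto_nhds_of_eventually_within
          · have : Continuous fun w : ℂ => w - w0 := by fun_prop
            have := this.tendsto w0
            rw [sub_self] at this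
            exact this.mono_left nhdsWithin_le_nhds
          · filter_upwards [self_mem_nhdsWithin] with w hw
            exact sub_ne_zero.mpr hw
        filter_upwards [h1.eventually hgev] with w hw
        have h2 : e (x0, w) = z0 + (w - w0) • v := by
          rw [← hez0, heq, heq, sub_smul]; abel
        change g (e (x0, w)) ≠ 0
        rw [h2]
        exact hw
      obtain ⟨P, ε, F1, hPo, hx0P, hε, hsub, hF1, hiff⟩ := elimination hΩ' hF'd
        (x0 := x0) (w0 := w0) (by rw [mem_preimage, hez0]; exact hz0.1)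
        (Submodule.mem_map_of_mem hgF) hne'
        (N := e ⁻¹' (N ∩ {z | z ∈ CZ F Ω → ℓ z = ℓ z0 → z = z0}))
        (by
          apply e.continuous.continuousAt.preimage_mem_nhds
          rw [hez0]
          exact inter_mem hN hiso)
      have hmemCZ : ∀ x ∈ P, x ∈ CZ F1 P ↔ ∃ w ∈ ball w0 ε, e (x, w) ∈ CZ F Ω := by
        intro x hx
        constructor
        · rintro ⟨-, h⟩
          obtain ⟨w, hw, hwF⟩ := (hiff x hx).mp h
          exact ⟨w, hw, (hsub ⟨hx, hw⟩).1, (hCZ' x w).mp hwF⟩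
        · rintro ⟨w, hw, hwF⟩
          exact ⟨hx, (hiff x hx).mpr ⟨w, hw, (hCZ' x w).mpr hwF.2⟩⟩
      have hℓe : ∀ x : X, ∀ s, ℓ (e (x, s)) = ℓ x := by
        intro x s
        rw [heq, map_add, map_smul, hℓv, smul_zero, add_zero]
      have hx0CZ : x0 ∈ CZ F1 P := by
        rw [hmemCZ x0 hx0P]
        exact ⟨w0, mem_ball_self hε, by rw [hez0]; exact hz0⟩
      have hiso1 : ∀ᶠ x in 𝓝 x0, x ∈ CZ F1 P → (ℓ.comp X.subtypeL) x = (ℓ.comp X.subtypeL) x0 →
          x = x0 := by
        filter_upwards [hPo.mem_nhds hx0P] with x hx hxCZ hℓx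
        obtain ⟨w, hw, hwCZ⟩ := (hmemCZ x hx).mp hxCZ
        have h1 : ℓ (e (x, w)) = ℓ z0 := by
          rw [hℓe, ← hez0, hℓe]; exact hℓx
        have h2 := (hsub ⟨hx, hw⟩).2.2 hwCZ h1
        rw [← hez0] at h2
        have h3 := e.injective h2
        exact (Prod.mk.inj h3).1
      have hfreq1 : ∃ᶠ x in 𝓝[≠] x0, x ∈ CZ F1 P := by
        have h1 : Tendsto (fun z => (e.symm z).1) (𝓝[≠] z0 ⊓ 𝓟 (CZ F Ω)) (𝓝[≠] x0) := by
          apply tendsto_nhdsWithin_of_tendsto_nhds_of_eventually_within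
          · have : Continuous fun z => (e.symm z).1 := by fun_prop
            exact (this.tendsto z0).mono_left (inf_le_left.trans nhdsWithin_le_nhds)
          · have h2 : ∀ᶠ z in 𝓝[≠] z0 ⊓ 𝓟 (CZ F Ω), z ∈ CZ F Ω :=
              mem_inf_of_right (mem_principal_self _)
            have h3 : ∀ᶠ z in 𝓝[≠] z0 ⊓ 𝓟 (CZ F Ω), z ≠ z0 :=
              mem_inf_of_left self_mem_nhdsWithin
            have h4 : ∀ᶠ z in 𝓝[≠] z0 ⊓ 𝓟 (CZ F Ω), z ∈ CZ F Ω → ℓ z = ℓ z0 → z = z0 :=
              mem_inf_of_left (nhdsWithin_le_nhds hiso)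
            filter_upwards [h2, h3, h4] with z hz2 hz3 hz4 hcon
            apply hz3 (hz4 hz2 _)
            have h5 : z = e ((e.symm z).1, (e.symm z).2) := (e.apply_symm_apply z).symm
            have h6 : (e.symm z).1 = x0 := hcon
            rw [h5, hℓe, ← hez0, hℓe, h6]
        have h2 : ∃ᶠ z in 𝓝[≠] z0 ⊓ 𝓟 (CZ F Ω), (e.symm z).1 ∈ CZ F1 P := by
          have h3 : ∀ᶠ z in 𝓝[≠] z0 ⊓ 𝓟 (CZ F Ω), (e.symm z).1 ∈ CZ F1 P := by
            have h4 : ∀ᶠ z in 𝓝 z0, (e.symm z).1 ∈ P ∧ (e.symm z).2 ∈ ball w0 ε := by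
              have h5 : Continuous fun z => (e.symm z).1 := by fun_prop
              have h6 : Continuous fun z => (e.symm z).2 := by fun_prop
              exact (h5.continuousAt.eventually_mem (hPo.mem_nhds hx0P)).and
                (h6.continuousAt.eventually_mem (isOpen_ball.mem_nhds (mem_ball_self hε)))
            have h7 : ∀ᶠ z in 𝓝[≠] z0 ⊓ 𝓟 (CZ F Ω), z ∈ CZ F Ω :=
              mem_inf_of_right (mem_principal_self _)
            filter_upwards [mem_inf_of_left (nhdsWithin_le_nhds h4), h7] with z hz1 hz2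
            rw [hmemCZ _ hz1.1]
            refine ⟨(e.symm z).2, hz1.2, ?_⟩
            have h8 : e ((e.symm z).1, (e.symm z).2) = z := e.apply_symm_apply z
            rw [h8]
            exact hz2
          have hne : (𝓝[≠] z0 ⊓ 𝓟 (CZ F Ω)).NeBot := by
            rw [Filter.inf_principal_neBot_iff]
            intro V hV
            obtain ⟨z, hz1, hz2⟩ := (hfreq.and_eventually hV).exists
            exact ⟨z, hz2, hz1⟩
          exact h3.frequently
        exact h1.frequently h2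
      have hres := ih X (by omega) (ℓ.comp X.subtypeL) P hPo F1 hF1 x0 hx0CZ hiso1 hfreq1 univ
        univ_mem
      have hℓx0 : (ℓ.comp X.subtypeL) x0 = ℓ z0 := by
        rw [← hez0, hℓe]; rfl
      rw [hℓx0] at hres
      filter_upwards [hres] with t ht
      obtain ⟨x, ⟨hxCZ, -⟩, hxt⟩ := ht
      obtain ⟨w, hw, hwCZ⟩ := (hmemCZ x hxCZ.1).mp hxCZ
      refine ⟨e (x, w), ⟨hwCZ, (hsub ⟨hxCZ.1, hw⟩).2.1⟩, ?_⟩
      rw [hℓe, ← hxt]
      rfl
    · -- `ℓ` is injective
      push Not at hker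
      have hinj : Function.Injective ℓ := by
        intro a b hab
        by_contra hne
        apply hker (a - b) (sub_ne_zero.mpr hne)
        rw [map_sub, hab, sub_self]
      obtain ⟨z1, -, hz1⟩ := (hfreq.and_eventually self_mem_nhdsWithin).exists
      have hz1' : z1 - z0 ≠ 0 := sub_ne_zero.mpr hz1
      have hℓ1 : ℓ (z1 - z0) ≠ 0 := hker _ hz1'
      set v := (ℓ (z1 - z0))⁻¹ • (z1 - z0) with hv
      have hℓv : ℓ v = 1 := by
        rw [hv, map_smul, smul_eq_mul, inv_mul_cancel₀ hℓ1]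
      have hpar : ∀ z, z = z0 + (ℓ z - ℓ z0) • v := by
        intro z
        apply hinj
        rw [map_add, map_smul, hℓv, smul_eq_mul, mul_one]
        ring
      obtain ⟨δ, hδ, hδΩ⟩ := exists_ball_line hΩ hz0.1 v
      have hzero : ∀ g ∈ F, ∀ s ∈ ball (0 : ℂ) δ, g (z0 + s • v) = 0 := by
        intro g hg
        have hana := (line_diff hΩ (hF g hg) z0 v hδΩ).analyticOnNhd isOpen_ball
        have hfr : ∃ᶠ s in 𝓝[≠] (0 : ℂ), g (z0 + s • v) = 0 := by
          have h1 : Tendsto (fun z => ℓ z - ℓ z0) (𝓝[≠] z0) (𝓝[≠] 0) := by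
            apply tendsto_nhdsWithin_of_tendsto_nhds_of_eventually_within
            · have : Continuous fun z => ℓ z - ℓ z0 := by fun_prop
              have := this.tendsto z0
              rw [sub_self] at this
              exact this.mono_left nhdsWithin_le_nhds
            · filter_upwards [self_mem_nhdsWithin] with z hz
              rw [mem_compl_iff, mem_singleton_iff, sub_eq_zero]
              exact fun h => hz (hinj h)
          apply h1.frequently
          refine hfreq.mono fun z hz => ?_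
          rw [← hpar z]
          exact hz.2 g hg
        exact fun s hs => hana.eqOn_zero_of_preconnected_of_frequently_eq_zero
          (convex_ball (0 : ℂ) δ).isPreconnected (mem_ball_self hδ) hfr hs
      have h1 : Continuous fun t : ℂ => z0 + (t - ℓ z0) • v := by fun_prop
      have h2 : ∀ᶠ t in 𝓝 (ℓ z0), z0 + (t - ℓ z0) • v ∈ N := by
        apply h1.continuousAt.eventually_mem
        simpa using hN
      filter_upwards [h2, ball_mem_nhds (ℓ z0) hδ] with t ht1 ht2
      have ht3 : t - ℓ z0 ∈ ball (0 : ℂ) δ := by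
        rw [mem_ball_zero_iff, ← dist_eq_norm]; exact ht2
      refine ⟨z0 + (t - ℓ z0) • v, ⟨⟨hδΩ _ ht3, fun g hg => hzero g hg _ ht3⟩, ht1⟩, ?_⟩
      rw [map_add, map_smul, hℓv, smul_eq_mul, mul_one]
      ring

end Pool.Agent.Lib.MP_3f9d7d_an
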