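import Mathlib
import Pool.Agent.Lib.MP_3f9d7d_an.LocProj

open Filter MeasureTheory Set Topology Metric

namespace Pool.Agent.Lib.MP_3f9d7d_an

universe u

lemma exists_acc_point {W S : Type*} [TopologicalSpace W] [TopologicalSpace S] [T2Space S]
    {Y : Set W} (hY : IsCompact Y) {φ : W → S} (hφ : Continuous φ) {t : S}
    (h : ∃ᶠ s in 𝓝[≠] t, s ∈ φ '' Y) : ∃ y ∈ Y, φ y = t ∧ ∃ᶠ z in 𝓝[≠] y, z ∈ Y := by
  set f : Filter W := comap φ (𝓝[≠] t) ⊓ 𝓟 Y with hf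
  have hne : f.NeBot := by
    rw [hf, inf_principal_neBot_iff]
    intro U hU
    obtain ⟨V, hV, hVU⟩ := mem_comap.mp hU
    obtain ⟨s, ⟨y, hy, hys⟩, hsV⟩ := (h.and_eventually hV).exists
    refine ⟨y, hVU ?_, hy⟩
    rw [mem_preimage, hys]
    exact hsV
  obtain ⟨y, hy, hcl⟩ := hY.exists_clusterPt (f := f) inf_le_right
  have hcl' : (𝓝 y ⊓ f).NeBot := hcl
  have h1 : ∀ᶠ z in 𝓝 y ⊓ f, z ∈ Y := mem_inf_of_right (mem_inf_of_right (mem_principal_self Y))
  have h2 : Tendsto φ (𝓝 y ⊓ f) (𝓝[≠] t) :=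
    tendsto_comap.mono_left (inf_le_right.trans inf_le_left)
  have h3 : Tendsto φ (𝓝 y ⊓ f) (𝓝 (φ y)) := hφ.continuousAt.tendsto.mono_left inf_le_left
  have hty : φ y = t := tendsto_nhds_unique h3 (h2.mono_right nhdsWithin_le_nhds)
  refine ⟨y, hy, hty, ?_⟩
  intro hcon
  rw [eventually_nhdsWithin_iff] at hcon
  have h4 : ∀ᶠ z in 𝓝 y ⊓ f, z ∈ ({y} : Set W)ᶜ → z ∉ Y := mem_inf_of_left hcon
  have h5 : ∀ᶠ z in 𝓝 y ⊓ f, φ z ≠ t := h2.eventually self_mem_nhdsWithin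
  obtain ⟨z, hz1, hz4, hz5⟩ := (h1.and (h4.and h5)).exists
  apply hz4 _ hz1
  intro hzy
  have : z = y := hzy
  rw [this] at hz5
  exact hz5 hty

lemma mem_CZ_sup_span {W : Type u} {F : Submodule ℂ (W → ℂ)} {Ω : Set W} {f : W → ℂ} {z : W} :
    z ∈ CZ (F ⊔ ℂ ∙ f) Ω ↔ z ∈ CZ F Ω ∧ f z = 0 := by
  constructor
  · rintro ⟨h1, h2⟩
    refine ⟨⟨h1, fun g hg => h2 g (Submodule.mem_sup_left hg)⟩, ?_⟩
    exact h2 f (Submodule.mem_sup_right (Submodule.mem_span_singleton_self f))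
  · rintro ⟨⟨h1, h2⟩, h3⟩
    refine ⟨h1, fun g hg => ?_⟩
    obtain ⟨a, ha, b, hb, rfl⟩ := Submodule.mem_sup.mp hg
    obtain ⟨c, rfl⟩ := Submodule.mem_span_singleton.mp hb
    simp [h2 a ha, h3]

lemma diff_sup_span {W : Type u} [NormedAddCommGroup W] [NormedSpace ℂ W]
    {F : Submodule ℂ (W → ℂ)} {Ω : Set W} (hF : ∀ g ∈ F, DifferentiableOn ℂ g Ω) {f : W → ℂ}
    (hf : DifferentiableOn ℂ f Ω) : ∀ g ∈ F ⊔ ℂ ∙ f, DifferentiableOn ℂ g Ω := by
  intro g hg
  obtain ⟨a, ha, b, hb, rfl⟩ := Submodule.mem_sup.mp hg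
  obtain ⟨c, rfl⟩ := Submodule.mem_span_singleton.mp hb
  exact (hF a ha).add (hf.const_smul c)

lemma isCompact_CZ_inter {W : Type u} [NormedAddCommGroup W] [NormedSpace ℂ W]
    {F : Submodule ℂ (W → ℂ)} {Ω : Set W} (hF : ∀ g ∈ F, DifferentiableOn ℂ g Ω) {K : Set W}
    (hK : IsCompact K) (hKΩ : K ⊆ Ω) : IsCompact (CZ F Ω ∩ K) := by
  have h1 : CZ F Ω ∩ K = K ∩ ⋂ g : F, {z ∈ K | (g : W → ℂ) z = 0} := by
    ext z
    simp only [mem_inter_iff, mem_iInter, mem_sep_iff]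
    constructor
    · rintro ⟨h1, h2⟩
      exact ⟨h2, fun g => ⟨h2, h1.2 g g.2⟩⟩
    · rintro ⟨h1, h2⟩
      exact ⟨⟨hKΩ h1, fun g hg => (h2 ⟨g, hg⟩).2⟩, h1⟩
  rw [h1]
  apply hK.inter_right
  apply isClosed_iInter
  intro g
  have h2 : ContinuousOn (g : W → ℂ) K := (hF g g.2).continuousOn.mono hKΩ
  exact h2.preimage_isClosed_of_isClosed hK.isClosed isClosed_singleton

lemma acc_interior {W : Type u} [NormedAddCommGroup W] [NormedSpace ℂ W] [FiniteDimensional ℂ W]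
    {ℓ : W →L[ℂ] ℂ} {Ω O : Set W} (hΩ : IsOpen Ω) (hO : IsOpen O) {F : Submodule ℂ (W → ℂ)}
    (hF : ∀ g ∈ F, DifferentiableOn ℂ g Ω) {Yc : Set W} (hYc : IsCompact Yc)
    (hsub : Yc ⊆ CZ F Ω ∩ O) {t : ℂ} (hacc : ∃ᶠ s in 𝓝[≠] t, s ∈ ℓ '' Yc)
    (hfin : {z ∈ CZ F Ω ∩ O | ℓ z = t}.Finite) : ℓ '' (CZ F Ω ∩ O) ∈ 𝓝 t := by
  obtain ⟨y, hy, hyt, hfreq⟩ := exists_acc_point hYc ℓ.continuous hacc
  have hyCZ := hsub hy
  rw [← hyt]
  apply local_projection _ W rfl ℓ Ω hΩ F hF y hyCZ.1 _ _ O (hO.mem_nhds hyCZ.2)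
  · have h1 : ({z ∈ CZ F Ω ∩ O | ℓ z = t} \ {y}).Finite := hfin.subset sdiff_subset
    have h2 : ∀ᶠ z in 𝓝 y, z ∉ {z ∈ CZ F Ω ∩ O | ℓ z = t} \ {y} :=
      h1.isClosed.isOpen_compl.mem_nhds (fun h => h.2 rfl)
    filter_upwards [h2, hO.mem_nhds hyCZ.2] with z hz1 hz2 hzCZ hzt
    by_contra hne
    exact hz1 ⟨⟨⟨hzCZ, hz2⟩, hzt.trans hyt⟩, hne⟩
  · exact hfreq.mono fun z hz => (hsub hz).1

/-- A set `T ⊆ Δ` all of whose accumulation points in `Δ` are interior is everything as soon as it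
has one accumulation point. -/
lemma eq_of_acc_interior {Δ T : Set ℂ} (hΔ : IsPreconnected Δ)
    (h : ∀ t ∈ Δ, (∃ᶠ s in 𝓝[≠] t, s ∈ T) → T ∈ 𝓝 t) {t0 : ℂ} (ht0 : t0 ∈ Δ)
    (hacc : ∃ᶠ s in 𝓝[≠] t0, s ∈ T) : Δ ⊆ T := by
  have hint : t0 ∈ interior T := mem_interior_iff_mem_nhds.mpr (h t0 ht0 hacc)
  have hcl : Δ ⊆ interior T := by
    apply hΔ.subset_of_closure_inter_subset isOpen_interior ⟨t0, ht0, hint⟩
    rintro t ⟨htcl, htΔ⟩
    apply mem_interior_iff_mem_nhds.mpr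
    apply h t htΔ
    intro hcon
    rw [eventually_nhdsWithin_iff] at hcon
    obtain ⟨V, hV, hVo, htV⟩ := _root_.mem_nhds_iff.mp hcon
    -- `V ∩ interior T` is a nonempty open set contained in `{t}`
    obtain ⟨s, hsV, hsT⟩ := (_root_.mem_closure_iff.mp htcl) V hVo htV
    have h1 : V ∩ interior T ⊆ {t} := by
      rintro s ⟨hs1, hs2⟩
      by_contra hne
      exact hV hs1 hne (interior_subset hs2)
    have h2 : IsOpen (V ∩ interior T) := hVo.inter isOpen_interior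
    have h3 : V ∩ interior T = {t} := by
      apply Subset.antisymm h1
      have hst : s = t := h1 ⟨hsV, hsT⟩
      rw [← hst]
      exact singleton_subset_iff.mpr ⟨hsV, hsT⟩
    rw [h3] at h2
    exact not_isOpen_singleton t h2
  exact hcl.trans interior_subset

/-- Compact relatively open pieces of common zero sets are finite. -/
theorem finite_of_compact (n : ℕ) : ∀ (W : Type u) [NormedAddCommGroup W] [NormedSpace ℂ W]
    [FiniteDimensional ℂ W], Module.finrank ℂ W = n → ∀ (Ω O : Set W), IsOpen Ω → IsOpen O →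
    ∀ (F : Submodule ℂ (W → ℂ)), (∀ g ∈ F, DifferentiableOn ℂ g Ω) →
    IsCompact (CZ F Ω ∩ O) → (CZ F Ω ∩ O).Finite := by
  induction n with
  | zero =>
    intro W _ _ _ hfin Ω O _ _ F _ _
    have : Subsingleton W := Module.finrank_zero_iff.mp hfin
    exact Set.toFinite _
  | succ n ih =>
    intro W _ _ _ hfin Ω O hΩ hO F hF hcomp
    by_contra hinf
    have : Nontrivial W := Module.nontrivial_of_finrank_pos (R := ℂ) (by omega)
    obtain ⟨v, hv⟩ := exists_ne (0 : W)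
    obtain ⟨ℓ, hℓv⟩ : ∃ ℓ : W →L[ℂ] ℂ, ℓ v ≠ 0 := by
      obtain ⟨f, -, hf⟩ := exists_dual_vector ℂ v (norm_ne_zero_iff.mpr hv)
      exact ⟨f, by rw [hf]; simpa using hv⟩
    set X : Submodule ℂ W := LinearMap.ker (ℓ : W →ₗ[ℂ] ℂ) with hX
    have hfinX : Module.finrank ℂ X = n := by
      have h1 := LinearMap.finrank_range_add_finrank_ker (ℓ : W →ₗ[ℂ] ℂ)
      have h2 : LinearMap.range (ℓ : W →ₗ[ℂ] ℂ) = ⊤ := by
        rw [LinearMap.range_eq_top]
        intro c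
        refine ⟨(c / ℓ v) • v, ?_⟩
        simp [hℓv]
      rw [h2, finrank_top, Module.finrank_self] at h1
      have h3 : Module.finrank ℂ X = Module.finrank ℂ (LinearMap.ker (ℓ : W →ₗ[ℂ] ℂ)) := rfl
      rw [h3]
      omega
    -- finiteness of fibres
    have hfib : ∀ t : ℂ, {z ∈ CZ F Ω ∩ O | ℓ z = t}.Finite := by
      intro t
      rcases Set.eq_empty_or_nonempty {z ∈ CZ F Ω ∩ O | ℓ z = t} with h | ⟨z0, hz0⟩
      · rw [h]; exact Set.finite_empty
      · set τ : X → W := fun x => z0 + x with hτ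
        have hτiso : Isometry τ := by
          apply Isometry.of_dist_eq
          intro a b
          simp [hτ, dist_eq_norm]
        have hτc : Continuous τ := hτiso.continuous
        have hτd : Differentiable ℂ τ := by
          have h1 : Differentiable ℂ fun x : X => (x : W) := X.subtypeL.differentiable
          exact h1.const_add z0
        set F' : Submodule ℂ (X → ℂ) := F.map (LinearMap.funLeft ℂ ℂ τ) with hF'
        have hF'd : ∀ g ∈ F', DifferentiableOn ℂ g (τ ⁻¹' Ω) := by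
          rintro _ ⟨g, hg, rfl⟩
          exact (hF g hg).comp hτd.differentiableOn (fun z hz => hz)
        have heq : CZ F' (τ ⁻¹' Ω) ∩ τ ⁻¹' O = τ ⁻¹' (CZ F Ω ∩ O) := by
          ext x
          constructor
          · rintro ⟨⟨h1, h2⟩, h3⟩
            exact ⟨⟨h1, fun g hg => h2 _ ⟨g, hg, rfl⟩⟩, h3⟩
          · rintro ⟨⟨h1, h2⟩, h3⟩
            refine ⟨⟨h1, ?_⟩, h3⟩
            rintro _ ⟨g, hg, rfl⟩
            exact h2 g hg
        have hcomp' : IsCompact (CZ F' (τ ⁻¹' Ω) ∩ τ ⁻¹' O) := by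
          rw [heq]
          exact hτiso.isClosedEmbedding.isCompact_preimage hcomp
        have hfin' := ih X hfinX (τ ⁻¹' Ω) (τ ⁻¹' O) (hΩ.preimage hτc) (hO.preimage hτc) F' hF'd
          hcomp'
        rw [heq] at hfin'
        apply (hfin'.image τ).subset
        rintro z ⟨hz1, hz2⟩
        have h4 : z - z0 ∈ X := by
          rw [hX, LinearMap.mem_ker]
          have h5 : ℓ z0 = t := hz0.2
          change ℓ (z - z0) = 0
          rw [map_sub, hz2, h5, sub_self]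
        refine ⟨⟨z - z0, h4⟩, ?_, ?_⟩
        · rw [mem_preimage]
          have : τ ⟨z - z0, h4⟩ = z := by simp [hτ]
          rw [this]
          exact hz1
        · simp [hτ]
    -- the image
    set T := ℓ '' (CZ F Ω ∩ O) with hT
    have hTcomp : IsCompact T := hcomp.image ℓ.continuous
    have hTinf : T.Infinite := by
      intro hTfin
      apply hinf
      have h1 : CZ F Ω ∩ O = ⋃ t ∈ T, {z ∈ CZ F Ω ∩ O | ℓ z = t} := by
        ext z
        simp only [mem_iUnion]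
        constructor
        · intro hz
          exact ⟨ℓ z, ⟨z, hz, rfl⟩, hz, rfl⟩
        · rintro ⟨t, _, hz, _⟩
          exact hz
      rw [h1]
      exact hTfin.biUnion fun t _ => hfib t
    obtain ⟨t0, -, ht0⟩ := hTinf.exists_accPt_of_subset_isCompact hTcomp Subset.rfl
    rw [accPt_iff_frequently_nhdsNE] at ht0
    have huniv : (univ : Set ℂ) ⊆ T := by
      apply eq_of_acc_interior isPreconnected_univ _ (mem_univ t0) ht0
      intro t _ hacc
      exact acc_interior hΩ hO hF hcomp Subset.rfl hacc (hfib t)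
    have h1 : T = univ := univ_subset_iff.mp huniv
    rw [h1] at hTcomp
    exact noncompact_univ ℂ hTcomp

/-- The minimum principle for an affine function on a common zero set. -/
theorem min_principle {W : Type u} [NormedAddCommGroup W] [NormedSpace ℂ W]
    [FiniteDimensional ℂ W] {Ω : Set W} (hΩ : IsOpen Ω) {F : Submodule ℂ (W → ℂ)}
    (hF : ∀ g ∈ F, DifferentiableOn ℂ g Ω) {r : ℝ} (hr : 0 < r) (hball : closedBall 0 r ⊆ Ω)
    (hfreq : ∃ᶠ z in 𝓝[≠] (0 : W), z ∈ CZ F Ω) (ℓ : W →L[ℂ] ℂ) (c0 : ℂ)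
    (hne : ∀ z ∈ CZ F Ω, ‖z‖ ≤ r → c0 + ℓ z ≠ 0) :
    ∃ z ∈ CZ F Ω, ‖z‖ = r ∧ ‖c0 + ℓ z‖ ≤ ‖c0‖ ∧ ∃ᶠ y in 𝓝[≠] z, y ∈ CZ F Ω := by
  have hproper : ProperSpace W := FiniteDimensional.proper ℂ W
  by_contra hcon
  push Not at hcon
  set Q : Set W := {z ∈ CZ F Ω ∩ closedBall 0 r | ‖c0 + ℓ z‖ ≤ ‖c0‖} with hQ
  have hQc : IsCompact Q := by
    have h1 := isCompact_CZ_inter hF (isCompact_closedBall (0 : W) r) hball
    have h2 : IsClosed {z : W | ‖c0 + ℓ z‖ ≤ ‖c0‖} := isClosed_le (by fun_prop) continuous_const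
    exact h1.inter_right h2
  -- a good radius
  have h1 : ¬ ∃ᶠ s in 𝓝[≠] r, s ∈ (fun z : W => ‖z‖) '' Q := by
    intro hf
    obtain ⟨y, hy, hyr, hyf⟩ := exists_acc_point hQc continuous_norm hf
    exact (hyf.mono fun z hz => hz.1.1) (hcon y hy.1.1 hyr hy.2)
  rw [not_frequently] at h1
  obtain ⟨r2, hr20, hr2r, hr2Q⟩ : ∃ r2 : ℝ, 0 < r2 ∧ r2 < r ∧ r2 ∉ (fun z : W => ‖z‖) '' Q := by
    have h2 : ∀ᶠ s in 𝓝[<] r, s ∉ (fun z : W => ‖z‖) '' Q :=
      h1.filter_mono (nhdsWithin_mono r fun x hx => ne_of_lt hx)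
    have h3 : ∀ᶠ s in 𝓝[<] r, 0 < s ∧ s < r := by
      filter_upwards [Ioo_mem_nhdsLT hr] with s hs
      exact hs
    obtain ⟨s, hs1, hs2, hs3⟩ := (h2.and h3).exists
    exact ⟨s, hs2, hs3, hs1⟩
  have hcb : closedBall (0 : W) r2 ⊆ Ω := (closedBall_subset_closedBall hr2r.le).trans hball
  have hsph : ∀ z ∈ CZ F Ω, ‖z‖ = r2 → ‖c0‖ < ‖c0 + ℓ z‖ := by
    intro z hz hzr
    by_contra hle
    push Not at hle
    apply hr2Q
    exact ⟨z, ⟨⟨hz, by rw [mem_closedBall_zero_iff, hzr]; exact hr2r.le⟩, hle⟩, hzr⟩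
  obtain ⟨R, hR, hRs⟩ : ∃ R : ℝ, ‖c0‖ < R ∧ ∀ z ∈ CZ F Ω, ‖z‖ = r2 → R ≤ ‖c0 + ℓ z‖ := by
    have h4 : IsCompact (CZ F Ω ∩ sphere 0 r2) :=
      isCompact_CZ_inter hF (isCompact_sphere (0 : W) r2) (sphere_subset_closedBall.trans hcb)
    rcases Set.eq_empty_or_nonempty (CZ F Ω ∩ sphere 0 r2) with h5 | h5
    · refine ⟨‖c0‖ + 1, by linarith, ?_⟩
      intro z hz hzr
      have : z ∈ CZ F Ω ∩ sphere 0 r2 := ⟨hz, by rwa [mem_sphere_zero_iff_norm]⟩
      rw [h5] at this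
      exact absurd this (notMem_empty z)
    · obtain ⟨z1, hz1, hmin⟩ := h4.exists_isMinOn h5
        (by fun_prop : ContinuousOn (fun z : W => ‖c0 + ℓ z‖) (CZ F Ω ∩ sphere 0 r2))
      refine ⟨‖c0 + ℓ z1‖, hsph z1 hz1.1 (mem_sphere_zero_iff_norm.mp hz1.2), ?_⟩
      intro z hz hzr
      exact hmin ⟨hz, by rwa [mem_sphere_zero_iff_norm]⟩
  -- fibres are finite
  have hcompfib : ∀ K : Set ℂ, IsClosed K → K ⊆ ball 0 R →
      IsCompact {z ∈ CZ F Ω ∩ ball 0 r2 | c0 + ℓ z ∈ K} := by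
    intro K hK hKR
    have h5 := isCompact_CZ_inter hF (isCompact_closedBall (0 : W) r2) hcb
    have h6 : IsClosed {z : W | c0 + ℓ z ∈ K} := hK.preimage (by fun_prop)
    have h7 : {z ∈ CZ F Ω ∩ ball 0 r2 | c0 + ℓ z ∈ K} =
        (CZ F Ω ∩ closedBall 0 r2) ∩ {z : W | c0 + ℓ z ∈ K} := by
      ext z
      constructor
      · rintro ⟨⟨h8, h9⟩, h10⟩
        exact ⟨⟨h8, ball_subset_closedBall h9⟩, h10⟩
      · rintro ⟨⟨h8, h9⟩, h10⟩
        refine ⟨⟨h8, ?_⟩, h10⟩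
        rw [mem_closedBall_zero_iff] at h9
        rw [mem_ball_zero_iff]
        refine lt_of_le_of_ne h9 fun h11 => ?_
        have h12 := hRs z h8 h11
        have h13 := hKR h10
        rw [mem_ball_zero_iff] at h13
        linarith
    rw [h7]
    exact h5.inter_right h6
  have hfib : ∀ t ∈ ball (0 : ℂ) R, {z ∈ CZ F Ω ∩ ball 0 r2 | ℓ z = t - c0}.Finite := by
    intro t ht
    set f : W → ℂ := fun z => (c0 - t) + ℓ z with hf
    have hfd : DifferentiableOn ℂ f Ω := by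
      have : Differentiable ℂ f := by
        rw [hf]; fun_prop
      exact this.differentiableOn
    have h5 : CZ (F ⊔ ℂ ∙ f) Ω ∩ ball 0 r2 = {z ∈ CZ F Ω ∩ ball 0 r2 | ℓ z = t - c0} := by
      ext z
      constructor
      · rintro ⟨h6, h7⟩
        rw [mem_CZ_sup_span] at h6
        refine ⟨⟨h6.1, h7⟩, ?_⟩
        have := h6.2
        simp only [hf] at this
        linear_combination this
      · rintro ⟨⟨h6, h7⟩, h8⟩
        refine ⟨mem_CZ_sup_span.mpr ⟨h6, ?_⟩, h7⟩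
        simp only [hf, h8]
        ring
    rw [← h5]
    apply finite_of_compact _ W rfl Ω (ball 0 r2) hΩ isOpen_ball _ (diff_sup_span hF hfd)
    rw [h5]
    have h6 := hcompfib {t} isClosed_singleton (singleton_subset_iff.mpr ht)
    convert h6 using 1
    ext z
    simp only [mem_sep_iff, mem_singleton_iff]
    constructor
    · rintro ⟨h7, h8⟩
      exact ⟨h7, by rw [h8]; ring⟩
    · rintro ⟨h7, h8⟩
      exact ⟨h7, by rw [← h8]; ring⟩
  -- the image set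
  set T : Set ℂ := {t | ∃ z ∈ CZ F Ω ∩ ball 0 r2, c0 + ℓ z = t} with hT
  have hall : ball (0 : ℂ) R ⊆ T := by
    have hc0R : c0 ∈ ball (0 : ℂ) R := by rw [mem_ball_zero_iff]; exact hR
    apply eq_of_acc_interior (convex_ball (0 : ℂ) R).isPreconnected _ hc0R
    · -- `c0` is an accumulation point
      have hfin0 := hfib c0 hc0R
      have h5 : ∀ᶠ z in 𝓝[≠] (0 : W), z ∈ CZ F Ω → c0 + ℓ z ∈ T ∧ c0 + ℓ z ≠ c0 := by
        have h6 : ({z ∈ CZ F Ω ∩ ball 0 r2 | ℓ z = c0 - c0} \ {0}).Finite :=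
          hfin0.subset sdiff_subset
        have h7 : ∀ᶠ z in 𝓝 (0 : W), z ∉ {z ∈ CZ F Ω ∩ ball 0 r2 | ℓ z = c0 - c0} \ {0} :=
          h6.isClosed.isOpen_compl.mem_nhds (fun h => h.2 rfl)
        filter_upwards [nhdsWithin_le_nhds h7, self_mem_nhdsWithin,
          nhdsWithin_le_nhds (ball_mem_nhds (0 : W) hr20)] with z hz1 hz2 hz3 hz4
        refine ⟨⟨z, ⟨hz4, hz3⟩, rfl⟩, ?_⟩
        intro h8
        apply hz1
        refine ⟨⟨⟨hz4, hz3⟩, ?_⟩, hz2⟩
        linear_combination h8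
      have h6 : Tendsto (fun z => c0 + ℓ z) (𝓝[≠] (0 : W) ⊓ 𝓟 (CZ F Ω)) (𝓝[≠] c0) := by
        apply tendsto_nhdsWithin_of_tendsto_nhds_of_eventually_within
        · have h7 : Continuous fun z : W => c0 + ℓ z := by fun_prop
          have h8 := h7.tendsto 0
          rw [map_zero, add_zero] at h8
          exact h8.mono_left (inf_le_left.trans nhdsWithin_le_nhds)
        · have h9 : ∀ᶠ z in 𝓝[≠] (0 : W) ⊓ 𝓟 (CZ F Ω), z ∈ CZ F Ω :=
            mem_inf_of_right (mem_principal_self _)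
          filter_upwards [mem_inf_of_left h5, h9] with z hz1 hz2
          exact (hz1 hz2).2
      have hneb : (𝓝[≠] (0 : W) ⊓ 𝓟 (CZ F Ω)).NeBot := by
        rw [Filter.inf_principal_neBot_iff]
        intro V hV
        obtain ⟨z, hz1, hz2⟩ := (hfreq.and_eventually hV).exists
        exact ⟨z, hz2, hz1⟩
      apply h6.frequently
      have h10 : ∀ᶠ z in 𝓝[≠] (0 : W) ⊓ 𝓟 (CZ F Ω), c0 + ℓ z ∈ T := by
        have h9 : ∀ᶠ z in 𝓝[≠] (0 : W) ⊓ 𝓟 (CZ F Ω), z ∈ CZ F Ω :=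
          mem_inf_of_right (mem_principal_self _)
        filter_upwards [mem_inf_of_left h5, h9] with z hz1 hz2
        exact (hz1 hz2).1
      exact h10.frequently
    · intro t ht hacc
      obtain ⟨η, hη, hηR⟩ := Metric.nhds_basis_closedBall.mem_iff.mp (isOpen_ball.mem_nhds ht)
      set Yc : Set W := {z ∈ CZ F Ω ∩ ball 0 r2 | c0 + ℓ z ∈ closedBall t η} with hYc
      have hYcc : IsCompact Yc := hcompfib _ isClosed_closedBall hηR
      have h5 : ∃ᶠ s in 𝓝[≠] (t - c0), s ∈ ℓ '' Yc := by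
        have h6 : Tendsto (fun s : ℂ => s - c0) (𝓝[≠] t) (𝓝[≠] (t - c0)) := by
          apply tendsto_nhdsWithin_of_tendsto_nhds_of_eventually_within
          · have : Continuous fun s : ℂ => s - c0 := by fun_prop
            exact (this.tendsto t).mono_left nhdsWithin_le_nhds
          · filter_upwards [self_mem_nhdsWithin] with s hs h
            apply hs
            have h' : s - c0 = t - c0 := h
            have : s = t := by linear_combination h'
            exact this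
        apply h6.frequently
        have h7 : ∀ᶠ s in 𝓝[≠] t, s ∈ closedBall t η :=
          nhdsWithin_le_nhds (closedBall_mem_nhds t hη)
        refine (hacc.and_eventually h7).mono ?_
        rintro s ⟨⟨z, hz, hzs⟩, hs⟩
        refine ⟨z, ⟨hz, by rw [hzs]; exact hs⟩, ?_⟩
        linear_combination hzs
      have h8 := acc_interior hΩ isOpen_ball hF hYcc (sep_subset _ _) h5 (hfib t ht)
      have h9 : Tendsto (fun s : ℂ => s - c0) (𝓝 t) (𝓝 (t - c0)) := by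
        have : Continuous fun s : ℂ => s - c0 := by fun_prop
        exact this.tendsto t
      filter_upwards [h9.eventually h8] with s hs
      obtain ⟨z, hz, hzs⟩ := hs
      exact ⟨z, hz, by rw [hzs]; ring⟩
  have h0R : (0 : ℂ) ∈ ball (0 : ℂ) R := by
    apply mem_ball_self
    exact lt_of_le_of_lt (norm_nonneg _) hR
  obtain ⟨z, hz, hz0⟩ := hall h0R
  refine hne z hz.1 ?_ hz0
  have := hz.2
  rw [mem_ball_zero_iff] at this
  linarith

end Pool.Agent.Lib.MP_3f9d7d_an
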