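import Mathlib
import Pool.Agent.Lib.MP_3f9d7d_an.MinPrin

open Filter MeasureTheory Set Topology Metric

namespace Pool.Agent.Lib.MP_3f9d7d_an

universe u

/-- A family of zeros of a holomorphic function of two variables contains a holomorphic branch. -/
lemma exists_branch {Φ : ℂ × ℂ → ℂ} {D : Set ℂ} (hD : IsOpen D) (hDne : D.Nonempty) {w0 : ℂ}
    {ε ρ : ℝ} (hερ : ε ≤ ρ) (hΦ : DifferentiableOn ℂ Φ (D ×ˢ ball w0 ρ)) {m : ℕ}
    {α : ℂ → Fin m → ℂ} (hmem : ∀ t ∈ D, ∀ j, α t j ∈ ball w0 ε)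
    (hz : ∀ t ∈ D, ∀ w ∈ ball w0 ε, Φ (t, w) = 0 ↔ ∃ j, α t j = w)
    {Z : Set (ℂ × ℂ)} (hZ : ∀ t ∈ D, ∃ w ∈ ball w0 ε, (t, w) ∈ Z)
    (hZΦ : ∀ z ∈ Z, Φ z = 0) :
    ∃ (t1 : ℂ) (r : ℝ) (h : ℂ → ℂ) (t3 : ℂ), 0 < r ∧ ball t1 r ⊆ D ∧
      DifferentiableOn ℂ h (ball t1 r) ∧ (∀ t ∈ ball t1 r, h t ∈ ball w0 ε) ∧ t3 ∈ ball t1 r ∧
      ∃ᶠ t in 𝓝[≠] t3, (t, h t) ∈ Z := by
  classical
  have hΩo : IsOpen (D ×ˢ ball w0 ρ) := hD.prod isOpen_ball
  -- maximal number of distinct zeros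
  set Nn : ℂ → ℕ := fun t => (Finset.univ.image (α t)).card with hNn
  have hNm : ∀ t, Nn t ≤ m := fun t => by
    calc Nn t ≤ (Finset.univ : Finset (Fin m)).card := Finset.card_image_le
      _ = m := by simp
  obtain ⟨t2, ht2, hmax⟩ : ∃ t2 ∈ D, ∀ t ∈ D, Nn t ≤ Nn t2 := by
    have hne : (Nn '' D).Nonempty := hDne.image Nn
    have hbdd : BddAbove (Nn '' D) := ⟨m, by rintro _ ⟨t, _, rfl⟩; exact hNm t⟩
    obtain ⟨t2, ht2, heq⟩ := Nat.sSup_mem hne hbdd
    refine ⟨t2, ht2, fun t ht => ?_⟩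
    rw [heq]
    exact le_csSup hbdd ⟨t, ht, rfl⟩
  set A : Finset ℂ := Finset.univ.image (α t2) with hA
  have hAball : ∀ β ∈ A, β ∈ ball w0 ε := by
    intro β hβ
    obtain ⟨j, -, rfl⟩ := Finset.mem_image.mp hβ
    exact hmem t2 ht2 j
  have hAzero : ∀ w ∈ ball w0 ε, Φ (t2, w) = 0 ↔ w ∈ A := by
    intro w hw
    rw [hz t2 ht2 w hw, hA, Finset.mem_image]
    simp
  -- separating radius
  obtain ⟨η, hη, hηball, hηdisj⟩ : ∃ η > 0, (∀ β ∈ A, ball β η ⊆ ball w0 ε) ∧
      ∀ β ∈ A, ∀ β' ∈ A, β ≠ β' → Disjoint (ball β η) (ball β' η) := by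
    have h1 : ∀ β ∈ A, ∀ᶠ η in 𝓝[>] (0 : ℝ), ball β η ⊆ ball w0 ε := by
      intro β hβ
      obtain ⟨η0, hη0, hsub⟩ := Metric.mem_nhds_iff.mp (isOpen_ball.mem_nhds (hAball β hβ))
      filter_upwards [Ioo_mem_nhdsGT hη0] with η hη
      exact (ball_subset_ball hη.2.le).trans hsub
    have h2 : ∀ β ∈ A, ∀ β' ∈ A, ∀ᶠ η in 𝓝[>] (0 : ℝ), β ≠ β' →
        Disjoint (ball β η) (ball β' η) := by
      intro β _ β' _
      by_cases hne : β = β'
      · exact Eventually.of_forall fun η h => absurd hne h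
      · have hd : 0 < dist β β' := dist_pos.mpr hne
        filter_upwards [Ioo_mem_nhdsGT (half_pos hd)] with η hη _
        apply ball_disjoint_ball
        linarith [hη.2]
    have h3 : ∀ᶠ η in 𝓝[>] (0 : ℝ), (∀ β ∈ A, ball β η ⊆ ball w0 ε) ∧
        ∀ β ∈ A, ∀ β' ∈ A, β ≠ β' → Disjoint (ball β η) (ball β' η) := by
      apply Eventually.and
      · rw [Filter.eventually_all_finset]
        exact h1
      · rw [Filter.eventually_all_finset]
        intro β hβ
        rw [Filter.eventually_all_finset]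
        exact h2 β hβ
    obtain ⟨η, h4, h5⟩ := (h3.and self_mem_nhdsWithin).exists
    exact ⟨η, h5, h4.1, h4.2⟩
  -- root systems around each zero
  have hroot : ∀ β : A, ∃ (P : Set ℂ) (ε' ρ' : ℝ) (m' : ℕ) (α' : ℂ → Fin m' → ℂ),
      RootSys Φ P (β : ℂ) ε' ρ' m' α' ∧ t2 ∈ P ∧ P ×ˢ ball (β : ℂ) ρ' ⊆
        (D ×ˢ ball w0 ρ) ∩ (D ×ˢ ball (β : ℂ) η) := by
    rintro ⟨β, hβ⟩
    apply exists_rootSys hΩo hΦ (x0 := t2) (w0 := β)
      ⟨ht2, ball_subset_ball hερ (hAball β hβ)⟩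
    · have h1 : ∀ᶠ w in 𝓝[≠] β, w ∈ ball w0 ε ∧ w ∉ ((A : Set ℂ) \ {β}) ∧ w ≠ β := by
        have h2 : IsClosed ((A : Set ℂ) \ {β}) := (A.finite_toSet.subset sdiff_subset).isClosed
        filter_upwards [nhdsWithin_le_nhds (isOpen_ball.mem_nhds (hAball β hβ)),
          nhdsWithin_le_nhds (h2.isOpen_compl.mem_nhds (fun h => h.2 rfl)), self_mem_nhdsWithin]
          with w h3 h4 h5
        exact ⟨h3, h4, h5⟩
      filter_upwards [h1] with w ⟨h3, h4, h5⟩ h6
      exact h4 ⟨(hAzero w h3).mp h6, h5⟩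
    · exact (hD.prod isOpen_ball).mem_nhds ⟨ht2, mem_ball_self hη⟩
  choose P ε' ρ' m' α' hR ht2P hsubP using hroot
  have hm' : ∀ β : A, 0 < m' β := by
    intro β
    have h1 : Φ (t2, (β : ℂ)) = 0 := (hAzero β (hAball β β.2)).mpr β.2
    obtain ⟨j, -⟩ := ((hR β).zero_iff t2 (ht2P β) β (mem_ball_self (hR β).eps_pos)).mp h1
    exact lt_of_le_of_lt (Nat.zero_le _) j.2
  -- common domain
  set P0 : Set ℂ := D ∩ ⋂ β : A, P β with hP0
  have hP0o : IsOpen P0 := hD.inter (isOpen_iInter_of_finite fun β => (hR β).isOpen)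
  have ht2P0 : t2 ∈ P0 := ⟨ht2, mem_iInter.mpr ht2P⟩
  obtain ⟨δ, hδ, hδP0⟩ := Metric.mem_nhds_iff.mp (hP0o.mem_nhds ht2P0)
  set h : A → ℂ → ℂ := fun β t => α' β t ⟨0, hm' β⟩ with hh
  have hball' : ∀ (β : A), ∀ t ∈ P0, ∀ j, α' β t j ∈ ball (β : ℂ) η ∧ Φ (t, α' β t j) = 0 := by
    intro β t ht j
    have htP : t ∈ P β := mem_iInter.mp ht.2 β
    have h1 := (hR β).mem t htP j
    have h2 : α' β t j ∈ ball (β : ℂ) (ρ' β) := ball_subset_ball (hR β).eps_lt.le h1
    have h3 : (t, α' β t j) ∈ P β ×ˢ ball (β : ℂ) (ρ' β) := ⟨htP, h2⟩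
    refine ⟨(hsubP β h3).2.2, ?_⟩
    exact ((hR β).zero_iff t htP _ h1).mpr ⟨j, rfl⟩
  -- all zeros are of this form
  have hall : ∀ t ∈ P0, ∀ w ∈ ball w0 ε, Φ (t, w) = 0 → ∃ β : A, w = h β t := by
    intro t ht w hw hw0
    have hinj : Function.Injective fun β : A => h β t := by
      intro β β' hββ'
      by_contra hne
      have hne' : (β : ℂ) ≠ β' := fun h => hne (Subtype.ext h)
      have h1 := (hball' β t ht ⟨0, hm' β⟩).1
      have h2 := (hball' β' t ht ⟨0, hm' β'⟩).1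
      have h3 : h β t = h β' t := hββ'
      simp only [hh] at h3
      rw [← h3] at h2
      exact (hηdisj β β.2 β' β'.2 hne').le_bot ⟨h1, h2⟩
    have himg : Finset.univ.image (fun β : A => h β t) ⊆ Finset.univ.image (α t) := by
      intro w hw
      obtain ⟨β, -, rfl⟩ := Finset.mem_image.mp hw
      have h1 := hball' β t ht ⟨0, hm' β⟩
      obtain ⟨j, hj⟩ := (hz t ht.1 _ (hηball β β.2 h1.1)).mp h1.2
      exact Finset.mem_image.mpr ⟨j, Finset.mem_univ j, hj⟩
    have hcard : (Finset.univ.image (α t)).card ≤ (Finset.univ.image fun β : A => h β t).card := by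
      rw [Finset.card_image_of_injective _ hinj]
      calc (Finset.univ.image (α t)).card ≤ A.card := hmax t ht.1
        _ = (Finset.univ : Finset A).card := by simp
    have heq := Finset.eq_of_subset_of_card_le himg hcard
    obtain ⟨j, hj⟩ := (hz t ht.1 w hw).mp hw0
    have hw' : w ∈ Finset.univ.image (α t) := Finset.mem_image.mpr ⟨j, Finset.mem_univ j, hj⟩
    rw [← heq] at hw'
    obtain ⟨β, -, hβ⟩ := Finset.mem_image.mp hw'
    exact ⟨β, hβ.symm⟩
  have hconst : ∀ (β : A), ∀ t ∈ P0, ∀ j, α' β t j = h β t := by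
    intro β t ht j
    have h1 := hball' β t ht j
    obtain ⟨β', hβ'⟩ := hall t ht _ (hηball β β.2 h1.1) h1.2
    by_cases hne : (β : ℂ) = β'
    · have : β = β' := Subtype.ext hne
      rw [hβ', this]
    · exfalso
      have h2 := (hball' β' t ht ⟨0, hm' β'⟩).1
      have h3 : α' β t j = α' β' t ⟨0, hm' β'⟩ := hβ'
      rw [← h3] at h2
      exact (hηdisj β β.2 β' β'.2 hne).le_bot ⟨h1.1, h2⟩
  have hdiff : ∀ β : A, DifferentiableOn ℂ (h β) P0 := by
    intro β
    have h1 : DifferentiableOn ℂ (fun t => ∑ j, α' β t j) (P β) :=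
      powsum_diff hΩo hΦ (hR β) (fun z hz => (hsubP β hz).1) (φ := fun z => z.2)
        differentiable_snd.differentiableOn
    have h2 : ∀ t ∈ P0, h β t = (m' β : ℂ)⁻¹ * ∑ j, α' β t j := by
      intro t ht
      have h3 : ∑ j, α' β t j = ∑ _j : Fin (m' β), h β t :=
        Finset.sum_congr rfl fun j _ => hconst β t ht j
      rw [h3]
      have h4 : (m' β : ℂ) ≠ 0 := by exact_mod_cast (hm' β).ne'
      simp only [Finset.sum_const, Finset.card_univ, Fintype.card_fin, nsmul_eq_mul]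
      field_simp
    have h5 : P0 ⊆ P β := fun t ht => mem_iInter.mp ht.2 β
    exact ((h1.mono h5).const_mul _).congr h2
  -- pigeonhole
  have hinf : (closedBall t2 (δ / 2)).Infinite := by
    have : (closedBall t2 (δ / 2)) ∈ 𝓝 t2 := closedBall_mem_nhds t2 (by positivity)
    exact infinite_of_mem_nhds t2 this
  have hcover : closedBall t2 (δ / 2) ⊆ ⋃ β : A, {t ∈ closedBall t2 (δ / 2) | (t, h β t) ∈ Z} := by
    intro t ht
    have htP0 : t ∈ P0 := hδP0 (closedBall_subset_ball (by linarith) ht)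
    obtain ⟨w, hw, hwZ⟩ := hZ t htP0.1
    obtain ⟨β, hβ⟩ := hall t htP0 w hw (hZΦ _ hwZ)
    rw [mem_iUnion]
    refine ⟨β, ht, ?_⟩
    rw [← hβ]
    exact hwZ
  obtain ⟨β, hβ⟩ : ∃ β : A, {t ∈ closedBall t2 (δ / 2) | (t, h β t) ∈ Z}.Infinite := by
    by_contra hcon
    push Not at hcon
    have h1 : (⋃ β : A, {t ∈ closedBall t2 (δ / 2) | (t, h β t) ∈ Z}).Finite :=
      Set.finite_iUnion hcon
    exact hinf (h1.subset hcover)
  obtain ⟨t3, ht3, hacc⟩ := hβ.exists_accPt_of_subset_isCompact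
    (isCompact_closedBall t2 (δ / 2)) (sep_subset _ _)
  rw [accPt_iff_frequently_nhdsNE] at hacc
  refine ⟨t2, δ, h β, t3, hδ, fun t ht => (hδP0 ht).1, (hdiff β).mono hδP0, ?_,
    closedBall_subset_ball (by linarith) ht3, hacc.mono fun t ht => ht.2⟩
  intro t ht
  exact hηball β β.2 (hball' β t (hδP0 ht) _).1

/-- A common zero set with a non-isolated point contains a holomorphic disc, parametrised by a
linear coordinate. -/
theorem exists_disc (n : ℕ) : ∀ (W : Type u) [NormedAddCommGroup W] [NormedSpace ℂ W]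
    [FiniteDimensional ℂ W], Module.finrank ℂ W = n → ∀ (Ω : Set W), IsOpen Ω →
    ∀ (F : Submodule ℂ (W → ℂ)), (∀ g ∈ F, DifferentiableOn ℂ g Ω) →
    ∀ z0 ∈ CZ F Ω, (∃ᶠ z in 𝓝[≠] z0, z ∈ CZ F Ω) →
    ∃ (t1 : ℂ) (r : ℝ) (γ : ℂ → W) (lam : W →L[ℂ] ℂ), 0 < r ∧ DifferentiableOn ℂ γ (ball t1 r) ∧
      ∀ t ∈ ball t1 r, γ t ∈ CZ F Ω ∧ lam (γ t) = t := by
  induction n with
  | zero =>
    intro W _ _ _ hfin Ω hΩ F hF z0 hz0 hfreq
    exfalso
    have : Subsingleton W := Module.finrank_zero_iff.mp hfin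
    obtain ⟨z, -, hz⟩ := (hfreq.and_eventually self_mem_nhdsWithin).exists
    exact hz (Subsingleton.elim z z0)
  | succ n ih =>
    intro W _ _ _ hfin Ω hΩ F hF z0 hz0 hfreq
    have : Nontrivial W := Module.nontrivial_of_finrank_pos (R := ℂ) (by omega)
    by_cases hnb : CZ F Ω ∈ 𝓝 z0
    · obtain ⟨v, hv⟩ := exists_ne (0 : W)
      obtain ⟨f, -, hf⟩ := exists_dual_vector ℂ v (norm_ne_zero_iff.mpr hv)
      have hfv : f v ≠ 0 := by rw [hf]; simpa using hv
      set lam : W →L[ℂ] ℂ := (f v)⁻¹ • f with hlam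
      have hlv : lam v = 1 := by
        simp [hlam, hfv]
      obtain ⟨δ, hδ, hsub⟩ : ∃ δ > 0, ∀ s ∈ ball (0 : ℂ) δ, z0 + s • v ∈ CZ F Ω := by
        have h1 : Continuous fun s : ℂ => z0 + s • v := by fun_prop
        have h2 : (fun s : ℂ => z0 + s • v) ⁻¹' (CZ F Ω) ∈ 𝓝 (0 : ℂ) := by
          apply h1.continuousAt.preimage_mem_nhds
          simpa using hnb
        exact Metric.mem_nhds_iff.mp h2
      refine ⟨lam z0, δ, fun t => z0 + (t - lam z0) • v, lam, hδ, ?_, ?_⟩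
      · have : Differentiable ℂ fun t : ℂ => z0 + (t - lam z0) • v := by fun_prop
        exact this.differentiableOn
      · intro t ht
        refine ⟨hsub _ ?_, ?_⟩
        · rw [mem_ball_zero_iff, ← dist_eq_norm]; exact ht
        · rw [map_add, map_smul, hlv, smul_eq_mul, mul_one]; ring
    · -- a nontrivial line
      obtain ⟨δ, hδ, hδΩ⟩ := Metric.mem_nhds_iff.mp (hΩ.mem_nhds hz0.1)
      obtain ⟨z1, hz1δ, hz1⟩ : ∃ z1 ∈ ball z0 δ, z1 ∉ CZ F Ω := by
        by_contra hcon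
        push Not at hcon
        exact hnb (Metric.mem_nhds_iff.mpr ⟨δ, hδ, hcon⟩)
      obtain ⟨g, hgF, hgne⟩ : ∃ g ∈ F, g z1 ≠ 0 := by
        by_contra hcon
        push Not at hcon
        exact hz1 ⟨hδΩ hz1δ, hcon⟩
      set v := z1 - z0 with hv
      have hv0 : v ≠ 0 := by
        intro h
        rw [hv, sub_eq_zero] at h
        rw [h] at hz1
        exact hz1 hz0
      have hvn : 0 < ‖v‖ := norm_pos_iff.mpr hv0
      have hvδ : ‖v‖ < δ := by rw [hv, ← dist_eq_norm]; exact hz1δ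
      have hlineΩ : ∀ s ∈ ball (0 : ℂ) (δ / ‖v‖), z0 + s • v ∈ Ω := by
        intro s hs
        apply hδΩ
        rw [mem_ball, dist_eq_norm, add_sub_cancel_left, norm_smul]
        rw [mem_ball_zero_iff] at hs
        rwa [lt_div_iff₀ hvn] at hs
      have hgana : AnalyticOnNhd ℂ (fun s : ℂ => g (z0 + s • v)) (ball 0 (δ / ‖v‖)) :=
        (line_diff hΩ (hF g hgF) z0 v hlineΩ).analyticOnNhd isOpen_ball
      have h1mem : (1 : ℂ) ∈ ball (0 : ℂ) (δ / ‖v‖) := by
        rw [mem_ball_zero_iff, norm_one, lt_div_iff₀ hvn]; linarith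
      have hgev : ∀ᶠ s in 𝓝[≠] (0 : ℂ), g (z0 + s • v) ≠ 0 := by
        by_contra hcon
        have h1 : ∃ᶠ s in 𝓝[≠] (0 : ℂ), g (z0 + s • v) = 0 := by
          intro h2; exact hcon h2
        have h2 := hgana.eqOn_zero_of_preconnected_of_frequently_eq_zero
          (convex_ball (0 : ℂ) (δ / ‖v‖)).isPreconnected (mem_ball_self (by positivity)) h1
        have h3 := h2 h1mem
        simp only [one_smul, hv, add_sub_cancel, Pi.zero_apply] at h3
        exact hgne h3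
      -- split
      obtain ⟨X, e, heq, hfinX⟩ := exists_split hv0
      set x0 := (e.symm z0).1 with hx0
      set w0 := (e.symm z0).2 with hw0
      have hez0 : e (x0, w0) = z0 := by
        rw [hx0, hw0]; exact e.apply_symm_apply z0
      set F' : Submodule ℂ (X × ℂ → ℂ) := F.map (LinearMap.funLeft ℂ ℂ e) with hF'
      have hF'd : ∀ g ∈ F', DifferentiableOn ℂ g (e ⁻¹' Ω) := by
        rintro _ ⟨g, hg, rfl⟩
        exact (hF g hg).comp e.differentiable.differentiableOn (fun z hz => hz)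
      have hΩ' : IsOpen (e ⁻¹' Ω) := hΩ.preimage e.continuous
      set G : X × ℂ → ℂ := LinearMap.funLeft ℂ ℂ e g with hG
      have hGF : G ∈ F' := Submodule.mem_map_of_mem hgF
      have hne' : ∀ᶠ w in 𝓝[≠] w0, G (x0, w) ≠ 0 := by
        have h1 : Tendsto (fun w : ℂ => w - w0) (𝓝[≠] w0) (𝓝[≠] 0) := by
          apply tendsto_nhdsWithin_of_tendsto_nhds_of_eventually_within
          · have : Continuous fun w : ℂ => w - w0 := by fun_prop
            have := this.tendsto w0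
            rw [sub_self] at this
            exact this.mono_left nhdsWithin_le_nhds
          · filter_upwards [self_mem_nhdsWithin] with w hw
            exact sub_ne_zero.mpr hw
        filter_upwards [h1.eventually hgev] with w hw
        have h2 : e (x0, w) = z0 + (w - w0) • v := by
          rw [← hez0, heq, heq, sub_smul]; abel
        change g (e (x0, w)) ≠ 0
        rw [h2]
        exact hw
      have hmem0 : (x0, w0) ∈ e ⁻¹' Ω := by rw [mem_preimage, hez0]; exact hz0.1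
      obtain ⟨P, ε, ρ, m, α, hR, hx0P, hsub⟩ := exists_rootSys hΩ' (hF'd G hGF) hmem0 hne'
        (N := univ) univ_mem
      have hPΩ : P ×ˢ ball w0 ρ ⊆ e ⁻¹' Ω := fun z hz => (hsub hz).1
      obtain ⟨F1, hF1, hiff⟩ := elimination_rootSys hΩ' hF'd hGF hR hPΩ
      have hCZ' : ∀ x s, (∀ g ∈ F', g (x, s) = 0) ↔ ∀ g ∈ F, g (e (x, s)) = 0 := by
        intro x s
        constructor
        · intro h g hg
          exact h _ ⟨g, hg, rfl⟩
        · rintro h _ ⟨g, hg, rfl⟩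
          exact h g hg
      have hPε : ∀ x ∈ P, ∀ w ∈ ball w0 ε, e (x, w) ∈ Ω := fun x hx w hw =>
        hPΩ (show (x, w) ∈ P ×ˢ ball w0 ρ from ⟨hx, ball_subset_ball hR.eps_lt.le hw⟩)
      have hx0CZ : x0 ∈ CZ F1 P := by
        refine ⟨hx0P, (hiff x0 hx0P).mpr ⟨w0, mem_ball_self hR.eps_pos, ?_⟩⟩
        rw [hCZ', hez0]
        exact hz0.2
      have hfreq1 : ∃ᶠ x in 𝓝[≠] x0, x ∈ CZ F1 P := by
        have hneb : (𝓝[≠] z0 ⊓ 𝓟 (CZ F Ω)).NeBot := by
          rw [Filter.inf_principal_neBot_iff]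
          intro V hV
          obtain ⟨z, hz1, hz2⟩ := (hfreq.and_eventually hV).exists
          exact ⟨z, hz2, hz1⟩
        have hc1 : Continuous fun z => (e.symm z).1 := by fun_prop
        have hc2 : Continuous fun z => (e.symm z).2 := by fun_prop
        have h7 : ∀ᶠ z in 𝓝[≠] z0 ⊓ 𝓟 (CZ F Ω), z ∈ CZ F Ω :=
          mem_inf_of_right (mem_principal_self _)
        have h3 : ∀ᶠ z in 𝓝[≠] z0 ⊓ 𝓟 (CZ F Ω), z ≠ z0 :=
          mem_inf_of_left self_mem_nhdsWithin
        have h1 : Tendsto (fun z => (e.symm z).1) (𝓝[≠] z0 ⊓ 𝓟 (CZ F Ω)) (𝓝[≠] x0) := by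
          apply tendsto_nhdsWithin_of_tendsto_nhds_of_eventually_within
          · exact (hc1.tendsto z0).mono_left (inf_le_left.trans nhdsWithin_le_nhds)
          · rw [eventually_nhdsWithin_iff] at hne'
            have h4 : ∀ᶠ z in 𝓝[≠] z0 ⊓ 𝓟 (CZ F Ω),
                (e.symm z).2 ∈ ({w0} : Set ℂ)ᶜ → G (x0, (e.symm z).2) ≠ 0 :=
              mem_inf_of_left (nhdsWithin_le_nhds ((hc2.tendsto z0).eventually hne'))
            filter_upwards [h7, h3, h4] with z hz7 hz3 hz4 hcon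
            have h6 : (e.symm z).1 = x0 := hcon
            have h5 : e (x0, (e.symm z).2) = z := by
              rw [← h6]; exact e.apply_symm_apply z
            have h8 : (e.symm z).2 ≠ w0 := by
              intro h9
              apply hz3
              rw [← h5, h9, hez0]
            apply hz4 h8
            change g (e (x0, (e.symm z).2)) = 0
            rw [h5]
            exact hz7.2 g hgF
        apply h1.frequently
        have h2 : ∀ᶠ z in 𝓝[≠] z0 ⊓ 𝓟 (CZ F Ω), (e.symm z).1 ∈ CZ F1 P := by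
          have h4 : ∀ᶠ z in 𝓝 z0, (e.symm z).1 ∈ P ∧ (e.symm z).2 ∈ ball w0 ε :=
            (hc1.continuousAt.eventually_mem (hR.isOpen.mem_nhds hx0P)).and
              (hc2.continuousAt.eventually_mem (isOpen_ball.mem_nhds (mem_ball_self hR.eps_pos)))
          filter_upwards [mem_inf_of_left (nhdsWithin_le_nhds h4), h7] with z hz1 hz2
          refine ⟨hz1.1, (hiff _ hz1.1).mpr ⟨(e.symm z).2, hz1.2, ?_⟩⟩
          rw [hCZ']
          have h8 : e ((e.symm z).1, (e.symm z).2) = z := e.apply_symm_apply z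
          rw [h8]
          exact hz2.2
        exact h2.frequently
      obtain ⟨t1, r, γ', lam', hr, hγ'd, hγ'⟩ := ih X (by omega) P hR.isOpen F1 hF1 x0 hx0CZ hfreq1
      -- lift the disc
      set Φ : ℂ × ℂ → ℂ := fun z => G (γ' z.1, z.2) with hΦ
      have hΦd : DifferentiableOn ℂ Φ (ball t1 r ×ˢ ball w0 ρ) := by
        have h1 : DifferentiableOn ℂ (fun z : ℂ × ℂ => (γ' z.1, z.2)) (ball t1 r ×ˢ ball w0 ρ) := by
          apply DifferentiableOn.prodMk
          · exact hγ'd.comp differentiable_fst.differentiableOn (fun z hz => hz.1)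
          · exact differentiable_snd.differentiableOn
        exact (hF'd G hGF).comp h1 (fun z hz => hPΩ ⟨(hγ' z.1 hz.1).1.1, hz.2⟩)
      obtain ⟨t2, r2, h, t3, hr2, hsub2, hhd, hhball, ht3, hfr⟩ := exists_branch
        (Φ := Φ) (D := ball t1 r) isOpen_ball ⟨t1, mem_ball_self hr⟩ (w0 := w0) (ε := ε) (ρ := ρ)
        hR.eps_lt.le hΦd (α := fun t => α (γ' t))
        (fun t ht j => hR.mem _ (hγ' t ht).1.1 j)
        (fun t ht w hw => hR.zero_iff _ (hγ' t ht).1.1 w hw)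
        (Z := {z | ∀ g ∈ F', g (γ' z.1, z.2) = 0})
        (by
          intro t ht
          obtain ⟨w, hw, hwF⟩ := (hiff _ (hγ' t ht).1.1).mp (hγ' t ht).1.2
          exact ⟨w, hw, hwF⟩)
        (fun z hz => hz G hGF)
      have hγd : DifferentiableOn ℂ (fun t => (γ' t, h t)) (ball t2 r2) :=
        (hγ'd.mono hsub2).prodMk hhd
      refine ⟨t2, r2, fun t => e (γ' t, h t),
        (lam'.comp (ContinuousLinearMap.fst ℂ X ℂ)).comp (e.symm : W →L[ℂ] X × ℂ), hr2, ?_, ?_⟩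
      · exact e.differentiable.comp_differentiableOn hγd
      · have hmaps : ∀ t ∈ ball t2 r2, e (γ' t, h t) ∈ Ω := fun t ht =>
          hPε _ (hγ' t (hsub2 ht)).1.1 _ (hhball t ht)
        intro t ht
        refine ⟨⟨hmaps t ht, ?_⟩, ?_⟩
        · have h1 : ∀ g ∈ F', g (γ' t, h t) = 0 := by
            intro g1 hg1
            have h2 : AnalyticOnNhd ℂ (fun t => g1 (γ' t, h t)) (ball t2 r2) := by
              apply DifferentiableOn.analyticOnNhd _ isOpen_ball
              exact (hF'd g1 hg1).comp hγd (fun t ht => hmaps t ht)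
            exact h2.eqOn_zero_of_preconnected_of_frequently_eq_zero
              (convex_ball t2 r2).isPreconnected ht3 (hfr.mono fun s hs => hs g1 hg1) ht
          exact (hCZ' _ _).mp h1
        · simp only [ContinuousLinearMap.comp_apply, ContinuousLinearEquiv.coe_coe,
            ContinuousLinearEquiv.symm_apply_apply, ContinuousLinearMap.coe_fst']
          exact (hγ' t (hsub2 ht)).2

end Pool.Agent.Lib.MP_3f9d7d_an
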