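import Mathlib

open Filter MeasureTheory Set Topology Metric
open scoped InnerProductSpace ENNReal

namespace Pool.Agent.Lib.MP_3f9d7d_an

section feat

variable {W : Type*} [NormedAddCommGroup W] [InnerProductSpace ℂ W] [FiniteDimensional ℂ W]

/-- The `k`-th tensor power of a vector, in coordinates. -/
noncomputable def tens (k : ℕ) (z : W) : EuclideanSpace ℂ (Fin k → Fin (Module.finrank ℂ W)) :=
  WithLp.toLp 2 fun ω => ∏ j, ⟪stdOrthonormalBasis ℂ W (ω j), z⟫_ℂ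

lemma tens_apply (k : ℕ) (z : W) (ω : Fin k → Fin (Module.finrank ℂ W)) :
    tens k z ω = ∏ j, ⟪stdOrthonormalBasis ℂ W (ω j), z⟫_ℂ := rfl

lemma inner_tens (k : ℕ) (z z' : W) : ⟪tens k z, tens k z'⟫_ℂ = ⟪z, z'⟫_ℂ ^ k := by
  rw [PiLp.inner_apply]
  have h1 : ∀ ω : Fin k → Fin (Module.finrank ℂ W), ⟪tens k z ω, tens k z' ω⟫_ℂ =
      ∏ j, (⟪z, stdOrthonormalBasis ℂ W (ω j)⟫_ℂ * ⟪stdOrthonormalBasis ℂ W (ω j), z'⟫_ℂ) := by
    intro ω
    rw [tens_apply, tens_apply, RCLike.inner_apply, map_prod, ← Finset.prod_mul_distrib]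
    apply Finset.prod_congr rfl
    intro j _
    rw [inner_conj_symm, mul_comm]
  simp_rw [h1]
  rw [← Fintype.sum_pow (fun i => ⟪z, stdOrthonormalBasis ℂ W i⟫_ℂ *
    ⟪stdOrthonormalBasis ℂ W i, z'⟫_ℂ) k, OrthonormalBasis.sum_inner_mul_inner]

lemma norm_tens (k : ℕ) (z : W) : ‖tens k z‖ = ‖z‖ ^ k := by
  have h1 : (‖tens k z‖ : ℂ) ^ 2 = ((‖z‖ ^ k : ℝ) : ℂ) ^ 2 := by
    have h2 := inner_self_eq_norm_sq_to_K (𝕜 := ℂ) (tens k z)
    rw [inner_tens, inner_self_eq_norm_sq_to_K] at h2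
    rw [← Complex.coe_algebraMap] at *
    push_cast
    have h3 : ((‖tens k z‖ : ℝ) : ℂ) ^ 2 = (((‖z‖ : ℝ) : ℂ) ^ 2) ^ k := h2.symm
    simp only [Complex.coe_algebraMap]
    rw [h3, ← pow_mul, ← pow_mul, mul_comm]
  have h4 : ‖tens k z‖ ^ 2 = (‖z‖ ^ k) ^ 2 := by exact_mod_cast h1
  exact (pow_left_inj₀ (norm_nonneg _) (by positivity) two_ne_zero).mp h4

lemma tens_diff (k : ℕ) : Differentiable ℂ (fun z : W => tens k z) := by
  rw [differentiable_euclidean]
  intro ω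
  simp only [tens_apply]
  have h : ∀ j, Differentiable ℂ fun z : W => ⟪stdOrthonormalBasis ℂ W (ω j), z⟫_ℂ := fun j =>
    (innerSL ℂ (stdOrthonormalBasis ℂ W (ω j))).differentiable
  fun_prop

/-- Nonnegative weights whose power series converges in the unit disc. -/
structure Wt (a : ℕ → ℝ) : Prop where
  nonneg : ∀ k, 0 ≤ a k
  summ : ∀ ρ : ℝ, 0 ≤ ρ → ρ < 1 → Summable fun k => a k * ρ ^ k

variable (W) in
/-- The Hilbert space of the features. -/
abbrev FS : Type := lp (fun k : ℕ => EuclideanSpace ℂ (Fin k → Fin (Module.finrank ℂ W))) 2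

lemma memℓp_feat {a : ℕ → ℝ} (ha : Wt a) {z : W} (hz : ‖z‖ < 1) :
    Memℓp (fun k => ((Real.sqrt (a k) : ℝ) : ℂ) • tens k z) 2 := by
  apply memℓp_gen
  have h1 : Summable fun k => a k * (‖z‖ ^ 2) ^ k :=
    ha.summ _ (by positivity) (by nlinarith [norm_nonneg z])
  convert h1 using 2 with k
  rw [norm_smul, norm_tens]
  simp only [Complex.norm_real, Real.norm_eq_abs, ENNReal.toReal_ofNat, Real.rpow_ofNat]
  rw [mul_pow, sq_abs, Real.sq_sqrt (ha.nonneg k), ← pow_mul, ← pow_mul, mul_comm k 2]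

open Classical in
/-- The feature vector of `z`. -/
noncomputable def feat (a : ℕ → ℝ) (z : W) : FS W :=
  if h : Memℓp (fun k => ((Real.sqrt (a k) : ℝ) : ℂ) • tens k z) 2 then ⟨_, h⟩ else 0

lemma feat_apply {a : ℕ → ℝ} (ha : Wt a) {z : W} (hz : ‖z‖ < 1) (k : ℕ) :
    feat a z k = ((Real.sqrt (a k) : ℝ) : ℂ) • tens k z := by
  rw [feat, dif_pos (memℓp_feat ha hz)]

lemma hasSum_inner_feat {a : ℕ → ℝ} (ha : Wt a) {z z' : W} (hz : ‖z‖ < 1) (hz' : ‖z'‖ < 1) :
    HasSum (fun k => (a k : ℂ) * ⟪z, z'⟫_ℂ ^ k) ⟪feat a z, feat a z'⟫_ℂ := by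
  have h1 := lp.hasSum_inner (𝕜 := ℂ) (feat a z) (feat a z')
  have h2 : (fun k => (a k : ℂ) * ⟪z, z'⟫_ℂ ^ k) = fun k => ⟪feat a z k, feat a z' k⟫_ℂ := by
    funext k
    rw [feat_apply ha hz, feat_apply ha hz', inner_smul_left, inner_smul_right, inner_tens,
      Complex.conj_ofReal, ← mul_assoc, ← Complex.ofReal_mul, Real.mul_self_sqrt (ha.nonneg k)]
  rw [h2]
  exact h1

theorem differentiableOn_inner_feat {a : ℕ → ℝ} (ha : Wt a) (g : FS W) :
    DifferentiableOn ℂ (fun z : W => ⟪g, feat a z⟫_ℂ) (ball 0 1) := by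
  intro z0 hz0
  apply DifferentiableAt.differentiableWithinAt
  rw [mem_ball_zero_iff] at hz0
  obtain ⟨ρ', hρ'1, hρ'2⟩ := exists_between hz0
  obtain ⟨ρ, hρ1, hρ2⟩ := exists_between hρ'2
  have hρ'0 : 0 < ρ' := lt_of_le_of_lt (norm_nonneg _) hρ'1
  have hρ0 : 0 < ρ := hρ'0.trans hρ1
  set f : ℕ → W → ℂ := fun k z => ⟪g k, ((Real.sqrt (a k) : ℝ) : ℂ) • tens k z⟫_ℂ with hf
  have hfd : ∀ k, Differentiable ℂ (f k) := by
    intro k
    have h1 : Differentiable ℂ fun z : W => ((Real.sqrt (a k) : ℝ) : ℂ) • tens k z :=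
      (tens_diff k).fun_const_smul _
    exact (innerSL ℂ (g k)).differentiable.comp h1
  set M : ℕ → ℝ := fun k => ‖g k‖ * (Real.sqrt (a k) * ρ ^ k) with hM
  have hM0 : ∀ k, 0 ≤ M k := fun k => by positivity
  have hfM : ∀ k, ∀ z ∈ ball (0 : W) ρ, ‖f k z‖ ≤ M k := by
    intro k z hz
    rw [mem_ball_zero_iff] at hz
    calc ‖f k z‖ ≤ ‖g k‖ * ‖((Real.sqrt (a k) : ℝ) : ℂ) • tens k z‖ := norm_inner_le_norm _ _
      _ = ‖g k‖ * (Real.sqrt (a k) * ‖z‖ ^ k) := by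
        rw [norm_smul, norm_tens, Complex.norm_real, Real.norm_of_nonneg (Real.sqrt_nonneg _)]
      _ ≤ M k := by
        simp only [hM]
        gcongr
  have hsumM : Summable M := by
    have h1 : Summable fun k => ‖g k‖ ^ 2 := by
      have := (lp.memℓp g).summable (by norm_num)
      simpa using this
    have h2 : Summable fun k => a k * (ρ ^ 2) ^ k :=
      ha.summ _ (by positivity) (by nlinarith)
    apply Summable.of_nonneg_of_le hM0 _ ((h1.add h2).mul_left (1 / 2))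
    intro k
    simp only [hM]
    have h3 : (Real.sqrt (a k) * ρ ^ k) ^ 2 = a k * (ρ ^ 2) ^ k := by
      rw [mul_pow, Real.sq_sqrt (ha.nonneg k), ← pow_mul, ← pow_mul, mul_comm 2 k]
    rw [← h3]
    nlinarith [sq_nonneg (‖g k‖ - Real.sqrt (a k) * ρ ^ k)]
  have hderiv : ∀ k, ∀ x ∈ ball (0 : W) ρ', ‖fderiv ℂ (f k) x‖ ≤ 2 * M k / (ρ - ρ') := by
    intro k x hx
    have hsub : ball x (ρ - ρ') ⊆ ball (0 : W) ρ := by
      apply ball_subset_ball'
      rw [dist_zero_right]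
      rw [mem_ball_zero_iff] at hx
      linarith
    have hpos : 0 < ρ - ρ' := by linarith
    apply Complex.norm_fderiv_le_div_of_mapsTo_ball (hfd k).differentiableOn _ hpos
    intro y hy
    rw [mem_closedBall, dist_eq_norm]
    calc ‖f k y - f k x‖ ≤ ‖f k y‖ + ‖f k x‖ := norm_sub_le _ _
      _ ≤ M k + M k := add_le_add (hfM k y (hsub hy)) (hfM k x (hsub (mem_ball_self hpos)))
      _ = 2 * M k := by ring
  have hsumu : Summable fun k => 2 * M k / (ρ - ρ') := (hsumM.mul_left 2).div_const _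
  have hx0 : z0 ∈ ball (0 : W) ρ' := by rw [mem_ball_zero_iff]; exact hρ'1
  have key := hasFDerivAt_tsum_of_isPreconnected (𝕜 := ℂ) (f := f)
    (f' := fun k x => fderiv ℂ (f k) x) hsumu isOpen_ball (convex_ball (0 : W) ρ').isPreconnected
    (fun k x _ => (hfd k x).hasFDerivAt) hderiv hx0
    (Summable.of_norm_bounded hsumM fun k => hfM k z0 (ball_subset_ball hρ1.le hx0)) hx0
  apply key.differentiableAt.congr_of_eventuallyEq
  filter_upwards [isOpen_ball.mem_nhds hx0] with z hz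
  rw [mem_ball_zero_iff] at hz
  have hz1 : ‖z‖ < 1 := hz.trans hρ'2
  rw [lp.inner_eq_tsum]
  apply tsum_congr
  intro k
  rw [feat_apply ha hz1]

end feat

/-- A family of vectors dominated by another one is its image under a bounded operator. -/
theorem exists_operator {ι 𝓗 H : Type*} [NormedAddCommGroup 𝓗] [InnerProductSpace ℂ 𝓗]
    [CompleteSpace 𝓗] [NormedAddCommGroup H] [InnerProductSpace ℂ H] [CompleteSpace H]
    (A : ι → 𝓗) (B : ι → H)
    (hAB : ∀ c : ι →₀ ℂ, ‖Finsupp.linearCombination ℂ B c‖ ≤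
      ‖Finsupp.linearCombination ℂ A c‖) : ∃ R : 𝓗 →L[ℂ] H, ∀ i, R (A i) = B i := by
  set LA := Finsupp.linearCombination ℂ A with hLA
  set LB := Finsupp.linearCombination ℂ B with hLB
  set M : Submodule ℂ 𝓗 := (LinearMap.range LA).topologicalClosure with hM
  have hmem : ∀ c, LA c ∈ M := fun c => Submodule.le_topologicalClosure _ ⟨c, rfl⟩
  set LA' : (ι →₀ ℂ) →ₗ[ℂ] M := LA.codRestrict M hmem with hLA'
  have hdense : DenseRange LA' := by
    rw [DenseRange, dense_iff_closure_eq, Set.eq_univ_iff_forall]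
    rintro ⟨x, hx⟩
    rw [closure_subtype]
    have h1 : (Subtype.val '' range LA' : Set 𝓗) = (LinearMap.range LA : Set 𝓗) := by
      ext y
      constructor
      · rintro ⟨_, ⟨c, rfl⟩, rfl⟩
        exact ⟨c, rfl⟩
      · rintro ⟨c, rfl⟩
        exact ⟨LA' c, ⟨c, rfl⟩, rfl⟩
    rw [h1]
    exact hx
  have hnorm : ∃ C, ∀ x, ‖LB x‖ ≤ C * ‖LA' x‖ := ⟨1, fun c => by
    rw [one_mul]
    exact hAB c⟩
  have hcl : IsClosed (M : Set 𝓗) := Submodule.isClosed_topologicalClosure _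
  have : CompleteSpace M := hcl.completeSpace_coe
  set R0 : M →L[ℂ] H := LB.extendOfNorm LA' with hR0
  refine ⟨R0.comp M.orthogonalProjectionOnto, fun i => ?_⟩
  have h1 : LA' (Finsupp.single i 1) = ⟨A i, by
      have := hmem (Finsupp.single i 1)
      simpa [hLA] using this⟩ := by
    apply Subtype.ext
    simp [hLA', hLA]
  have h2 : M.orthogonalProjectionOnto (A i) = LA' (Finsupp.single i 1) := by
    rw [h1]
    exact Submodule.orthogonalProjectionOnto_mem_subspace_eq_self (K := M) ⟨A i, _⟩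
  rw [ContinuousLinearMap.comp_apply, h2, hR0, LinearMap.extendOfNorm_eq hdense hnorm]
  simp [hLB]

end Pool.Agent.Lib.MP_3f9d7d_an
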