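import Mathlib
import Pool.Agent.Lib.MP_3f9d7d_an.Disc
import Pool.Agent.Lib.MP_3f9d7d_an.Feature

open Filter MeasureTheory Set Topology Metric
open scoped InnerProductSpace ENNReal ComplexConjugate

namespace Pool.Agent.Lib.MP_3f9d7d_an

universe u

lemma binom_hasSum (p : ℝ) {x : ℂ} (hx : ‖x‖ < 1) :
    HasSum (fun k => ((Ring.choose p k : ℝ) : ℂ) * x ^ k) ((1 + x) ^ (p : ℂ)) := by
  have h0 : ‖x‖ₑ < 1 := by rw [← ofReal_norm]; exact ENNReal.ofReal_lt_one.mpr hx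
  have h1 := (Complex.one_add_cpow_hasFPowerSeriesOnBall_zero (a := (p : ℂ))).hasSum (y := x)
    (by simpa using h0)
  rw [zero_add] at h1
  have h2 : (fun k => ((Ring.choose p k : ℝ) : ℂ) * x ^ k) =
      fun n => (binomialSeries ℂ (p : ℂ) n) fun _ => x := by
    funext k
    rw [binomialSeries_apply]
    simp [Complex.ofReal_choose]
  rw [h2]
  exact h1

/-- Positive and negative parts of the binomial coefficients. -/
noncomputable def cpos (p : ℝ) (k : ℕ) : ℝ := max (Ring.choose p k) 0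

/-- Positive and negative parts of the binomial coefficients. -/
noncomputable def cneg (p : ℝ) (k : ℕ) : ℝ := max (-Ring.choose p k) 0

lemma cpos_sub_cneg (p : ℝ) (k : ℕ) : cpos p k - cneg p k = Ring.choose p k := by
  unfold cpos cneg
  rcases le_total 0 (Ring.choose p k) with h | h
  · rw [max_eq_left h, max_eq_right (by linarith)]; ring
  · rw [max_eq_right h, max_eq_left (by linarith)]; ring

lemma binom_summable (p : ℝ) {ρ : ℝ} (h0 : 0 ≤ ρ) (h1 : ρ < 1) :
    Summable fun k => |Ring.choose p k| * ρ ^ k := by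
  have h2 := (binom_hasSum p (x := (ρ : ℂ)) (by
    rw [Complex.norm_real, Real.norm_of_nonneg h0]; exact h1)).summable.norm
  convert h2 using 2 with k
  rw [norm_mul, norm_pow, Complex.norm_real, Complex.norm_real, Real.norm_eq_abs,
    Real.norm_of_nonneg h0]

lemma wt_cpos (p : ℝ) : Wt (cpos p) := by
  refine ⟨fun k => le_max_right _ _, fun ρ h0 h1 => ?_⟩
  apply Summable.of_nonneg_of_le (fun k => by
    have : 0 ≤ cpos p k := le_max_right _ _
    positivity) _ (binom_summable p h0 h1)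
  intro k
  have : cpos p k ≤ |Ring.choose p k| := max_le (le_abs_self _) (abs_nonneg _)
  gcongr

lemma wt_cneg (p : ℝ) : Wt (cneg p) := by
  refine ⟨fun k => le_max_right _ _, fun ρ h0 h1 => ?_⟩
  apply Summable.of_nonneg_of_le (fun k => by
    have : 0 ≤ cneg p k := le_max_right _ _
    positivity) _ (binom_summable p h0 h1)
  intro k
  have : cneg p k ≤ |Ring.choose p k| := max_le (neg_le_abs _) (abs_nonneg _)
  gcongr

section

set_option linter.unusedSectionVars false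

variable {W : Type u} [NormedAddCommGroup W] [InnerProductSpace ℂ W] [FiniteDimensional ℂ W]

lemma norm_inner_lt_one {z z' : W} (hz : ‖z‖ < 1) (hz' : ‖z'‖ < 1) : ‖⟪z, z'⟫_ℂ‖ < 1 := by
  calc ‖⟪z, z'⟫_ℂ‖ ≤ ‖z‖ * ‖z'‖ := norm_inner_le_norm _ _
    _ < 1 := by nlinarith [norm_nonneg z, norm_nonneg z']

lemma kernel_eq (p : ℝ) {z z' : W} (hz : ‖z‖ < 1) (hz' : ‖z'‖ < 1) :
    (1 + ⟪z, z'⟫_ℂ) ^ (p : ℂ) =
      ⟪feat (cpos p) z, feat (cpos p) z'⟫_ℂ - ⟪feat (cneg p) z, feat (cneg p) z'⟫_ℂ := by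
  have h1 := (hasSum_inner_feat (wt_cpos p) hz hz').sub (hasSum_inner_feat (wt_cneg p) hz hz')
  have h2 := binom_hasSum p (norm_inner_lt_one hz hz')
  have h3 : (fun k => (cpos p k : ℂ) * ⟪z, z'⟫_ℂ ^ k - (cneg p k : ℂ) * ⟪z, z'⟫_ℂ ^ k) =
      fun k => ((Ring.choose p k : ℝ) : ℂ) * ⟪z, z'⟫_ℂ ^ k := by
    funext k
    rw [← cpos_sub_cneg p k]
    push_cast
    ring
  rw [h3] at h1
  exact h2.unique h1

/-- Functions holomorphic in the ball of radius `r` which vanish on `E`. -/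
def Fam (E : Set W) (r : ℝ) : Submodule ℂ (W → ℂ) where
  carrier := {g | DifferentiableOn ℂ g (ball 0 r) ∧ ∀ z ∈ E, z ∈ ball (0 : W) r → g z = 0}
  add_mem' := by
    rintro a b ⟨ha1, ha2⟩ ⟨hb1, hb2⟩
    refine ⟨ha1.add hb1, fun z hz hzr => ?_⟩
    simp [ha2 z hz hzr, hb2 z hz hzr]
  zero_mem' := ⟨differentiableOn_const _, fun _ _ _ => rfl⟩
  smul_mem' := by
    rintro c a ⟨ha1, ha2⟩
    refine ⟨ha1.const_smul c, fun z hz hzr => ?_⟩
    simp [ha2 z hz hzr]

/-- The holomorphic hull of `E` in the ball of radius `r`. -/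
def hull (E : Set W) (r : ℝ) : Set W := CZ (Fam E r) (ball 0 r)

lemma hull_subset (E : Set W) (r : ℝ) : hull E r ⊆ ball 0 r := fun _ hz => hz.1

lemma subset_hull {E : Set W} {r : ℝ} {z : W} (hz : z ∈ E) (hzr : z ∈ ball (0 : W) r) :
    z ∈ hull E r := ⟨hzr, fun _ hg => hg.2 z hz hzr⟩

lemma hull_eq_zero {E : Set W} {r : ℝ} {g : W → ℂ} (hg : DifferentiableOn ℂ g (ball 0 r))
    (hgE : ∀ z ∈ E, z ∈ ball (0 : W) r → g z = 0) {z : W} (hz : z ∈ hull E r) : g z = 0 :=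
  hz.2 g ⟨hg, hgE⟩

lemma Fam_diff (E : Set W) (r : ℝ) : ∀ g ∈ Fam E r, DifferentiableOn ℂ g (ball 0 r) :=
  fun _ hg => hg.1

lemma gram_linearCombination {ι H : Type*} [NormedAddCommGroup H] [InnerProductSpace ℂ H]
    (V : ι → H) (c : ι →₀ ℂ) :
    ⟪Finsupp.linearCombination ℂ V c, Finsupp.linearCombination ℂ V c⟫_ℂ =
      ∑ i ∈ c.support, ∑ j ∈ c.support, conj (c i) * c j * ⟪V i, V j⟫_ℂ := by
  rw [Finsupp.linearCombination_apply, Finsupp.sum, sum_inner]
  apply Finset.sum_congr rfl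
  intro i _
  rw [inner_sum]
  apply Finset.sum_congr rfl
  intro j _
  rw [inner_smul_left, inner_smul_right]
  ring

lemma one_add_slit {x : ℂ} (hx : ‖x‖ < 1) : 1 + x ∈ Complex.slitPlane := by
  left
  have h1 : |x.re| ≤ ‖x‖ := Complex.abs_re_le_norm x
  have h2 := neg_abs_le x.re
  simp only [Complex.add_re, Complex.one_re]
  linarith

lemma kernel_diff (p : ℝ) {z : W} (hz : ‖z‖ < 1) :
    DifferentiableOn ℂ (fun z' => (1 + ⟪z, z'⟫_ℂ) ^ (p : ℂ)) (ball 0 1) := by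
  intro z' hz'
  rw [mem_ball_zero_iff] at hz'
  apply DifferentiableAt.differentiableWithinAt
  have h1 : DifferentiableAt ℂ (fun z' => 1 + ⟪z, z'⟫_ℂ) z' :=
    (innerSL ℂ z).differentiableAt.const_add 1
  exact h1.cpow (differentiableAt_const _) (one_add_slit (norm_inner_lt_one hz hz'))

lemma kernel_conj (p : ℝ) {z z' : W} (hz : ‖z‖ < 1) (hz' : ‖z'‖ < 1) :
    conj ((1 + ⟪z, z'⟫_ℂ) ^ (p : ℂ)) = (1 + ⟪z', z⟫_ℂ) ^ (p : ℂ) := by
  have h1 : (1 + ⟪z', z⟫_ℂ) = conj (1 + ⟪z, z'⟫_ℂ) := by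
    rw [map_add, map_one, inner_conj_symm]
  rw [h1]
  have h2 := Complex.cpow_conj (1 + ⟪z, z'⟫_ℂ) (p : ℂ)
    (Complex.slitPlane_arg_ne_pi (one_add_slit (norm_inner_lt_one hz hz')))
  rw [Complex.conj_ofReal] at h2
  rw [h2, Complex.conj_conj]

/-- The kernel `(1 + ⟨z, z'⟩)^p` stays positive semidefinite on the holomorphic hulls, with features
depending holomorphically on the point. -/
theorem extend_features {H : Type*} [NormedAddCommGroup H] [InnerProductSpace ℂ H] [CompleteSpace H]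
    (p : ℝ) {E : Set W} (hE : ∀ z ∈ E, ‖z‖ < 1) {h : W → H}
    (hh : ∀ z ∈ E, ∀ z' ∈ E, ⟪h z, h z'⟫_ℂ = (1 + ⟪z, z'⟫_ℂ) ^ (p : ℂ)) :
    ∃ h' : W → H, (∀ k : H, DifferentiableOn ℂ (fun z => ⟪k, h' z⟫_ℂ) (ball 0 1)) ∧
      (∀ z ∈ E, h' z = h z) ∧ ∀ r ≤ 1, ∀ z ∈ hull E r, ∀ z' ∈ hull E r,
        ⟪h' z, h' z'⟫_ℂ = (1 + ⟪z, z'⟫_ℂ) ^ (p : ℂ) := by
  obtain ⟨R, hR⟩ := exists_operator (ι := E) (𝓗 := FS W) (fun z => feat (cpos p) (z : W))
    (fun z => h z) (by
      intro c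
      have h1 : ‖Finsupp.linearCombination ℂ (fun z : E => h z) c‖ ^ 2 =
          ‖Finsupp.linearCombination ℂ (fun z : E => feat (cpos p) (z : W)) c‖ ^ 2 -
          ‖Finsupp.linearCombination ℂ (fun z : E => feat (cneg p) (z : W)) c‖ ^ 2 := by
        have h2 : ((‖Finsupp.linearCombination ℂ (fun z : E => h z) c‖ ^ 2 : ℝ) : ℂ) =
            ((‖Finsupp.linearCombination ℂ (fun z : E => feat (cpos p) (z : W)) c‖ ^ 2 -
            ‖Finsupp.linearCombination ℂ (fun z : E => feat (cneg p) (z : W)) c‖ ^ 2 : ℝ) : ℂ) := by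
          push_cast
          have e1 := inner_self_eq_norm_sq_to_K (𝕜 := ℂ)
            (Finsupp.linearCombination ℂ (fun z : E => h z) c)
          have e2 := inner_self_eq_norm_sq_to_K (𝕜 := ℂ)
            (Finsupp.linearCombination ℂ (fun z : E => feat (cpos p) (z : W)) c)
          have e3 := inner_self_eq_norm_sq_to_K (𝕜 := ℂ)
            (Finsupp.linearCombination ℂ (fun z : E => feat (cneg p) (z : W)) c)
          simp only [Complex.coe_algebraMap] at e1 e2 e3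
          rw [← e1, ← e2, ← e3, gram_linearCombination, gram_linearCombination,
            gram_linearCombination, ← Finset.sum_sub_distrib]
          apply Finset.sum_congr rfl
          intro i _
          rw [← Finset.sum_sub_distrib]
          apply Finset.sum_congr rfl
          intro j _
          rw [hh i i.2 j j.2, kernel_eq p (hE i i.2) (hE j j.2)]
          ring
        exact_mod_cast h2
      have h3 : ‖Finsupp.linearCombination ℂ (fun z : E => h z) c‖ ^ 2 ≤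
          ‖Finsupp.linearCombination ℂ (fun z : E => feat (cpos p) (z : W)) c‖ ^ 2 := by
        rw [h1]
        linarith [sq_nonneg ‖Finsupp.linearCombination ℂ (fun z : E => feat (cneg p) (z : W)) c‖]
      exact (pow_le_pow_iff_left₀ (norm_nonneg _) (norm_nonneg _) two_ne_zero).mp h3)
  set h' : W → H := fun z => R (feat (cpos p) z) with hh'
  have hd : ∀ k : H, DifferentiableOn ℂ (fun z => ⟪k, h' z⟫_ℂ) (ball 0 1) := by
    intro k
    have h1 : (fun z => ⟪k, h' z⟫_ℂ) = fun z =>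
        ⟪ContinuousLinearMap.adjoint R k, feat (cpos p) z⟫_ℂ := by
      funext z
      rw [ContinuousLinearMap.adjoint_inner_left]
    rw [h1]
    exact differentiableOn_inner_feat (wt_cpos p) _
  have hEh : ∀ z ∈ E, h' z = h z := fun z hz => hR ⟨z, hz⟩
  refine ⟨h', hd, hEh, ?_⟩
  intro r hr
  have hsub : ball (0 : W) r ⊆ ball 0 1 := ball_subset_ball hr
  -- first step
  have step1 : ∀ z ∈ E, ∀ z' ∈ hull E r, ⟪h z, h' z'⟫_ℂ = (1 + ⟪z, z'⟫_ℂ) ^ (p : ℂ) := by
    intro z hz z' hz'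
    have h1 := hull_eq_zero (g := fun z' => ⟪h z, h' z'⟫_ℂ - (1 + ⟪z, z'⟫_ℂ) ^ (p : ℂ))
      (((hd (h z)).mono hsub).sub ((kernel_diff p (hE z hz)).mono hsub)) (by
        intro y hy _
        rw [hEh y hy, hh z hz y hy, sub_self]) hz'
    exact sub_eq_zero.mp h1
  intro z hz z' hz'
  have hz1 : ‖z‖ < 1 := mem_ball_zero_iff.mp (hsub (hull_subset E r hz))
  have h2 := hull_eq_zero (g := fun y => ⟪h' z, h' y⟫_ℂ - (1 + ⟪z, y⟫_ℂ) ^ (p : ℂ))
    (((hd (h' z)).mono hsub).sub ((kernel_diff p hz1).mono hsub)) (by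
      intro y hy _
      rw [hEh y hy, ← inner_conj_symm, step1 y hy z hz, kernel_conj p (hE y hy) hz1,
        sub_self]) hz'
  exact sub_eq_zero.mp h2

end

end Pool.Agent.Lib.MP_3f9d7d_an
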