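import Mathlib
import Pool.Agent.Lib.MP_3f9d7d_an.Hull

open Filter MeasureTheory Set Topology Metric
open scoped InnerProductSpace ENNReal ComplexConjugate

namespace Pool.Agent.Lib.MP_3f9d7d_an

universe u

lemma mul_cpow_of_re_pos {a b : ℂ} (ha : 0 < a.re) (hb : 0 < b.re) (p : ℂ) :
    (a * b) ^ p = a ^ p * b ^ p := by
  have ha0 : a ≠ 0 := fun h => by simp [h] at ha
  have hb0 : b ≠ 0 := fun h => by simp [h] at hb
  have h1 : |a.arg| < Real.pi / 2 := Complex.abs_arg_lt_pi_div_two_iff.mpr (Or.inl ha)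
  have h2 : |b.arg| < Real.pi / 2 := Complex.abs_arg_lt_pi_div_two_iff.mpr (Or.inl hb)
  rw [abs_lt] at h1 h2
  rw [Complex.cpow_def_of_ne_zero (mul_ne_zero ha0 hb0), Complex.cpow_def_of_ne_zero ha0,
    Complex.cpow_def_of_ne_zero hb0, Complex.log_mul ha0 hb0 ⟨by linarith, by linarith⟩,
    ← Complex.exp_add]
  congr 1
  ring

lemma real_mul_cpow {c : ℝ} (hc : 0 < c) (b p : ℂ) : ((c : ℂ) * b) ^ p = (c : ℂ) ^ p * b ^ p := by
  by_cases hb : b = 0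
  · subst hb
    by_cases hp : p = 0
    · simp [hp]
    · simp [Complex.zero_cpow hp]
  · have hc0 : (c : ℂ) ≠ 0 := by exact_mod_cast hc.ne'
    rw [Complex.cpow_def_of_ne_zero (mul_ne_zero hc0 hb), Complex.cpow_def_of_ne_zero hc0,
      Complex.cpow_def_of_ne_zero hb, Complex.log_mul hc0 hb (by
        rw [Complex.arg_ofReal_of_nonneg hc.le, zero_add]
        exact Complex.arg_mem_Ioc b), ← Complex.exp_add]
    congr 1
    ring

lemma re_pos_of_norm_lt {x : ℂ} (hx : ‖x‖ < 1) : 0 < (1 + x).re := by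
  have h1 : |x.re| ≤ ‖x‖ := Complex.abs_re_le_norm x
  have h2 := neg_abs_le x.re
  simp only [Complex.add_re, Complex.one_re]
  linarith

section

variable {V : Type u} [NormedAddCommGroup V] [InnerProductSpace ℂ V] [FiniteDimensional ℂ V]
  {H : Type*} [NormedAddCommGroup H] [InnerProductSpace ℂ H] [CompleteSpace H]

/-- A set accumulating at the unit vector `u` on which the kernel `⟨z, z'⟩^p` has features that
are compatible with the features `φ t` of the curve `x t`, `t ∈ T`. -/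
def Germ (p : ℝ) (x : ℂ → V) (φ : ℂ → H) (T : Set ℂ) (u : V) : Prop :=
  ‖u‖ = 1 ∧ ∃ (E : Set V) (h : V → H) (a : ℂ → ℂ), (∃ᶠ z in 𝓝[≠] u, z ∈ E) ∧
    (∀ z ∈ E, ⟪u, z⟫_ℂ = 1 ∧ ‖z - u‖ < 1) ∧
    (∀ z ∈ E, ∀ z' ∈ E, ⟪h z, h z'⟫_ℂ = ⟪z, z'⟫_ℂ ^ (p : ℂ)) ∧
    (∀ t ∈ T, ‖a t‖ = ‖⟪x t, u⟫_ℂ‖ ^ p) ∧
    ∀ t ∈ T, ∀ z ∈ E, ⟪φ t, h z⟫_ℂ = a t * (⟪x t, z⟫_ℂ / ⟪x t, u⟫_ℂ) ^ (p : ℂ)

lemma inner_add_orth {u : V} (hu : ‖u‖ = 1) (z z' : (ℂ ∙ u)ᗮ) :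
    ⟪u + z, u + z'⟫_ℂ = 1 + ⟪z, z'⟫_ℂ := by
  have h1 : ⟪u, (z' : V)⟫_ℂ = 0 := Submodule.mem_orthogonal_singleton_iff_inner_right.mp z'.2
  have h2 : ⟪(z : V), u⟫_ℂ = 0 := Submodule.mem_orthogonal_singleton_iff_inner_left.mp z.2
  rw [inner_add_left, inner_add_right, inner_add_right, h1, h2, inner_self_eq_norm_sq_to_K, hu]
  simp

/-- The extension step. -/
lemma germ_extend {p : ℝ} {x : ℂ → V} {φ : ℂ → H} {T : Set ℂ} {u : V} (hg : Germ p x φ T u)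
    {m0 M r : ℝ} (hm0 : 0 < m0) (hM : ∀ t ∈ T, ‖x t‖ ≤ M) (hm : ∀ t ∈ T, m0 ≤ ‖⟪x t, u⟫_ℂ‖)
    (hr0 : 0 < r) (hr1 : r ≤ 1) (hrM : r * M ≤ m0) :
    ∃ (E : Set (ℂ ∙ u)ᗮ) (h : (ℂ ∙ u)ᗮ → H) (a : ℂ → ℂ),
      (∃ᶠ z in 𝓝[≠] 0, z ∈ hull E r) ∧ (0 : (ℂ ∙ u)ᗮ) ∈ hull E r ∧
      (∀ z ∈ hull E r, ∀ z' ∈ hull E r, ⟪h z, h z'⟫_ℂ = ⟪u + z, u + z'⟫_ℂ ^ (p : ℂ)) ∧
      (∀ t ∈ T, ‖a t‖ = ‖⟪x t, u⟫_ℂ‖ ^ p) ∧
      ∀ t ∈ T, ∀ z ∈ hull E r, ⟪φ t, h z⟫_ℂ =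
        a t * (⟪x t, u + z⟫_ℂ / ⟪x t, u⟫_ℂ) ^ (p : ℂ) := by
  obtain ⟨hu, E, h, a, hfreq, hE, hh, ha, hrel⟩ := hg
  set E' : Set (ℂ ∙ u)ᗮ := {z | u + (z : V) ∈ E} with hE'
  have hE'1 : ∀ z ∈ E', ‖z‖ < 1 := by
    intro z hz
    have := (hE _ hz).2
    simpa using this
  obtain ⟨h', hd, hEh, hker⟩ := extend_features p (E := E') hE'1
    (h := fun z => h (u + (z : V))) (by
      intro z hz z' hz'
      rw [hh _ hz _ hz', inner_add_orth hu])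
  have hacc : ∃ᶠ z in 𝓝[≠] (0 : (ℂ ∙ u)ᗮ), z ∈ hull E' r := by
    set P := (ℂ ∙ u)ᗮ.orthogonalProjectionOnto with hP
    have hPz : ∀ z, ⟪u, z⟫_ℂ = 1 → ((P (z - u) : (ℂ ∙ u)ᗮ) : V) = z - u := by
      intro z hz
      have h1 : z - u ∈ (ℂ ∙ u)ᗮ := by
        rw [Submodule.mem_orthogonal_singleton_iff_inner_right, inner_sub_right, hz,
          inner_self_eq_norm_sq_to_K, hu]
        simp
      exact congrArg Subtype.val (Submodule.orthogonalProjectionOnto_mem_subspace_eq_self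
        (K := (ℂ ∙ u)ᗮ) ⟨z - u, h1⟩)
    have hneb : (𝓝[≠] u ⊓ 𝓟 E).NeBot := by
      rw [Filter.inf_principal_neBot_iff]
      intro U hU
      obtain ⟨z, hz1, hz2⟩ := (hfreq.and_eventually hU).exists
      exact ⟨z, hz2, hz1⟩
    have hc : Continuous fun z => P (z - u) := by fun_prop
    have hc0 : Tendsto (fun z => P (z - u)) (𝓝 u) (𝓝 0) := by
      have := hc.tendsto u
      simpa using this
    have hmemE : ∀ᶠ z in 𝓝[≠] u ⊓ 𝓟 E, z ∈ E := mem_inf_of_right (mem_principal_self _)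
    have hne : ∀ᶠ z in 𝓝[≠] u ⊓ 𝓟 E, z ≠ u := mem_inf_of_left self_mem_nhdsWithin
    have h1 : Tendsto (fun z => P (z - u)) (𝓝[≠] u ⊓ 𝓟 E) (𝓝[≠] 0) := by
      apply tendsto_nhdsWithin_of_tendsto_nhds_of_eventually_within
      · exact hc0.mono_left (inf_le_left.trans nhdsWithin_le_nhds)
      · filter_upwards [hmemE, hne] with z hz1 hz2 hz3
        have h2 : P (z - u) = 0 := hz3
        have h3 := hPz z (hE z hz1).1
        rw [h2] at h3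
        apply hz2
        have : z - u = 0 := by rw [← h3]; rfl
        exact sub_eq_zero.mp this
    apply h1.frequently
    have h2 : ∀ᶠ z in 𝓝[≠] u ⊓ 𝓟 E, P (z - u) ∈ hull E' r := by
      have h3 : ∀ᶠ z in 𝓝[≠] u ⊓ 𝓟 E, P (z - u) ∈ ball (0 : (ℂ ∙ u)ᗮ) r := by
        have h4 : ∀ᶠ z in 𝓝 u, P (z - u) ∈ ball (0 : (ℂ ∙ u)ᗮ) r :=
          hc0.eventually (ball_mem_nhds 0 hr0)
        exact mem_inf_of_left (nhdsWithin_le_nhds h4)
      filter_upwards [hmemE, h3] with z hz1 hz3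
      apply subset_hull _ hz3
      change u + ((P (z - u) : (ℂ ∙ u)ᗮ) : V) ∈ E
      rw [hPz z (hE z hz1).1, add_sub_cancel]
      exact hz1
    exact h2.frequently
  refine ⟨E', h', a, hacc, ?_, ?_, ha, ?_⟩
  · -- `0` is in the hull
    refine ⟨mem_ball_self hr0, ?_⟩
    intro g hg
    by_contra hne
    have h1 : ContinuousAt g 0 :=
      (hg.1.continuousOn).continuousAt (isOpen_ball.mem_nhds (mem_ball_self hr0))
    have h2 : ∀ᶠ z in 𝓝 (0 : (ℂ ∙ u)ᗮ), g z ≠ 0 := h1.eventually_ne hne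
    obtain ⟨z, hz1, hz2⟩ := (hacc.and_eventually (nhdsWithin_le_nhds h2)).exists
    exact hz2 (hz1.2 g hg)
  · intro z hz z' hz'
    rw [inner_add_orth hu]
    exact hker r hr1 z hz z' hz'
  · intro t ht z hz
    have hxu : ⟪x t, u⟫_ℂ ≠ 0 := by
      rw [← norm_pos_iff]
      exact lt_of_lt_of_le hm0 (hm t ht)
    have hsub : ball (0 : (ℂ ∙ u)ᗮ) r ⊆ ball 0 1 := ball_subset_ball hr1
    have hdG : DifferentiableOn ℂ (fun z : (ℂ ∙ u)ᗮ => ⟪φ t, h' z⟫_ℂ -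
        a t * (⟪x t, u + z⟫_ℂ / ⟪x t, u⟫_ℂ) ^ (p : ℂ)) (ball 0 r) := by
      apply ((hd (φ t)).mono hsub).sub
      apply DifferentiableOn.const_mul
      intro y hy
      rw [mem_ball_zero_iff] at hy
      apply DifferentiableAt.differentiableWithinAt
      have h1 : DifferentiableAt ℂ (fun z : (ℂ ∙ u)ᗮ => ⟪x t, u + (z : V)⟫_ℂ / ⟪x t, u⟫_ℂ) y := by
        have h2 : Differentiable ℂ fun z : (ℂ ∙ u)ᗮ => ⟪x t, u + (z : V)⟫_ℂ := by
          have h3 : Differentiable ℂ fun z : (ℂ ∙ u)ᗮ => u + (z : V) :=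
            ((ℂ ∙ u)ᗮ.subtypeL.differentiable).const_add u
          exact (innerSL ℂ (x t)).differentiable.comp h3
        simp only [div_eq_mul_inv]
        exact (h2 y).mul_const _
      apply h1.cpow (differentiableAt_const _)
      have h4 : ⟪x t, u + (y : V)⟫_ℂ / ⟪x t, u⟫_ℂ = 1 + ⟪x t, (y : V)⟫_ℂ / ⟪x t, u⟫_ℂ := by
        rw [inner_add_right]; field_simp
      rw [h4]
      apply one_add_slit
      rw [norm_div, div_lt_one (norm_pos_iff.mpr hxu)]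
      have hMpos : 0 < M := by
        have h5 : ‖⟪x t, u⟫_ℂ‖ ≤ ‖x t‖ * ‖u‖ := norm_inner_le_norm _ _
        rw [hu, mul_one] at h5
        linarith [hm t ht, hM t ht]
      calc ‖⟪x t, (y : V)⟫_ℂ‖ ≤ ‖x t‖ * ‖(y : V)‖ := norm_inner_le_norm _ _
        _ ≤ M * ‖y‖ := by
          have := hM t ht
          have h6 : ‖(y : V)‖ = ‖y‖ := rfl
          rw [h6]
          gcongr
        _ < M * r := by gcongr
        _ ≤ m0 := by linarith
        _ ≤ ‖⟪x t, u⟫_ℂ‖ := hm t ht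
    have h0 := hull_eq_zero hdG (by
      intro y hy _
      rw [hEh y hy, hrel t ht _ hy, sub_self]) hz
    exact sub_eq_zero.mp h0

end

end Pool.Agent.Lib.MP_3f9d7d_an
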