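import Mathlib
import Pool.Agent.Lib.MP_3f9d7d_an.Chain

open Filter MeasureTheory Set Topology Metric
open scoped InnerProductSpace ENNReal ComplexConjugate

namespace Pool.Agent.Lib.MP_3f9d7d_an

universe u

section

variable {V : Type u} [NormedAddCommGroup V] [InnerProductSpace ℂ V] [FiniteDimensional ℂ V]
  {H : Type*} [NormedAddCommGroup H] [InnerProductSpace ℂ H] [CompleteSpace H]

lemma conj_cpow_of_re_pos {a : ℂ} (ha : 0 < a.re) (p : ℝ) :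
    conj (a ^ (p : ℂ)) = (conj a) ^ (p : ℂ) := by
  have h2 := Complex.cpow_conj a (p : ℂ)
    (Complex.slitPlane_arg_ne_pi (Or.inl ha))
  rw [Complex.conj_ofReal] at h2
  rw [h2, Complex.conj_conj]

/-- Building a germ out of a family of features. -/
lemma germ_of_features {p M m1 : ℝ} {x : ℂ → V} {φ : ℂ → H} {T : Set ℂ} {Y : Set V} {y0 q : V}
    {η : V → H} {a b : ℂ → ℂ}
    (hy0 : y0 ∈ Y) (hq : ∀ y ∈ Y, ⟪q, y⟫_ℂ = 1) (hfreq : ∃ᶠ y in 𝓝[≠] y0, y ∈ Y)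
    (hη : ∀ y ∈ Y, ∀ y' ∈ Y, ⟪η y, η y'⟫_ℂ = ⟪y, y'⟫_ℂ ^ (p : ℂ))
    (hre : ∀ y ∈ Y, ∀ y' ∈ Y, 0 < (⟪y, y'⟫_ℂ).re)
    (hab : ∀ t ∈ T, ‖a t‖ = ‖b t‖ ^ p)
    (hcross : ∀ t ∈ T, ∀ y ∈ Y, ⟪φ t, η y⟫_ℂ = a t * (⟪x t, y⟫_ℂ / b t) ^ (p : ℂ))
    (hcre : ∀ t ∈ T, ∀ y ∈ Y, 0 < (⟪x t, y⟫_ℂ / b t).re)
    (hM : ∀ t ∈ T, ‖x t‖ ≤ M) (hm : ∀ t ∈ T, m1 ≤ ‖⟪x t, y0⟫_ℂ‖) (hm1 : 0 < m1) :
    Germ p x φ T (((‖y0‖⁻¹ : ℝ) : ℂ) • y0) := by
  have hNy : 0 < ‖y0‖ := by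
    rw [norm_pos_iff]
    rintro rfl
    have := hre 0 hy0 0 hy0
    simp at this
  set N := ‖y0‖ with hN
  set u1 : V := ((N⁻¹ : ℝ) : ℂ) • y0 with hu1
  have hu1n : ‖u1‖ = 1 := by
    rw [hu1, norm_smul, Complex.norm_real, Real.norm_of_nonneg (by positivity), ← hN]
    field_simp
  have hNC : (N : ℂ) ≠ 0 := by exact_mod_cast hNy.ne'
  have hu1y : ∀ y, ⟪u1, y⟫_ℂ = ((N⁻¹ : ℝ) : ℂ) * ⟪y0, y⟫_ℂ := by
    intro y
    rw [hu1, inner_smul_left, Complex.conj_ofReal]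
  have hyu1 : ∀ y, ⟪y, u1⟫_ℂ = ((N⁻¹ : ℝ) : ℂ) * ⟪y, y0⟫_ℂ := by
    intro y
    rw [hu1, inner_smul_right]
  have hu1y0 : ⟪u1, y0⟫_ℂ = N := by
    rw [hu1y, inner_self_eq_norm_sq_to_K, ← hN]
    push_cast
    simp only [Complex.coe_algebraMap]
    field_simp
  set δ : ℝ := min 1 (min (1 / (2 * N * (‖q‖ + 1))) (m1 / (N * (|M| + 1)))) with hδ
  have hδ0 : 0 < δ := by
    rw [hδ]
    have := norm_nonneg q
    have := abs_nonneg M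
    positivity
  have hδ1 : δ ≤ 1 := min_le_left _ _
  have hδ2 : (‖q‖ + 1) * δ ≤ 1 / (2 * N) := by
    have h1 : δ ≤ 1 / (2 * N * (‖q‖ + 1)) := (min_le_right _ _).trans (min_le_left _ _)
    have h2 : 0 < ‖q‖ + 1 := by positivity
    calc (‖q‖ + 1) * δ ≤ (‖q‖ + 1) * (1 / (2 * N * (‖q‖ + 1))) := by gcongr
      _ = 1 / (2 * N) := by field_simp
  have hδ3 : (|M| + 1) * δ ≤ m1 / N := by
    have h1 : δ ≤ m1 / (N * (|M| + 1)) := (min_le_right _ _).trans (min_le_right _ _)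
    have h2 : 0 < |M| + 1 := by positivity
    calc (|M| + 1) * δ ≤ (|M| + 1) * (m1 / (N * (|M| + 1))) := by gcongr
      _ = m1 / N := by field_simp
  set E1 : Set V := {z | ⟪u1, z⟫_ℂ = 1 ∧ ‖z - u1‖ < δ ∧ ∃ y ∈ Y, ∃ c : ℂ, z = c • y} with hE1
  have hch : ∀ z : V, ∃ k : H, z ∈ E1 → ∃ y ∈ Y, ∃ c : ℂ, z = c • y ∧ k = c ^ (p : ℂ) • η y := by
    intro z
    by_cases hz : z ∈ E1
    · obtain ⟨_, _, y, hy, c, hc⟩ := hz
      exact ⟨c ^ (p : ℂ) • η y, fun _ => ⟨y, hy, c, hc, rfl⟩⟩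
    · exact ⟨0, fun h => absurd h hz⟩
  choose h1 hh1 using hch
  -- the scalars are in a sector
  have hsec : ∀ z ∈ E1, ∀ y ∈ Y, ∀ c : ℂ, z = c • y → |c.im| < c.re := by
    intro z hz y hy c hc
    have e1 : c = ⟪q, z⟫_ℂ := by rw [hc, inner_smul_right, hq y hy, mul_one]
    have e2 : ⟪q, u1⟫_ℂ = ((N⁻¹ : ℝ) : ℂ) := by
      rw [hyu1, hq y0 hy0, mul_one]
    have e3 : ‖c - ((N⁻¹ : ℝ) : ℂ)‖ < 1 / (2 * N) := by
      rw [e1, ← e2, ← inner_sub_right]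
      calc ‖⟪q, z - u1⟫_ℂ‖ ≤ ‖q‖ * ‖z - u1‖ := norm_inner_le_norm _ _
        _ ≤ ‖q‖ * δ := by
          have := hz.2.1.le
          gcongr
        _ < (‖q‖ + 1) * δ := by nlinarith
        _ ≤ 1 / (2 * N) := hδ2
    have e4 : |(c - ((N⁻¹ : ℝ) : ℂ)).re| < 1 / (2 * N) :=
      (Complex.abs_re_le_norm _).trans_lt e3
    have e5 : |(c - ((N⁻¹ : ℝ) : ℂ)).im| < 1 / (2 * N) :=
      (Complex.abs_im_le_norm _).trans_lt e3
    simp only [Complex.sub_re, Complex.ofReal_re, Complex.sub_im, Complex.ofReal_im,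
      sub_zero] at e4 e5
    have e6 : 1 / (2 * N) + 1 / (2 * N) = N⁻¹ := by field_simp; norm_num
    rw [abs_lt] at e4
    linarith [e4.1]
  refine ⟨hu1n, E1, h1, fun t => ((N⁻¹ : ℝ) : ℂ) ^ (p : ℂ) * a t * (⟪x t, y0⟫_ℂ / b t) ^ (p : ℂ),
    ?_, ?_, ?_, ?_, ?_⟩
  · -- accumulation
    have hneb : (𝓝[≠] y0 ⊓ 𝓟 Y).NeBot := by
      rw [Filter.inf_principal_neBot_iff]
      intro U hU
      obtain ⟨z, hz1, hz2⟩ := (hfreq.and_eventually hU).exists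
      exact ⟨z, hz2, hz1⟩
    have hc0 : Tendsto (fun y : V => (⟪u1, y⟫_ℂ)⁻¹ • y) (𝓝 y0) (𝓝 u1) := by
      have h2 : ContinuousAt (fun y : V => (⟪u1, y⟫_ℂ)⁻¹ • y) y0 := by
        apply ContinuousAt.smul _ continuousAt_id
        apply ContinuousAt.inv₀ (by fun_prop)
        rw [hu1y0]; exact hNC
      have h3 : (⟪u1, y0⟫_ℂ)⁻¹ • y0 = u1 := by
        rw [hu1y0, hu1, Complex.ofReal_inv]
      have h4 := h2.tendsto
      rw [h3] at h4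
      exact h4
    have hmemY : ∀ᶠ z in 𝓝[≠] y0 ⊓ 𝓟 Y, z ∈ Y := mem_inf_of_right (mem_principal_self _)
    have hne : ∀ᶠ z in 𝓝[≠] y0 ⊓ 𝓟 Y, z ≠ y0 := mem_inf_of_left self_mem_nhdsWithin
    have hnz : ∀ y ∈ Y, ⟪u1, y⟫_ℂ ≠ 0 := by
      intro y hy h0
      rw [hu1y, mul_eq_zero] at h0
      rcases h0 with h0 | h0
      · have : (N⁻¹ : ℝ) = 0 := by exact_mod_cast h0
        have h5 : (0 : ℝ) < N⁻¹ := by positivity
        linarith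
      · have := hre y0 hy0 y hy
        rw [h0] at this
        simp at this
    have h1 : Tendsto (fun y : V => (⟪u1, y⟫_ℂ)⁻¹ • y) (𝓝[≠] y0 ⊓ 𝓟 Y) (𝓝[≠] u1) := by
      apply tendsto_nhdsWithin_of_tendsto_nhds_of_eventually_within
      · exact hc0.mono_left (inf_le_left.trans nhdsWithin_le_nhds)
      · filter_upwards [hmemY, hne] with y hy1 hy2 hy3
        have hy3' : (⟪u1, y⟫_ℂ)⁻¹ • y = u1 := hy3
        have h4 := congrArg (fun z => ⟪q, z⟫_ℂ) hy3'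
        simp only [hu1, inner_smul_right, hq y hy1, hq y0 hy0, mul_one] at h4
        rw [← hu1] at h4
        rw [h4, hu1] at hy3'
        apply hy2
        have h5 : ((N⁻¹ : ℝ) : ℂ) ≠ 0 := by
          have : (N⁻¹ : ℝ) ≠ 0 := by positivity
          exact_mod_cast this
        exact smul_right_injective V h5 hy3'
    apply h1.frequently
    have h2 : ∀ᶠ z in 𝓝[≠] y0 ⊓ 𝓟 Y, (⟪u1, z⟫_ℂ)⁻¹ • z ∈ E1 := by
      have h3 : ∀ᶠ z in 𝓝[≠] y0 ⊓ 𝓟 Y, (⟪u1, z⟫_ℂ)⁻¹ • z ∈ ball u1 δ := by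
        have h4 := hc0.eventually (ball_mem_nhds u1 hδ0)
        exact mem_inf_of_left (nhdsWithin_le_nhds h4)
      filter_upwards [hmemY, h3] with z hz1 hz3
      refine ⟨?_, ?_, z, hz1, _, rfl⟩
      · rw [inner_smul_right, inv_mul_cancel₀ (hnz z hz1)]
      · rw [← dist_eq_norm]; exact hz3
    exact h2.frequently
  · intro z hz
    exact ⟨hz.1, hz.2.1.trans_le hδ1⟩
  · intro z hz z' hz'
    obtain ⟨y, hy, c, hc, hk⟩ := hh1 z hz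
    obtain ⟨y', hy', c', hc', hk'⟩ := hh1 z' hz'
    have s1 := hsec z hz y hy c hc
    have s2 := hsec z' hz' y' hy' c' hc'
    have s1' : 0 < c.re := lt_of_le_of_lt (abs_nonneg _) s1
    have s2' : 0 < c'.re := lt_of_le_of_lt (abs_nonneg _) s2
    rw [hk, hk', inner_smul_left, inner_smul_right, hη y hy y' hy', conj_cpow_of_re_pos s1']
    rw [hc, hc', inner_smul_left, inner_smul_right]
    have s3 : 0 < (conj c).re := by simpa using s1'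
    have s4 : 0 < (conj c * c').re := by
      simp only [Complex.mul_re, Complex.conj_re, Complex.conj_im, neg_mul, sub_neg_eq_add]
      have h5 : -(c.re * c'.re) < c.im * c'.im := by
        have h6 : |c.im * c'.im| < c.re * c'.re := by
          rw [abs_mul]
          exact mul_lt_mul'' s1 s2 (abs_nonneg _) (abs_nonneg _)
        exact (abs_lt.mp h6).1
      linarith
    rw [← mul_assoc, ← mul_cpow_of_re_pos s3 s2', ← mul_assoc,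
      mul_cpow_of_re_pos s4 (hre y hy y' hy')]
  · intro t ht
    have hb : b t ≠ 0 := by
      intro hb
      have := hcre t ht y0 hy0
      rw [hb] at this
      simp at this
    rw [norm_mul, norm_mul, Complex.norm_cpow_real, Complex.norm_cpow_real, hab t ht,
      hyu1, norm_mul, Complex.norm_real, norm_div,
      Real.mul_rpow (norm_nonneg _) (norm_nonneg _), Real.norm_of_nonneg (by positivity),
      Real.div_rpow (norm_nonneg _) (norm_nonneg _)]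
    have h5 : 0 < ‖b t‖ ^ p := Real.rpow_pos_of_pos (norm_pos_iff.mpr hb) _
    field_simp
  · intro t ht z hz
    obtain ⟨y, hy, c, hc, hk⟩ := hh1 z hz
    have s1 := hsec z hz y hy c hc
    have s1' : 0 < c.re := lt_of_le_of_lt (abs_nonneg _) s1
    have hb : b t ≠ 0 := by
      intro hb
      have := hcre t ht y0 hy0
      rw [hb] at this
      simp at this
    have hxy0 : ⟪x t, y0⟫_ℂ ≠ 0 := by
      rw [← norm_pos_iff]
      exact hm1.trans_le (hm t ht)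
    have hxu1 : ⟪x t, u1⟫_ℂ ≠ 0 := by
      rw [hyu1]
      apply mul_ne_zero _ hxy0
      have : (N⁻¹ : ℝ) ≠ 0 := by positivity
      exact_mod_cast this
    have hC : 0 < (⟪x t, z⟫_ℂ / ⟪x t, u1⟫_ℂ).re := by
      have h4 : ⟪x t, z⟫_ℂ / ⟪x t, u1⟫_ℂ = 1 + ⟪x t, z - u1⟫_ℂ / ⟪x t, u1⟫_ℂ := by
        rw [inner_sub_right]; field_simp; ring
      rw [h4]
      apply re_pos_of_norm_lt
      rw [norm_div, div_lt_one (norm_pos_iff.mpr hxu1)]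
      calc ‖⟪x t, z - u1⟫_ℂ‖ ≤ ‖x t‖ * ‖z - u1‖ := norm_inner_le_norm _ _
        _ ≤ |M| * δ := by
          have h6 := (hM t ht).trans (le_abs_self M)
          have h7 := hz.2.1.le
          gcongr
        _ < (|M| + 1) * δ := by nlinarith
        _ ≤ m1 / N := hδ3
        _ ≤ ‖⟪x t, u1⟫_ℂ‖ := by
          rw [hyu1, norm_mul, Complex.norm_real, Real.norm_of_nonneg (by positivity),
            div_eq_inv_mul]
          have := hm t ht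
          gcongr
    rw [hk, inner_smul_right, hcross t ht y hy]
    have key : c * (⟪x t, y⟫_ℂ / b t) = ((N⁻¹ : ℝ) : ℂ) * ((⟪x t, y0⟫_ℂ / b t) *
        (⟪x t, z⟫_ℂ / ⟪x t, u1⟫_ℂ)) := by
      rw [hyu1, hc, inner_smul_right]
      have : (N⁻¹ : ℂ) ≠ 0 := inv_ne_zero hNC
      push_cast
      field_simp
    have e1 : c ^ (p : ℂ) * (a t * (⟪x t, y⟫_ℂ / b t) ^ (p : ℂ)) =
        a t * (c * (⟪x t, y⟫_ℂ / b t)) ^ (p : ℂ) := by
      rw [mul_cpow_of_re_pos s1' (hcre t ht y hy)]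
      ring
    rw [e1, key, real_mul_cpow (by positivity), mul_cpow_of_re_pos (hcre t ht y0 hy0) hC]
    ring

/-- The unit vector attached to a germ. -/
lemma germ_vector {p : ℝ} {x : ℂ → V} {φ : ℂ → H} {T : Set ℂ} {u : V} (hg : Germ p x φ T u)
    {m0 M : ℝ} (hm0 : 0 < m0) (hM : ∀ t ∈ T, ‖x t‖ ≤ M) (hm : ∀ t ∈ T, m0 ≤ ‖⟪x t, u⟫_ℂ‖) :
    ∃ k : H, ‖k‖ = 1 ∧ ∀ t ∈ T, ‖⟪k, φ t⟫_ℂ‖ = ‖⟪x t, u⟫_ℂ‖ ^ p := by
  set r : ℝ := min 1 (m0 / (|M| + 1)) with hr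
  have hM1 : 0 < |M| + 1 := by positivity
  have hr0 : 0 < r := by rw [hr]; positivity
  have hr1 : r ≤ 1 := min_le_left _ _
  have hrM : r * (|M| + 1) ≤ m0 := by
    have : r ≤ m0 / (|M| + 1) := min_le_right _ _
    rwa [le_div_iff₀ hM1] at this
  obtain ⟨E, h, a, -, h0, hk, ha, hrel⟩ := germ_extend hg hm0 (M := |M| + 1)
    (fun t ht => (hM t ht).trans ((le_abs_self M).trans (by linarith))) hm hr0 hr1 hrM
  refine ⟨h 0, ?_, ?_⟩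
  · have h1 := hk 0 h0 0 h0
    rw [ZeroMemClass.coe_zero, add_zero, inner_self_eq_norm_sq_to_K, inner_self_eq_norm_sq_to_K,
      hg.1] at h1
    simp only [Complex.coe_algebraMap, Complex.ofReal_one, one_pow, Complex.one_cpow] at h1
    have h2 : ‖h 0‖ ^ 2 = 1 := by exact_mod_cast h1
    nlinarith [norm_nonneg (h 0)]
  · intro t ht
    have hxu : ⟪x t, u⟫_ℂ ≠ 0 := by
      rw [← norm_pos_iff]
      exact lt_of_lt_of_le hm0 (hm t ht)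
    have h1 := hrel t ht 0 h0
    rw [ZeroMemClass.coe_zero, add_zero, div_self hxu, Complex.one_cpow, mul_one] at h1
    rw [norm_inner_symm, h1, ha t ht]

/-- The descent step. -/
lemma germ_step {p : ℝ} {x : ℂ → V} {φ : ℂ → H} {T : Set ℂ} {u : V} (hg : Germ p x φ T u)
    {m0 M r r' : ℝ} (hm0 : 0 < m0) (hM : ∀ t ∈ T, ‖x t‖ ≤ M) (hm : ∀ t ∈ T, m0 ≤ ‖⟪x t, u⟫_ℂ‖)
    (hM0 : 0 < M) (hr'0 : 0 < r') (hr'r : r' < r) (hr1 : r ≤ 1) (hrM : r * M ≤ m0) {t0 : ℂ}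
    (ht0 : t0 ∈ T) :
    ∃ u1, Germ p x φ T u1 ∧ (∃ m > 0, ∀ t ∈ T, m ≤ ‖⟪x t, u1⟫_ℂ‖) ∧
      ‖⟪x t0, u1⟫_ℂ‖ * √(1 + r' ^ 2) ≤ ‖⟪x t0, u⟫_ℂ‖ := by
  have hr0 : 0 < r := hr'0.trans hr'r
  have hu := hg.1
  obtain ⟨E, h, a, hfreq, h0, hk, ha, hrel⟩ := germ_extend hg hm0 hM hm hr0 hr1 hrM
  set ℓ : (ℂ ∙ u)ᗮ →L[ℂ] ℂ := (innerSL ℂ (x t0)).comp (ℂ ∙ u)ᗮ.subtypeL with hℓ
  have hℓz : ∀ z, ℓ z = ⟪x t0, (z : V)⟫_ℂ := fun z => rfl
  have hsmall : ∀ t ∈ T, ∀ z : (ℂ ∙ u)ᗮ, ‖z‖ < r → ‖⟪x t, (z : V)⟫_ℂ‖ < ‖⟪x t, u⟫_ℂ‖ := by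
    intro t ht z hz
    calc ‖⟪x t, (z : V)⟫_ℂ‖ ≤ ‖x t‖ * ‖(z : V)‖ := norm_inner_le_norm _ _
      _ ≤ M * ‖z‖ := by
        have := hM t ht
        have h6 : ‖(z : V)‖ = ‖z‖ := rfl
        rw [h6]
        gcongr
      _ < M * r := by gcongr
      _ ≤ m0 := by linarith
      _ ≤ ‖⟪x t, u⟫_ℂ‖ := hm t ht
  obtain ⟨ζ, hζ, hζn, hζle, hζf⟩ := min_principle (W := (ℂ ∙ u)ᗮ) (Ω := ball 0 r) isOpen_ball
    (F := Fam E r) (Fam_diff E r) hr'0 (closedBall_subset_ball hr'r) hfreq ℓ (⟪x t0, u⟫_ℂ) (by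
      intro z _ hz hz0
      have h1 := hsmall t0 ht0 z (hz.trans_lt hr'r)
      rw [← hℓz] at h1
      have h2 : ℓ z = -⟪x t0, u⟫_ℂ := by linear_combination hz0
      rw [h2, norm_neg] at h1
      exact lt_irrefl _ h1)
  set y0 : V := u + (ζ : V) with hy0
  have hy0n : ‖y0‖ = √(1 + r' ^ 2) := by
    have h1 := inner_add_orth hu ζ ζ
    rw [inner_self_eq_norm_sq_to_K, inner_self_eq_norm_sq_to_K, hζn, ← hy0] at h1
    simp only [Complex.coe_algebraMap] at h1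
    have h2 : ‖y0‖ ^ 2 = 1 + r' ^ 2 := by exact_mod_cast h1
    rw [← h2, Real.sqrt_sq (norm_nonneg _)]
  have hy0p : 0 < ‖y0‖ := by rw [hy0n]; positivity
  set Y : Set V := {y | ∃ z ∈ hull E r, y = u + (z : V)} with hY
  -- features on `Y`
  have hch : ∀ y : V, ∃ k : H, ∀ z ∈ hull E r, y = u + (z : V) → k = h z := by
    intro y
    by_cases hy : ∃ z ∈ hull E r, y = u + (z : V)
    · obtain ⟨z, hz, hyz⟩ := hy
      refine ⟨h z, fun z' hz' hyz' => ?_⟩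
      have h1 : (z : V) = z' := by
        have : u + (z : V) = u + z' := by rw [← hyz, ← hyz']
        exact add_left_cancel this
      rw [Subtype.ext h1]
    · exact ⟨0, fun z hz hyz => absurd ⟨z, hz, hyz⟩ hy⟩
  choose η hη using hch
  have hnz : ∀ z ∈ hull E r, ‖z‖ < r := fun z hz => mem_ball_zero_iff.mp (hull_subset E r hz)
  have hm1 : 0 < m0 - M * r' := by
    have : M * r' < r * M := by nlinarith
    linarith
  have hmt : ∀ t ∈ T, m0 - M * r' ≤ ‖⟪x t, y0⟫_ℂ‖ := by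
    intro t ht
    rw [hy0, inner_add_right]
    have h1 : ‖⟪x t, (ζ : V)⟫_ℂ‖ ≤ M * r' := by
      calc ‖⟪x t, (ζ : V)⟫_ℂ‖ ≤ ‖x t‖ * ‖(ζ : V)‖ := norm_inner_le_norm _ _
        _ ≤ M * r' := by
          have := hM t ht
          have h6 : ‖(ζ : V)‖ = r' := hζn
          rw [h6]
          gcongr
    have h2 : ‖⟪x t, u⟫_ℂ‖ ≤ ‖⟪x t, u⟫_ℂ + ⟪x t, (ζ : V)⟫_ℂ‖ + ‖⟪x t, (ζ : V)⟫_ℂ‖ := by
      have := norm_sub_le (⟪x t, u⟫_ℂ + ⟪x t, (ζ : V)⟫_ℂ) (⟪x t, (ζ : V)⟫_ℂ)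
      simpa using this
    linarith [hm t ht]
  have hgerm : Germ p x φ T (((‖y0‖⁻¹ : ℝ) : ℂ) • y0) := by
    apply germ_of_features (Y := Y) (q := u) (η := η) (a := a) (b := fun t => ⟪x t, u⟫_ℂ)
      (m1 := m0 - M * r') (M := M)
    · exact ⟨ζ, hζ, rfl⟩
    · rintro y ⟨z, -, rfl⟩
      rw [inner_add_right, Submodule.mem_orthogonal_singleton_iff_inner_right.mp z.2,
        inner_self_eq_norm_sq_to_K, hu]
      simp
    · have hc : Tendsto (fun z : (ℂ ∙ u)ᗮ => u + (z : V)) (𝓝[≠] ζ) (𝓝[≠] y0) := by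
        apply tendsto_nhdsWithin_of_tendsto_nhds_of_eventually_within
        · have h1 : Continuous fun z : (ℂ ∙ u)ᗮ => u + (z : V) := by fun_prop
          exact (h1.tendsto ζ).mono_left nhdsWithin_le_nhds
        · filter_upwards [self_mem_nhdsWithin] with z hz hz2
          have hz2' : u + (z : V) = y0 := hz2
          rw [hy0] at hz2'
          exact hz (Subtype.ext (add_left_cancel hz2'))
      apply hc.frequently
      apply hζf.mono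
      intro z hz
      exact ⟨z, hz, rfl⟩
    · rintro y ⟨z, hz, hyz⟩ y' ⟨z', hz', hyz'⟩
      rw [hη y z hz hyz, hη y' z' hz' hyz', hyz, hyz', hk z hz z' hz']
    · rintro y ⟨z, hz, rfl⟩ y' ⟨z', hz', rfl⟩
      rw [inner_add_orth hu]
      exact re_pos_of_norm_lt (norm_inner_lt_one ((hnz z hz).trans_le hr1)
        ((hnz z' hz').trans_le hr1))
    · exact ha
    · rintro t ht y ⟨z, hz, hyz⟩
      rw [hη y z hz hyz, hrel t ht z hz, hyz]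
    · rintro t ht y ⟨z, hz, rfl⟩
      have hxu : ⟪x t, u⟫_ℂ ≠ 0 := by
        rw [← norm_pos_iff]
        exact lt_of_lt_of_le hm0 (hm t ht)
      have h4 : ⟪x t, u + (z : V)⟫_ℂ / ⟪x t, u⟫_ℂ = 1 + ⟪x t, (z : V)⟫_ℂ / ⟪x t, u⟫_ℂ := by
        rw [inner_add_right]; field_simp
      rw [h4]
      apply re_pos_of_norm_lt
      rw [norm_div, div_lt_one (norm_pos_iff.mpr hxu)]
      exact hsmall t ht z (hnz z hz)
    · exact hM
    · exact hmt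
    · exact hm1
  have hval : ∀ t, ‖⟪x t, ((‖y0‖⁻¹ : ℝ) : ℂ) • y0⟫_ℂ‖ = ‖y0‖⁻¹ * ‖⟪x t, y0⟫_ℂ‖ := by
    intro t
    rw [inner_smul_right, norm_mul, Complex.norm_real, Real.norm_of_nonneg (by positivity)]
  refine ⟨_, hgerm, ⟨‖y0‖⁻¹ * (m0 - M * r'), by positivity, ?_⟩, ?_⟩
  · intro t ht
    rw [hval]
    have := hmt t ht
    gcongr
  · rw [hval, ← hy0n]
    have h1 : ‖⟪x t0, y0⟫_ℂ‖ ≤ ‖⟪x t0, u⟫_ℂ‖ := by
      rw [hy0, inner_add_right]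
      exact hζle
    calc ‖y0‖⁻¹ * ‖⟪x t0, y0⟫_ℂ‖ * ‖y0‖ = ‖⟪x t0, y0⟫_ℂ‖ := by field_simp
      _ ≤ _ := h1

/-- Iterating the descent step. -/
lemma germ_inf {p : ℝ} {x : ℂ → V} {φ : ℂ → H} {T : Set ℂ} {u : V} (hg : Germ p x φ T u)
    {m0 M : ℝ} (hm0 : 0 < m0) (hM : ∀ t ∈ T, ‖x t‖ ≤ M) (hm : ∀ t ∈ T, m0 ≤ ‖⟪x t, u⟫_ℂ‖)
    (hT : T.Nonempty) {ε : ℝ} (hε : 0 < ε) :
    ∃ u1, Germ p x φ T u1 ∧ (∃ m > 0, ∀ t ∈ T, m ≤ ‖⟪x t, u1⟫_ℂ‖) ∧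
      ∃ t ∈ T, ‖⟪x t, u1⟫_ℂ‖ < ε := by
  by_contra hcon
  push Not at hcon
  obtain ⟨t0, ht0⟩ := hT
  set M' : ℝ := |M| + 1 with hM'
  have hM'0 : 0 < M' := by positivity
  have hMM' : ∀ t ∈ T, ‖x t‖ ≤ M' :=
    fun t ht => (hM t ht).trans ((le_abs_self M).trans (by linarith))
  set r : ℝ := min 1 (ε / M') with hr
  have hr0 : 0 < r := by rw [hr]; positivity
  have hr1 : r ≤ 1 := min_le_left _ _
  have hrM : r * M' ≤ ε := by
    have : r ≤ ε / M' := min_le_right _ _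
    rwa [le_div_iff₀ hM'0] at this
  set G : Set V := {u | Germ p x φ T u ∧ ∃ m > 0, ∀ t ∈ T, m ≤ ‖⟪x t, u⟫_ℂ‖} with hG
  have huG : u ∈ G := ⟨hg, m0, hm0, hm⟩
  set S : Set ℝ := (fun u => ‖⟪x t0, u⟫_ℂ‖) '' G with hS
  have hSne : S.Nonempty := ⟨_, u, huG, rfl⟩
  have hSbd : BddBelow S := ⟨0, by rintro _ ⟨v, _, rfl⟩; exact norm_nonneg _⟩
  have hSε : ε ≤ sInf S := by
    apply le_csInf hSne
    rintro _ ⟨v, hv, rfl⟩
    exact hcon v hv.1 hv.2 t0 ht0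
  have hq : 1 < √(1 + (r / 2) ^ 2) := by
    rw [show (1 : ℝ) = √1 from Real.sqrt_one.symm]
    apply Real.sqrt_lt_sqrt zero_le_one
    rw [Real.sqrt_one]
    nlinarith
  have hle : sInf S * √(1 + (r / 2) ^ 2) ≤ sInf S := by
    apply le_csInf hSne
    rintro _ ⟨v, hv, rfl⟩
    obtain ⟨u1, hu1, hu1m, hu1le⟩ := germ_step hv.1 hε hMM'
      (fun t ht => hcon v hv.1 hv.2 t ht) hM'0 (r' := r / 2) (by linarith) (by linarith)
      hr1 hrM ht0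
    have h1 : sInf S ≤ ‖⟪x t0, u1⟫_ℂ‖ := csInf_le hSbd ⟨u1, ⟨hu1, hu1m⟩, rfl⟩
    calc sInf S * √(1 + (r / 2) ^ 2) ≤ ‖⟪x t0, u1⟫_ℂ‖ * √(1 + (r / 2) ^ 2) := by gcongr
      _ ≤ _ := hu1le
  nlinarith

end

end Pool.Agent.Lib.MP_3f9d7d_an
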