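import Mathlib
import Pool.Agent.Lib.MP_3f9d7d_an.Step

open Filter MeasureTheory Set Topology Metric
open scoped InnerProductSpace ENNReal ComplexConjugate

namespace Pool.Agent.Lib.MP_3f9d7d_an

universe u

lemma ultra_lim {X : Type*} [TopologicalSpace X] {K : Set X} (hK : IsCompact K) (U : Ultrafilter ℕ)
    {f : ℕ → X} (hf : ∀ n, f n ∈ K) : ∃ x ∈ K, Tendsto f U (𝓝 x) := by
  obtain ⟨x, hx, h⟩ := hK.ultrafilter_le_nhds (U.map f) (by
    rw [le_principal_iff]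
    exact Filter.Eventually.of_forall (f := (U : Filter ℕ)) hf)
  exact ⟨x, hx, h⟩

/-- Weak compactness of the unit ball of a Hilbert space. -/
lemma weak_lim {H : Type*} [NormedAddCommGroup H] [InnerProductSpace ℂ H] [CompleteSpace H]
    {k : ℕ → H} (hk : ∀ n, ‖k n‖ ≤ 1) (U : Ultrafilter ℕ) :
    ∃ k' : H, ∀ y, Tendsto (fun n => ⟪k n, y⟫_ℂ) U (𝓝 ⟪k', y⟫_ℂ) := by
  obtain ⟨L, -, hL⟩ := ultra_lim (WeakDual.isCompact_closedBall (𝕜 := ℂ) (0 : StrongDual ℂ H) 1) U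
    (f := fun n => StrongDual.toWeakDual (innerSL ℂ (k n))) (by
      intro n
      rw [mem_preimage, mem_closedBall_zero_iff]
      have : ‖innerSL ℂ (k n)‖ ≤ 1 := by
        rw [innerSL_apply_norm]
        exact hk n
      exact this)
  refine ⟨(InnerProductSpace.toDual ℂ H).symm (WeakDual.toStrongDual L), fun y => ?_⟩
  rw [InnerProductSpace.toDual_symm_apply]
  have h1 : Continuous fun L : WeakDual ℂ H => L y := WeakDual.eval_continuous y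
  exact (h1.tendsto L).comp hL

section

variable {V : Type u} [NormedAddCommGroup V] [InnerProductSpace ℂ V] [FiniteDimensional ℂ V]
  {H : Type*} [NormedAddCommGroup H] [InnerProductSpace ℂ H] [CompleteSpace H]

/-- The limit of the descent. -/
theorem germ_limit {p : ℝ} (hp : 0 < p) {x : ℂ → V} {φ : ℂ → H} {T : Set ℂ} (hTc : IsCompact T)
    (hxT : ContinuousOn x T) {u : V} (hg : Germ p x φ T u)
    {m0 : ℝ} (hm0 : 0 < m0) (hm : ∀ t ∈ T, m0 ≤ ‖⟪x t, u⟫_ℂ‖) (hT : T.Nonempty) :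
    ∃ (w : V) (k : H), ‖w‖ = 1 ∧ (∀ t ∈ T, ‖⟪k, φ t⟫_ℂ‖ = ‖⟪x t, w⟫_ℂ‖ ^ p) ∧
      ∃ t ∈ T, ⟪x t, w⟫_ℂ = 0 := by
  obtain ⟨M, hM⟩ : ∃ M, ∀ t ∈ T, ‖x t‖ ≤ M := hTc.exists_bound_of_continuousOn hxT
  have hstep : ∀ n : ℕ, ∃ (w : V) (k : H) (t : ℂ), ‖w‖ = 1 ∧ ‖k‖ ≤ 1 ∧ t ∈ T ∧
      (∀ t ∈ T, ‖⟪k, φ t⟫_ℂ‖ = ‖⟪x t, w⟫_ℂ‖ ^ p) ∧ ‖⟪x t, w⟫_ℂ‖ < 1 / ((n : ℝ) + 1) := by
    intro n
    obtain ⟨w, hw, ⟨m, hm0, hm⟩, t, ht, htw⟩ := germ_inf hg hm0 hM hm hT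
      (ε := 1 / ((n : ℝ) + 1)) (by positivity)
    obtain ⟨k, hk1, hk⟩ := germ_vector hw hm0 hM hm
    exact ⟨w, k, t, hw.1, hk1.le, ht, hk, htw⟩
  choose w k t hw hk ht hrel hsmall using hstep
  set U : Ultrafilter ℕ := hyperfilter ℕ with hU
  have hprop : ProperSpace V := FiniteDimensional.proper ℂ V
  obtain ⟨w', hw', hwlim⟩ := ultra_lim (isCompact_sphere (0 : V) 1) U (f := w) (by
    intro n; rw [mem_sphere_zero_iff_norm]; exact hw n)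
  obtain ⟨t', ht', htlim⟩ := ultra_lim hTc U (f := t) ht
  obtain ⟨k', hk'⟩ := weak_lim hk U
  rw [mem_sphere_zero_iff_norm] at hw'
  refine ⟨w', k', hw', ?_, t', ht', ?_⟩
  · intro s hs
    have h1 : Tendsto (fun n => ‖⟪k n, φ s⟫_ℂ‖) U (𝓝 ‖⟪k', φ s⟫_ℂ‖) := (hk' (φ s)).norm
    have h2 : Tendsto (fun n => ‖⟪x s, w n⟫_ℂ‖ ^ p) U (𝓝 (‖⟪x s, w'⟫_ℂ‖ ^ p)) := by
      have h3 : Continuous fun w : V => ‖⟪x s, w⟫_ℂ‖ ^ p := by
        apply Continuous.rpow_const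
        · fun_prop
        · intro _; right; exact hp.le
      exact (h3.tendsto w').comp hwlim
    have h4 : (fun n => ‖⟪k n, φ s⟫_ℂ‖) = fun n => ‖⟪x s, w n⟫_ℂ‖ ^ p := by
      funext n
      exact hrel n s hs
    rw [h4] at h1
    exact tendsto_nhds_unique h1 h2
  · have h1 : Tendsto (fun n => x (t n)) U (𝓝 (x t')) := by
      have h2 := (hxT t' ht').tendsto
      apply h2.comp
      apply tendsto_nhdsWithin_of_tendsto_nhds_of_eventually_within _ htlim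
      exact Filter.Eventually.of_forall ht
    have h2 : Tendsto (fun n => ‖⟪x (t n), w n⟫_ℂ‖) U (𝓝 ‖⟪x t', w'⟫_ℂ‖) := (h1.inner hwlim).norm
    have h3 : Tendsto (fun n => ‖⟪x (t n), w n⟫_ℂ‖) U (𝓝 0) := by
      apply squeeze_zero (fun n => norm_nonneg _) (fun n => (hsmall n).le)
      have h4 : Tendsto (fun n : ℕ => 1 / ((n : ℝ) + 1)) atTop (𝓝 0) :=
        tendsto_one_div_add_atTop_nhds_zero_nat
      apply h4.mono_left
      rw [hU, ← Nat.cofinite_eq_atTop]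
      exact hyperfilter_le_cofinite
    have h4 := tendsto_nhds_unique h2 h3
    exact norm_eq_zero.mp h4

end

end Pool.Agent.Lib.MP_3f9d7d_an
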