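import Mathlib

open Filter MeasureTheory Set Topology Metric
open scoped InnerProductSpace ENNReal ComplexConjugate

namespace Pool.Agent.Lib.MP_3f9d7d_an

/-- Comparison of vanishing orders. -/
lemma order_compare {f g : ℂ → ℂ} {t : ℂ} {T : Set ℂ} {p : ℝ} (hf : AnalyticAt ℂ f t)
    (hg : AnalyticAt ℂ g t) {n : ℕ} (hn : analyticOrderAt f t = n)
    (hacc : ∃ᶠ s in 𝓝[≠] t, s ∈ T) (h : ∀ s ∈ T, ‖g s‖ = ‖f s‖ ^ p) :
    ∃ j : ℕ, (j : ℝ) = n * p := by
  have hneb : (𝓝[≠] t ⊓ 𝓟 T).NeBot := by
    rw [Filter.inf_principal_neBot_iff]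
    intro U hU
    obtain ⟨z, hz1, hz2⟩ := (hacc.and_eventually hU).exists
    exact ⟨z, hz2, hz1⟩
  have hT : ∀ᶠ s in 𝓝[≠] t ⊓ 𝓟 T, s ∈ T := mem_inf_of_right (mem_principal_self _)
  have hne : ∀ᶠ s in 𝓝[≠] t ⊓ 𝓟 T, s ≠ t := mem_inf_of_left self_mem_nhdsWithin
  have hle : 𝓝[≠] t ⊓ 𝓟 T ≤ 𝓝 t := inf_le_left.trans nhdsWithin_le_nhds
  obtain ⟨f1, hf1, hf1t, hff1⟩ := hf.analyticOrderAt_eq_natCast.mp hn
  have hf1n : ∀ᶠ s in 𝓝 t, f1 s ≠ 0 := hf1.continuousAt.eventually_ne hf1t
  have hgtop : analyticOrderAt g t ≠ ⊤ := by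
    intro htop
    rw [analyticOrderAt_eq_top] at htop
    have e1 : ∀ᶠ s in 𝓝[≠] t ⊓ 𝓟 T, g s = 0 := hle htop
    have e2 : ∀ᶠ s in 𝓝[≠] t ⊓ 𝓟 T, f s = (s - t) ^ n • f1 s := hle hff1
    have e3 : ∀ᶠ s in 𝓝[≠] t ⊓ 𝓟 T, f1 s ≠ 0 := hle hf1n
    obtain ⟨s, hs1, hs2, hs3, hs4, hs5⟩ :=
      (hT.and (hne.and (e1.and (e2.and e3)))).exists
    have h1 := h s hs1
    have h2 : f s ≠ 0 := by
      rw [hs4, smul_eq_mul]
      exact mul_ne_zero (pow_ne_zero _ (sub_ne_zero.mpr hs2)) hs5
    have h3 : 0 < ‖f s‖ ^ p := Real.rpow_pos_of_pos (norm_pos_iff.mpr h2) _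
    rw [← h1, hs3, norm_zero] at h3
    exact lt_irrefl _ h3
  obtain ⟨j, hj⟩ := ENat.ne_top_iff_exists.mp hgtop
  obtain ⟨g1, hg1, hg1t, hgg1⟩ := hg.analyticOrderAt_eq_natCast.mp hj.symm
  have hg1n : ∀ᶠ s in 𝓝 t, g1 s ≠ 0 := hg1.continuousAt.eventually_ne hg1t
  refine ⟨j, ?_⟩
  by_contra hcon
  have hd : (j : ℝ) - n * p ≠ 0 := sub_ne_zero.mpr hcon
  have hlog : Tendsto (fun s => Real.log ‖s - t‖) (𝓝[≠] t ⊓ 𝓟 T) atBot := by
    have h1 : Tendsto (fun s => ‖s - t‖) (𝓝[≠] t) (𝓝[>] 0) := tendsto_norm_sub_self_nhdsNE t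
    exact (Real.tendsto_log_nhdsGT_zero.comp h1).mono_left inf_le_left
  have heq : ∀ᶠ s in 𝓝[≠] t ⊓ 𝓟 T, ((j : ℝ) - n * p)⁻¹ * (p * Real.log ‖f1 s‖ - Real.log ‖g1 s‖) =
      Real.log ‖s - t‖ := by
    filter_upwards [hT, hne, hle hff1, hle hf1n, hle hgg1, hle hg1n] with s h1 h2 h3 h4 h5 h6
    have h7 := h s h1
    have hst : 0 < ‖s - t‖ := norm_pos_iff.mpr (sub_ne_zero.mpr h2)
    have hf1s : 0 < ‖f1 s‖ := norm_pos_iff.mpr h4
    have hg1s : 0 < ‖g1 s‖ := norm_pos_iff.mpr h6
    rw [h3, h5, smul_eq_mul, smul_eq_mul, norm_mul, norm_mul, norm_pow, norm_pow] at h7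
    have h8 := congrArg Real.log h7
    rw [Real.log_rpow (by positivity), Real.log_mul (by positivity) (by positivity),
      Real.log_mul (by positivity) (by positivity), Real.log_pow, Real.log_pow] at h8
    rw [inv_mul_eq_iff_eq_mul₀ hd]
    linarith
  have hlim : Tendsto (fun s => ((j : ℝ) - n * p)⁻¹ * (p * Real.log ‖f1 s‖ - Real.log ‖g1 s‖))
      (𝓝[≠] t ⊓ 𝓟 T) (𝓝 (((j : ℝ) - n * p)⁻¹ * (p * Real.log ‖f1 t‖ - Real.log ‖g1 t‖))) := by
    have h1 : ContinuousAt (fun s => ((j : ℝ) - n * p)⁻¹ *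
        (p * Real.log ‖f1 s‖ - Real.log ‖g1 s‖)) t := by
      apply ContinuousAt.mul continuousAt_const
      apply ContinuousAt.sub
      · apply ContinuousAt.mul continuousAt_const
        exact hf1.continuousAt.norm.log (norm_ne_zero_iff.mpr hf1t)
      · exact hg1.continuousAt.norm.log (norm_ne_zero_iff.mpr hg1t)
    exact h1.tendsto.mono_left hle
  have h2 := hlim.congr' heq
  exact not_tendsto_nhds_of_tendsto_atBot hlog _ h2

/-- Linearly independent holomorphic functions: the vanishing orders of nontrivial linear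
combinations are smaller than their number, at generic points. -/
lemma generic_order (v : ℕ) : ∀ (f : Fin v → ℂ → ℂ) (t1 : ℂ) (r : ℝ), 0 < r →
    (∀ i, DifferentiableOn ℂ (f i) (ball t1 r)) →
    (∀ c : Fin v → ℂ, (∀ t ∈ ball t1 r, ∑ i, c i * f i t = 0) → c = 0) →
    ∃ (t2 : ℂ) (ρ : ℝ), 0 < ρ ∧ ball t2 ρ ⊆ ball t1 r ∧ ∀ c : Fin v → ℂ, c ≠ 0 →
      ∀ t ∈ ball t2 ρ, analyticOrderAt (fun s => ∑ i, c i * f i s) t < v := by
  induction v with
  | zero =>
    intro f t1 r hr _ _
    refine ⟨t1, r, hr, subset_rfl, fun c hc => absurd (Subsingleton.elim c 0) hc⟩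
  | succ v ih =>
    intro f t1 r hr hf hli
    have hopen : IsOpen (ball t1 r) := isOpen_ball
    -- `f 0` does not vanish identically
    obtain ⟨t', ht', hft'⟩ : ∃ t' ∈ ball t1 r, f 0 t' ≠ 0 := by
      by_contra hcon
      push Not at hcon
      have h1 := hli (Pi.single 0 1) (by
        intro t ht
        rw [Finset.sum_eq_single 0]
        · rw [hcon t ht, mul_zero]
        · intro i _ hi
          rw [Pi.single_eq_of_ne hi, zero_mul]
        · intro h; exact absurd (Finset.mem_univ _) h)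
      have h2 := congrFun h1 0
      simp at h2
    have hcont : ContinuousAt (f 0) t' := ((hf 0).continuousOn).continuousAt (hopen.mem_nhds ht')
    obtain ⟨r', hr', hball⟩ : ∃ r' > 0, ball t' r' ⊆ ball t1 r ∩ {t | f 0 t ≠ 0} := by
      have h1 : ball t1 r ∩ {t | f 0 t ≠ 0} ∈ 𝓝 t' :=
        inter_mem (hopen.mem_nhds ht') (hcont.eventually_ne hft')
      exact Metric.mem_nhds_iff.mp h1
    have hsub : ball t' r' ⊆ ball t1 r := hball.trans inter_subset_left
    have hne : ∀ t ∈ ball t' r', f 0 t ≠ 0 := fun t ht => (hball ht).2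
    have hdq : ∀ i : Fin v, DifferentiableOn ℂ (fun t => f i.succ t * (f 0 t)⁻¹) (ball t' r') :=
      fun i => ((hf i.succ).mono hsub).mul (((hf 0).mono hsub).inv hne)
    have hdq' : ∀ c : Fin v → ℂ, DifferentiableOn ℂ
        (fun t => ∑ i, c i * (f i.succ t * (f 0 t)⁻¹)) (ball t' r') := by
      intro c
      apply DifferentiableOn.fun_sum
      intro i _
      exact (hdq i).const_mul (c i)
    have hder : ∀ c : Fin v → ℂ, ∀ t ∈ ball t' r',
        deriv (fun t => ∑ i, c i * (f i.succ t * (f 0 t)⁻¹)) t =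
          ∑ i, c i * deriv (fun t => f i.succ t * (f 0 t)⁻¹) t := by
      intro c t ht
      have hd : ∀ i : Fin v, DifferentiableAt ℂ (fun t => f i.succ t * (f 0 t)⁻¹) t :=
        fun i => (hdq i).differentiableAt (isOpen_ball.mem_nhds ht)
      rw [deriv_fun_sum (fun i _ => (hd i).const_mul (c i))]
      apply Finset.sum_congr rfl
      intro i _
      rw [deriv_const_mul _ (hd i)]
    obtain ⟨t2, ρ, hρ, hsub2, hord⟩ := ih (fun i => deriv (fun t => f i.succ t * (f 0 t)⁻¹)) t' r' hr'
      (fun i => (hdq i).deriv isOpen_ball) (by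
        intro c hc
        have hconst : ∃ c0, ∀ t ∈ ball t' r', ∑ i, c i * (f i.succ t * (f 0 t)⁻¹) = c0 := by
          refine ⟨∑ i, c i * (f i.succ t' * (f 0 t')⁻¹), fun t ht => ?_⟩
          have h1 := (convex_ball t' r').is_const_of_fderivWithin_eq_zero (𝕜 := ℂ) (hdq' c) (by
            intro x hx
            rw [fderivWithin_of_isOpen isOpen_ball hx]
            have h2 := hder c x hx
            rw [hc x hx] at h2
            ext
            simp [h2]) ht (mem_ball_self hr')
          exact h1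
        obtain ⟨c0, hc0⟩ := hconst
        have hG : ∀ t ∈ ball t' r', (∑ i, c i * f i.succ t) - c0 * f 0 t = 0 := by
          intro t ht
          have h1 := hc0 t ht
          have h2 := hne t ht
          have h3 : ∑ i, c i * (f i.succ t * (f 0 t)⁻¹) = (∑ i, c i * f i.succ t) * (f 0 t)⁻¹ := by
            rw [Finset.sum_mul]
            apply Finset.sum_congr rfl
            intro i _
            ring
          rw [h3] at h1
          rw [← h1]
          field_simp
          ring
        have hGd : DifferentiableOn ℂ (fun t => (∑ i : Fin v, c i * f i.succ t) - c0 * f 0 t)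
            (ball t1 r) := by
          apply DifferentiableOn.sub
          · apply DifferentiableOn.fun_sum
            intro i _
            exact (hf i.succ).const_mul (c i)
          · exact (hf 0).const_mul c0
        have hG0 := (hGd.analyticOnNhd isOpen_ball).eqOn_zero_of_preconnected_of_eventuallyEq_zero
          (convex_ball t1 r).isPreconnected ht' (by
            filter_upwards [ball_mem_nhds t' hr'] with t ht
            exact hG t ht)
        have h5 := hli (Fin.cons (-c0) c) (by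
          intro t ht
          rw [Fin.sum_univ_succ]
          simp only [Fin.cons_zero, Fin.cons_succ]
          have := hG0 ht
          simp only [Pi.zero_apply] at this
          linear_combination this)
        funext i
        have := congrFun h5 i.succ
        simpa using this)
    refine ⟨t2, ρ, hρ, hsub2.trans hsub, ?_⟩
    intro c hc t ht
    have ht'b : t ∈ ball t' r' := hsub2 ht
    have htb : t ∈ ball t1 r := hsub ht'b
    by_contra hcon
    rw [not_lt] at hcon
    set F : ℂ → ℂ := fun s => ∑ i, c i * f i s with hF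
    have hFa : AnalyticAt ℂ F t := by
      apply DifferentiableOn.analyticAt (s := ball t1 r) _ (isOpen_ball.mem_nhds htb)
      apply DifferentiableOn.fun_sum
      intro i _
      exact (hf i).const_mul (c i)
    have hf0a : AnalyticAt ℂ (fun s => (f 0 s)⁻¹) t := by
      apply DifferentiableOn.analyticAt (s := ball t' r') _ (isOpen_ball.mem_nhds ht'b)
      exact ((hf 0).mono hsub).inv hne
    have hF0 : F t = 0 := by
      apply apply_eq_zero_of_analyticOrderAt_ne_zero
      intro h0
      rw [h0] at hcon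
      simp at hcon
    by_cases hc' : (fun i : Fin v => c i.succ) = 0
    · -- only the first coefficient
      have hc0 : c 0 ≠ 0 := by
        intro h0
        apply hc
        funext i
        refine Fin.cases h0 (fun j => congrFun hc' j) i
      rw [hF] at hF0
      simp only [Fin.sum_univ_succ] at hF0
      have h1 : ∑ i : Fin v, c i.succ * f i.succ t = 0 := by
        apply Finset.sum_eq_zero
        intro i _
        have := congrFun hc' i
        simp only [Pi.zero_apply] at this
        rw [this, zero_mul]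
      rw [h1, add_zero] at hF0
      exact mul_ne_zero hc0 (hne t ht'b) hF0
    · have hlt := hord (fun i => c i.succ) hc' t ht
      set G : ℂ → ℂ := fun s => F s * (f 0 s)⁻¹ with hG
      have hGa : AnalyticAt ℂ G t := hFa.mul hf0a
      have hG0 : G t = 0 := by rw [hG]; simp [hF0]
      have hGord : ((v : ℕ∞) + 1) ≤ analyticOrderAt G t := by
        have h1 : analyticOrderAt G t = analyticOrderAt F t + analyticOrderAt (fun s => (f 0 s)⁻¹) t :=
          analyticOrderAt_mul hFa hf0a
        rw [h1]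
        calc ((v : ℕ∞) + 1) = ((v + 1 : ℕ) : ℕ∞) := by push_cast; rfl
          _ ≤ analyticOrderAt F t := hcon
          _ ≤ _ := le_self_add
      have hGd := (analyticOrderAt_deriv_ge_iff hGa hG0 (n := v)).mpr hGord
      have hcongr : deriv G =ᶠ[𝓝 t]
          fun s => ∑ i : Fin v, c i.succ * deriv (fun t => f i.succ t * (f 0 t)⁻¹) s := by
        filter_upwards [isOpen_ball.mem_nhds ht'b] with s hs
        rw [← hder (fun i => c i.succ) s hs]
        have h2 : G =ᶠ[𝓝 s] fun t => c 0 + ∑ i : Fin v, c i.succ * (f i.succ t * (f 0 t)⁻¹) := by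
          filter_upwards [isOpen_ball.mem_nhds hs] with y hy
          rw [hG, hF]
          simp only [Fin.sum_univ_succ]
          have h3 := hne y hy
          rw [add_mul, Finset.sum_mul]
          congr 1
          · field_simp
          · apply Finset.sum_congr rfl
            intro i _
            ring
        rw [h2.deriv_eq, deriv_const_add]
      rw [analyticOrderAt_congr hcongr] at hGd
      exact absurd hlt (not_lt.mpr hGd)

end Pool.Agent.Lib.MP_3f9d7d_an
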