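import Mathlib
import Pool.Agent.Lib.MP_3f9d7d_an.Limit
import Pool.Agent.Lib.MP_3f9d7d_an.Order

open Filter MeasureTheory Set Topology Metric
open scoped InnerProductSpace ENNReal ComplexConjugate

namespace Pool.Agent.Lib.MP_3f9d7d_an

universe u

section

variable {V : Type u} [NormedAddCommGroup V] [InnerProductSpace ℂ V] [FiniteDimensional ℂ V]
  {H : Type*} [NormedAddCommGroup H] [InnerProductSpace ℂ H] [CompleteSpace H]

/-- No holomorphic curve of features, when the exponents are not integers. -/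
theorem no_curve {p : ℝ} (hp : 0 < p) {x : ℂ → V} {φ : ℂ → H} {t1 : ℂ} {r : ℝ} (hr : 0 < r)
    (hx : DifferentiableOn ℂ x (ball t1 r))
    (hφ : ∀ k : H, DifferentiableOn ℂ (fun t => ⟪k, φ t⟫_ℂ) (ball t1 r))
    (hrel : ∀ s ∈ ball t1 r, ∀ t ∈ ball t1 r, ⟪φ s, φ t⟫_ℂ = ⟪x s, x t⟫_ℂ ^ (p : ℂ))
    (hre : ∀ s ∈ ball t1 r, ∀ t ∈ ball t1 r, 0 < (⟪x s, x t⟫_ℂ).re)
    (hinj : ∀ s ∈ ball t1 r, ∀ t ∈ ball t1 r, x s = x t → s = t)
    {q : V} (hq : ∀ t ∈ ball t1 r, ⟪q, x t⟫_ℂ = 1)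
    (hspan : ∀ w : V, (∀ t ∈ ball t1 r, ⟪w, x t⟫_ℂ = 0) → w = 0)
    (hkp : ∀ n j : ℕ, 1 ≤ n → n < Module.finrank ℂ V → (j : ℝ) ≠ n * p) : False := by
  set e := stdOrthonormalBasis ℂ V with he
  set f : Fin (Module.finrank ℂ V) → ℂ → ℂ := fun i t => ⟪e i, x t⟫_ℂ with hf
  have hinner : ∀ (w : V) (t : ℂ), ∑ i, conj ⟪e i, w⟫_ℂ * f i t = ⟪w, x t⟫_ℂ := by
    intro w t
    rw [← e.sum_inner_mul_inner w (x t)]
    apply Finset.sum_congr rfl
    intro i _
    rw [inner_conj_symm]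
  have hlin : ∀ w : V, DifferentiableOn ℂ (fun t => ⟪w, x t⟫_ℂ) (ball t1 r) :=
    fun w => (innerSL ℂ w).differentiable.comp_differentiableOn hx
  obtain ⟨t2, ρ, hρ, hsub, hord⟩ := generic_order _ f t1 r hr (fun i => hlin (e i)) (by
    intro c hc
    set w : V := ∑ i, conj (c i) • e i with hw
    have h1 : ∀ i, conj ⟪e i, w⟫_ℂ = c i := by
      intro i
      rw [hw, inner_conj_symm, e.orthonormal.inner_left_fintype, Complex.conj_conj]
    have h2 : w = 0 := by
      apply hspan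
      intro t ht
      rw [← hinner]
      simp only [h1]
      exact hc t ht
    funext i
    rw [← h1 i, h2]
    simp)
  have hxc : ContinuousOn x (ball t1 r) := hx.continuousOn
  have ht2 : t2 ∈ ball t1 r := hsub (mem_ball_self hρ)
  set T : Set ℂ := closedBall t2 (ρ / 2) with hT
  have hTρ : T ⊆ ball t2 ρ := closedBall_subset_ball (by linarith)
  have hTr : T ⊆ ball t1 r := hTρ.trans hsub
  have hTc : IsCompact T := isCompact_closedBall _ _
  have hTne : T.Nonempty := ⟨t2, mem_closedBall_self (by linarith)⟩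
  have hxT : ContinuousOn x T := hxc.mono hTr
  obtain ⟨M, hM⟩ := hTc.exists_bound_of_continuousOn hxT
  -- lower bound
  obtain ⟨m1, hm1, hm⟩ : ∃ m > 0, ∀ t ∈ T, m ≤ ‖⟪x t, x t2⟫_ℂ‖ := by
    have h1 : ContinuousOn (fun t => ‖⟪x t, x t2⟫_ℂ‖) T := (hxT.inner continuousOn_const).norm
    obtain ⟨t3, ht3, hmin⟩ := hTc.exists_isMinOn hTne h1
    refine ⟨_, ?_, fun t ht => hmin ht⟩
    change 0 < ‖⟪x t3, x t2⟫_ℂ‖
    rw [norm_pos_iff]
    intro h0
    have := hre t3 (hTr ht3) t2 ht2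
    rw [h0] at this
    simp at this
  -- the initial germ
  set Y : Set V := x '' ball t1 r with hY
  have hch : ∀ y : V, ∃ k : H, y ∈ Y → ∃ s ∈ ball t1 r, x s = y ∧ k = φ s := by
    intro y
    by_cases hy : y ∈ Y
    · obtain ⟨s, hs, hsy⟩ := hy
      exact ⟨φ s, fun _ => ⟨s, hs, hsy, rfl⟩⟩
    · exact ⟨0, fun h => absurd h hy⟩
  choose η hη using hch
  have hgerm : Germ p x φ T (((‖x t2‖⁻¹ : ℝ) : ℂ) • x t2) := by
    apply germ_of_features (Y := Y) (q := q) (η := η) (a := fun _ => 1) (b := fun _ => 1)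
      (m1 := m1) (M := M)
    · exact ⟨t2, ht2, rfl⟩
    · rintro y ⟨s, hs, rfl⟩
      exact hq s hs
    · have hc : Tendsto x (𝓝[≠] t2) (𝓝[≠] (x t2)) := by
        apply tendsto_nhdsWithin_of_tendsto_nhds_of_eventually_within
        · have h1 : ContinuousAt x t2 := hxc.continuousAt (isOpen_ball.mem_nhds ht2)
          exact h1.tendsto.mono_left nhdsWithin_le_nhds
        · have h1 : ∀ᶠ s in 𝓝[≠] t2, s ∈ ball t1 r :=
            nhdsWithin_le_nhds (isOpen_ball.mem_nhds ht2)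
          filter_upwards [self_mem_nhdsWithin, h1] with s hs hs2 hs3
          exact hs (hinj s hs2 t2 ht2 hs3)
      apply hc.frequently
      have h1 : ∀ᶠ s in 𝓝[≠] t2, x s ∈ Y := by
        have h2 : ∀ᶠ s in 𝓝[≠] t2, s ∈ ball t1 r :=
          nhdsWithin_le_nhds (isOpen_ball.mem_nhds ht2)
        filter_upwards [h2] with s hs
        exact ⟨s, hs, rfl⟩
      exact h1.frequently
    · intro y hy y' hy'
      obtain ⟨s, hs, hsy, hk⟩ := hη y hy
      obtain ⟨s', hs', hsy', hk'⟩ := hη y' hy'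
      rw [hk, hk', hrel s hs s' hs', hsy, hsy']
    · rintro y ⟨s, hs, rfl⟩ y' ⟨s', hs', rfl⟩
      exact hre s hs s' hs'
    · intro t _
      simp
    · intro t ht y hy
      obtain ⟨s, hs, hsy, hk⟩ := hη y hy
      rw [hk, hrel t (hTr ht) s hs, hsy, one_mul, div_one]
    · rintro t ht y ⟨s, hs, rfl⟩
      rw [div_one]
      exact hre t (hTr ht) s hs
    · exact hM
    · exact hm
    · exact hm1
  have hx2 : 0 < ‖x t2‖ := by
    rw [norm_pos_iff]
    intro h0
    have := hre t2 ht2 t2 ht2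
    rw [h0] at this
    simp at this
  obtain ⟨w, k, hw, hwk, t', ht', hwt'⟩ := germ_limit hp hTc hxT hgerm
    (m0 := ‖x t2‖⁻¹ * m1) (by positivity) (by
      intro t ht
      rw [inner_smul_right, norm_mul, Complex.norm_real, Real.norm_of_nonneg (by positivity)]
      have := hm t ht
      gcongr) hTne
  have ht'r : t' ∈ ball t1 r := hTr ht'
  -- orders of vanishing
  have hfa : AnalyticAt ℂ (fun t => ⟪w, x t⟫_ℂ) t' :=
    (hlin w).analyticAt (isOpen_ball.mem_nhds ht'r)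
  have hga : AnalyticAt ℂ (fun t => ⟪k, φ t⟫_ℂ) t' :=
    (hφ k).analyticAt (isOpen_ball.mem_nhds ht'r)
  have hw0 : w ≠ 0 := by
    rw [← norm_pos_iff, hw]; exact one_pos
  have hlt : analyticOrderAt (fun t => ⟪w, x t⟫_ℂ) t' < (Module.finrank ℂ V : ℕ∞) := by
    have h1 := hord (fun i => conj ⟪e i, w⟫_ℂ) (by
      intro h0
      apply hw0
      rw [← e.sum_repr' w]
      apply Finset.sum_eq_zero
      intro i _
      have h2 := congrFun h0 i
      simp only [Pi.zero_apply, map_eq_zero] at h2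
      rw [h2, zero_smul]) t' (hTρ ht')
    simp only [hinner w] at h1
    exact h1
  obtain ⟨n, hn⟩ := ENat.ne_top_iff_exists.mp (ne_top_of_lt hlt)
  rw [← hn] at hlt
  have hnlt : n < Module.finrank ℂ V := by exact_mod_cast hlt
  have hn1 : 1 ≤ n := by
    rw [Nat.one_le_iff_ne_zero]
    rintro rfl
    have h1 : analyticOrderAt (fun t => ⟪w, x t⟫_ℂ) t' = 0 := by rw [← hn]; rfl
    rw [analyticOrderAt_eq_zero] at h1
    rcases h1 with h1 | h1
    · exact h1 hfa
    · apply h1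
      rw [← inner_conj_symm, hwt', map_zero]
  have hacc : ∃ᶠ s in 𝓝[≠] t', s ∈ T := by
    have h1 : AccPt t' (𝓟 T) := by
      have h2 : Preperfect T := by
        apply IsPreconnected.preperfect_of_nontrivial _ (convex_closedBall t2 (ρ / 2)).isPreconnected
        refine ⟨t2, mem_closedBall_self (by linarith), t2 + (ρ / 2 : ℝ), ?_, ?_⟩
        · rw [mem_closedBall, dist_eq_norm, add_sub_cancel_left, Complex.norm_real,
            Real.norm_of_nonneg (by linarith)]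
        · intro h0
          have h3 : ((ρ / 2 : ℝ) : ℂ) = 0 := by
            have := h0.symm
            rwa [add_eq_left] at this
          have h4 : ρ / 2 = 0 := by exact_mod_cast h3
          linarith
      exact h2 t' ht'
    exact accPt_iff_frequently_nhdsNE.mp h1
  obtain ⟨j, hj⟩ := order_compare (p := p) hfa hga hn.symm hacc (by
    intro s hs
    rw [hwk s hs, norm_inner_symm])
  exact hkp n j hn1 hnlt hj

/-- No accumulating set of features for the kernel `⟨·, ·⟩^p`. -/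
theorem no_accumulation {p : ℝ} (hp : 0 < p) {x0 : V} (hx0 : ‖x0‖ = 1) {E : Set (ℂ ∙ x0)ᗮ}
    (hE : ∀ z ∈ E, ‖z‖ < 1) (hfreq : ∃ᶠ z in 𝓝[≠] (0 : (ℂ ∙ x0)ᗮ), z ∈ E) {h : (ℂ ∙ x0)ᗮ → H}
    (hh : ∀ z ∈ E, ∀ z' ∈ E, ⟪h z, h z'⟫_ℂ = (1 + ⟪z, z'⟫_ℂ) ^ (p : ℂ))
    (hkp : ∀ n j : ℕ, 1 ≤ n → n < Module.finrank ℂ V → (j : ℝ) ≠ n * p) : False := by
  obtain ⟨h', hd, hEh, hker⟩ := extend_features p hE hh
  have hE1 : ∀ z ∈ E, z ∈ hull E 1 := fun z hz =>
    subset_hull hz (mem_ball_zero_iff.mpr (hE z hz))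
  have hfreq' : ∃ᶠ z in 𝓝[≠] (0 : (ℂ ∙ x0)ᗮ), z ∈ hull E 1 := hfreq.mono hE1
  have h0 : (0 : (ℂ ∙ x0)ᗮ) ∈ hull E 1 := by
    refine ⟨mem_ball_self one_pos, ?_⟩
    intro g hg
    by_contra hne
    have h1 : ContinuousAt g 0 :=
      (hg.1.continuousOn).continuousAt (isOpen_ball.mem_nhds (mem_ball_self one_pos))
    have h2 : ∀ᶠ z in 𝓝 (0 : (ℂ ∙ x0)ᗮ), g z ≠ 0 := h1.eventually_ne hne
    obtain ⟨z, hz1, hz2⟩ := (hfreq'.and_eventually (nhdsWithin_le_nhds h2)).exists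
    exact hz2 (hz1.2 g hg)
  obtain ⟨t1, r, γ, lam, hr, hγ, hγ2⟩ := exists_disc _ (ℂ ∙ x0)ᗮ rfl (ball 0 1) isOpen_ball
    (Fam E 1) (Fam_diff E 1) 0 h0 hfreq'
  have hγn : ∀ t ∈ ball t1 r, ‖γ t‖ < 1 := fun t ht => mem_ball_zero_iff.mp (hγ2 t ht).1.1
  -- the curve in the full space
  set x1 : ℂ → V := fun t => x0 + (γ t : V) with hx1
  have hx1d : DifferentiableOn ℂ x1 (ball t1 r) :=
    ((ℂ ∙ x0)ᗮ.subtypeL.differentiable.comp_differentiableOn hγ).const_add x0
  set S : Submodule ℂ V := Submodule.span ℂ (x1 '' ball t1 r) with hS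
  set P := S.orthogonalProjectionOnto with hP
  set x : ℂ → S := fun t => P (x1 t) with hx
  have hxt : ∀ t ∈ ball t1 r, ((x t : S) : V) = x1 t := by
    intro t ht
    have h1 : x1 t ∈ S := Submodule.subset_span ⟨t, ht, rfl⟩
    exact congrArg Subtype.val (Submodule.orthogonalProjectionOnto_mem_subspace_eq_self
      (K := S) ⟨x1 t, h1⟩)
  have hinn : ∀ s ∈ ball t1 r, ∀ t ∈ ball t1 r, ⟪x s, x t⟫_ℂ = 1 + ⟪γ s, γ t⟫_ℂ := by
    intro s hs t ht
    rw [Submodule.coe_inner, hxt s hs, hxt t ht, hx1]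
    exact inner_add_orth hx0 (γ s) (γ t)
  apply no_curve (V := S) hp (x := x) (φ := fun t => h' (γ t)) (q := P x0) hr
  · exact P.differentiable.comp_differentiableOn hx1d
  · intro k
    exact (hd k).comp hγ (fun t ht => mem_ball_zero_iff.mpr (hγn t ht))
  · intro s hs t ht
    rw [hinn s hs t ht]
    exact hker 1 le_rfl _ (hγ2 s hs).1 _ (hγ2 t ht).1
  · intro s hs t ht
    rw [hinn s hs t ht]
    exact re_pos_of_norm_lt (norm_inner_lt_one (hγn s hs) (hγn t ht))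
  · intro s hs t ht hst
    have h1 : x1 s = x1 t := by rw [← hxt s hs, ← hxt t ht, hst]
    have h2 : γ s = γ t := Subtype.ext (add_left_cancel h1)
    rw [← (hγ2 s hs).2, ← (hγ2 t ht).2, h2]
  · intro t ht
    have h1 : x1 t ∈ S := Submodule.subset_span ⟨t, ht, rfl⟩
    have h2 : ⟪P x0, x t⟫_ℂ = ⟪x0, ((x t : S) : V)⟫_ℂ :=
      Submodule.inner_orthogonalProjectionOnto_eq_of_mem_right _ _
    rw [h2, hxt t ht, hx1, inner_add_right,
      Submodule.mem_orthogonal_singleton_iff_inner_right.mp (γ t).2,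
      inner_self_eq_norm_sq_to_K, hx0]
    simp
  · intro w hw
    have h1 : ∀ y ∈ S, ⟪(w : V), y⟫_ℂ = 0 := by
      intro y hy
      induction hy using Submodule.span_induction with
      | mem y hy =>
        obtain ⟨t, ht, rfl⟩ := hy
        have h2 := hw t ht
        rw [Submodule.coe_inner, hxt t ht] at h2
        exact h2
      | zero => simp
      | add a b _ _ ha hb => rw [inner_add_right, ha, hb, add_zero]
      | smul c a _ ha => rw [inner_smul_right, ha, mul_zero]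
    have h2 := h1 w w.2
    rw [inner_self_eq_zero] at h2
    exact Subtype.ext h2
  · intro n j hn hnlt
    exact hkp n j hn (hnlt.trans_le (Submodule.finrank_le S))

end

end Pool.Agent.Lib.MP_3f9d7d_an
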