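import Mathlib

open Filter MeasureTheory Set Topology Metric
open scoped InnerProductSpace ENNReal ComplexConjugate

namespace Pool.Agent.Lib.MP_3f9d7d_an

/-- A real positive semidefinite kernel has features in a complex Hilbert space. -/
theorem exists_features {X : Type} (K : X → X → ℝ) (hsymm : ∀ x y, K x y = K y x)
    (hpsd : ∀ (s : Finset X) (c : X → ℝ), 0 ≤ ∑ x ∈ s, ∑ y ∈ s, c x * c y * K x y) :
    ∃ (H : Type) (_ : NormedAddCommGroup H) (_ : InnerProductSpace ℂ H) (_ : CompleteSpace H)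
      (h : X → H), ∀ x y, ⟪h x, h y⟫_ℂ = (K x y : ℂ) := by
  set M : Matrix X X (ℂ →L[ℂ] ℂ) :=
    Matrix.of fun x y => (K x y : ℂ) • ContinuousLinearMap.id ℂ ℂ with hM
  have hMxy : ∀ x y (v : ℂ), M x y v = (K x y : ℂ) * v := by
    intro x y v
    simp [hM]
  have hherm : M.IsHermitian := by
    ext x y
    rw [Matrix.conjTranspose_apply]
    have h1 : M y x = (K y x : ℂ) • ContinuousLinearMap.id ℂ ℂ := rfl
    have h2 : M x y = (K x y : ℂ) • ContinuousLinearMap.id ℂ ℂ := rfl
    rw [h1, h2, star_smul, hsymm x y]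
    have h3 : star (ContinuousLinearMap.id ℂ ℂ) = ContinuousLinearMap.id ℂ ℂ :=
      ContinuousLinearMap.adjoint_id
    rw [h3]
    simp
  have hpos : M.PosSemidef := by
    have htfae := (RKHS.posSemidef_tfae (K := M)).out 0 2
    apply htfae.mpr
    refine ⟨hherm, fun vv => ?_⟩
    have h1 : (vv.sum fun x w => vv.sum fun x' w' => ⟪M x' x w, w'⟫_ℂ) =
        ∑ x ∈ vv.support, ∑ x' ∈ vv.support, conj ((K x' x : ℂ) * vv x) * vv x' := by
      rw [Finsupp.sum]
      apply Finset.sum_congr rfl
      intro x _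
      rw [Finsupp.sum]
      apply Finset.sum_congr rfl
      intro x' _
      rw [hMxy, RCLike.inner_apply, mul_comm]
    rw [h1]
    have h2 : RCLike.re (∑ x ∈ vv.support, ∑ x' ∈ vv.support,
        conj ((K x' x : ℂ) * vv x) * vv x') =
        (∑ x ∈ vv.support, ∑ y ∈ vv.support, (vv x).re * (vv y).re * K x y) +
        ∑ x ∈ vv.support, ∑ y ∈ vv.support, (vv x).im * (vv y).im * K x y := by
      rw [map_sum, ← Finset.sum_add_distrib]
      apply Finset.sum_congr rfl
      intro x _
      rw [map_sum, ← Finset.sum_add_distrib]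
      apply Finset.sum_congr rfl
      intro y _
      rw [hsymm x y]
      simp only [map_mul, Complex.conj_ofReal, RCLike.re_to_complex, Complex.mul_re,
        Complex.ofReal_re, Complex.ofReal_im, Complex.conj_re, Complex.conj_im, Complex.mul_im]
      ring
    rw [h2]
    exact add_nonneg (hpsd _ _) (hpsd _ _)
  have : Fact M.PosSemidef := ⟨hpos⟩
  refine ⟨RKHS.OfKernel M, inferInstance, inferInstance, inferInstance,
    fun x => RKHS.kerFun (RKHS.OfKernel M) x (1 : ℂ), fun x y => ?_⟩
  rw [← RKHS.kernel_inner, RKHS.OfKernel.kernel_ofKernel, hMxy, hsymm x y]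
  simp

end Pool.Agent.Lib.MP_3f9d7d_an
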