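import Mathlib
import Pool.Agent.Lib.MP_3f9d7d_an.Core
import Pool.Agent.Lib.MP_3f9d7d_an.Kernel

open Filter MeasureTheory Set Topology Metric
open scoped InnerProductSpace ENNReal ComplexConjugate

namespace Pool.Agent.Lib.MP_3f9d7d_an

/-- Complexification of a real vector. -/
noncomputable def cx {d : ℕ} (x : EuclideanSpace ℝ (Fin d)) : EuclideanSpace ℂ (Fin d) :=
  WithLp.toLp 2 (fun i => (x i : ℂ))

lemma cx_apply {d : ℕ} (x : EuclideanSpace ℝ (Fin d)) (i : Fin d) : cx x i = (x i : ℂ) := rfl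

lemma inner_cx {d : ℕ} (x y : EuclideanSpace ℝ (Fin d)) :
    ⟪cx x, cx y⟫_ℂ = ((⟪x, y⟫_ℝ : ℝ) : ℂ) := by
  rw [PiLp.inner_apply, PiLp.inner_apply]
  push_cast
  apply Finset.sum_congr rfl
  intro i _
  rw [cx_apply, cx_apply]
  simp

lemma norm_cx {d : ℕ} (x : EuclideanSpace ℝ (Fin d)) : ‖cx x‖ = ‖x‖ := by
  have h1 := inner_cx x x
  rw [inner_self_eq_norm_sq_to_K, real_inner_self_eq_norm_sq] at h1
  simp only [Complex.coe_algebraMap] at h1
  have h2 : ‖cx x‖ ^ 2 = ‖x‖ ^ 2 := by exact_mod_cast h1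
  exact (pow_left_inj₀ (norm_nonneg _) (norm_nonneg _) two_ne_zero).mp h2

lemma continuous_cx {d : ℕ} : Continuous (cx (d := d)) := by
  unfold cx
  apply (PiLp.continuous_toLp 2 _).comp
  apply continuous_pi
  intro i
  fun_prop

/-- A set of unit vectors on which `|x·y|^p` is positive semidefinite is finite, when none of the
numbers `p, 2p, ..., (d-1)p` is an integer. -/
theorem finite_of_psd {d : ℕ} {p : ℝ} (hp : 0 < p)
    (hkp : ∀ n j : ℕ, 1 ≤ n → n < d → (j : ℝ) ≠ n * p) {X : Set (EuclideanSpace ℝ (Fin d))}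
    (hX : ∀ x ∈ X, ‖x‖ = 1)
    (hpsd : ∀ (s : Finset X) (c : X → ℝ), 0 ≤ ∑ x ∈ s, ∑ y ∈ s, c x * c y *
      |⟪(x : EuclideanSpace ℝ (Fin d)), y⟫_ℝ| ^ p) : X.Finite := by
  by_contra hinf
  have hinf' : X.Infinite := hinf
  obtain ⟨x0, hx0, hacc⟩ := hinf'.exists_accPt_of_subset_isCompact
    (isCompact_sphere (0 : EuclideanSpace ℝ (Fin d)) 1)
    (fun x hx => by rw [mem_sphere_zero_iff_norm]; exact hX x hx)
  rw [mem_sphere_zero_iff_norm] at hx0
  rw [accPt_iff_frequently_nhdsNE] at hacc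
  obtain ⟨H, _, _, _, h, hh⟩ := exists_features
    (fun x y : X => |⟪(x : EuclideanSpace ℝ (Fin d)), y⟫_ℝ| ^ p)
    (fun x y => by rw [real_inner_comm]) hpsd
  set V := EuclideanSpace ℂ (Fin d) with hV
  set x0c : V := cx x0 with hx0c
  have hx0cn : ‖x0c‖ = 1 := by rw [hx0c, norm_cx, hx0]
  set E : Set (ℂ ∙ x0c)ᗮ := {z | ‖z‖ < 1 ∧ ∃ x : X, ∃ s : ℝ, 0 < s ∧
    x0c + (z : V) = (s : ℂ) • cx (x : EuclideanSpace ℝ (Fin d))} with hE
  have hch : ∀ z : (ℂ ∙ x0c)ᗮ, ∃ k : H, z ∈ E → ∃ x : X, ∃ s : ℝ, 0 < s ∧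
      x0c + (z : V) = (s : ℂ) • cx (x : EuclideanSpace ℝ (Fin d)) ∧
      k = ((s ^ p : ℝ) : ℂ) • h x := by
    intro z
    by_cases hz : z ∈ E
    · obtain ⟨_, x, s, hs, hxs⟩ := hz
      exact ⟨_, fun _ => ⟨x, s, hs, hxs, rfl⟩⟩
    · exact ⟨0, fun h => absurd h hz⟩
  choose h1 hh1 using hch
  apply no_accumulation hp hx0cn (E := E) (h := h1) (fun z hz => hz.1)
  · -- accumulation
    set P := (ℂ ∙ x0c)ᗮ.orthogonalProjectionOnto with hP
    set κ : EuclideanSpace ℝ (Fin d) → (ℂ ∙ x0c)ᗮ := fun x =>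
      P ((((⟪x0, x⟫_ℝ)⁻¹ : ℝ) : ℂ) • cx x - x0c) with hκ
    have hκ0 : κ x0 = 0 := by
      rw [hκ]
      simp only [real_inner_self_eq_norm_sq, hx0]
      rw [← hx0c]
      simp
    have hκP : ∀ x : EuclideanSpace ℝ (Fin d), ⟪x0, x⟫_ℝ ≠ 0 →
        ((κ x : (ℂ ∙ x0c)ᗮ) : V) = (((⟪x0, x⟫_ℝ)⁻¹ : ℝ) : ℂ) • cx x - x0c := by
      intro x hx
      have h2 : (((⟪x0, x⟫_ℝ)⁻¹ : ℝ) : ℂ) • cx x - x0c ∈ (ℂ ∙ x0c)ᗮ := by
        rw [Submodule.mem_orthogonal_singleton_iff_inner_right, inner_sub_right, inner_smul_right,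
          inner_self_eq_norm_sq_to_K, hx0cn, hx0c, inner_cx, ← Complex.ofReal_mul,
          inv_mul_cancel₀ hx]
        simp
      exact congrArg Subtype.val (Submodule.orthogonalProjectionOnto_mem_subspace_eq_self
        (K := (ℂ ∙ x0c)ᗮ) ⟨_, h2⟩)
    have hin : ContinuousAt (fun x : EuclideanSpace ℝ (Fin d) => ⟪x0, x⟫_ℝ) x0 := by fun_prop
    have hin0 : ⟪x0, x0⟫_ℝ = 1 := by rw [real_inner_self_eq_norm_sq, hx0]; norm_num
    have hκc : ContinuousAt κ x0 := by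
      apply P.continuous.continuousAt.comp
      apply ContinuousAt.sub _ continuousAt_const
      have h2 : ContinuousAt (fun x : EuclideanSpace ℝ (Fin d) => (((⟪x0, x⟫_ℝ)⁻¹ : ℝ) : ℂ)) x0 := by
        apply Complex.continuous_ofReal.continuousAt.comp
        apply hin.inv₀
        rw [hin0]; exact one_ne_zero
      exact h2.smul continuous_cx.continuousAt
    have hpos : ∀ᶠ x in 𝓝 x0, 0 < ⟪x0, x⟫_ℝ := by
      apply hin.eventually (lt_mem_nhds _)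
      change 0 < ⟪x0, x0⟫_ℝ
      rw [hin0]; exact one_pos
    have hnear : ∀ᶠ x in 𝓝 x0, ‖κ x‖ < 1 := by
      have h2 : ContinuousAt (fun x => ‖κ x‖) x0 := hκc.norm
      apply h2.eventually (gt_mem_nhds _)
      change ‖κ x0‖ < 1
      rw [hκ0, norm_zero]; exact one_pos
    have hneb : (𝓝[≠] x0 ⊓ 𝓟 X).NeBot := by
      rw [Filter.inf_principal_neBot_iff]
      intro U hU
      obtain ⟨z, hz1, hz2⟩ := (hacc.and_eventually hU).exists
      exact ⟨z, hz2, hz1⟩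
    have hXm : ∀ᶠ x in 𝓝[≠] x0 ⊓ 𝓟 X, x ∈ X := mem_inf_of_right (mem_principal_self _)
    have hne : ∀ᶠ x in 𝓝[≠] x0 ⊓ 𝓟 X, x ≠ x0 := mem_inf_of_left self_mem_nhdsWithin
    have hle : 𝓝[≠] x0 ⊓ 𝓟 X ≤ 𝓝 x0 := inf_le_left.trans nhdsWithin_le_nhds
    have hpos' : ∀ᶠ x in 𝓝[≠] x0 ⊓ 𝓟 X, 0 < ⟪x0, x⟫_ℝ := hle hpos
    have hnear' : ∀ᶠ x in 𝓝[≠] x0 ⊓ 𝓟 X, ‖κ x‖ < 1 := hle hnear
    have htend : Tendsto κ (𝓝[≠] x0 ⊓ 𝓟 X) (𝓝[≠] 0) := by
      apply tendsto_nhdsWithin_of_tendsto_nhds_of_eventually_within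
      · have h2 := hκc.tendsto
        rw [hκ0] at h2
        exact h2.mono_left hle
      · filter_upwards [hXm, hne, hpos'] with x hxX hxne hxpos hx
        have h2 : κ x = 0 := hx
        have h3 := hκP x hxpos.ne'
        rw [h2] at h3
        have h4 : (((⟪x0, x⟫_ℝ)⁻¹ : ℝ) : ℂ) • cx x = x0c := by
          rw [← sub_eq_zero, ← h3]; rfl
        have h5 := congrArg norm h4
        rw [norm_smul, norm_cx, hX x hxX, hx0cn, mul_one, Complex.norm_real,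
          Real.norm_of_nonneg (by positivity)] at h5
        rw [h5, Complex.ofReal_one, one_smul, hx0c] at h4
        apply hxne
        ext i
        have h6 := congrFun (congrArg WithLp.ofLp h4) i
        have h7 : ((x i : ℝ) : ℂ) = ((x0 i : ℝ) : ℂ) := h6
        exact_mod_cast h7
    apply htend.frequently
    have h2 : ∀ᶠ x in 𝓝[≠] x0 ⊓ 𝓟 X, κ x ∈ E := by
      filter_upwards [hXm, hpos', hnear'] with x hxX hxpos hxn
      refine ⟨hxn, ⟨x, hxX⟩, (⟪x0, x⟫_ℝ)⁻¹, by positivity, ?_⟩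
      rw [hκP x hxpos.ne', add_sub_cancel]
    exact h2.frequently
  · -- the kernel relation
    intro z hz z' hz'
    obtain ⟨x, s, hs, hxs, hk⟩ := hh1 z hz
    obtain ⟨x', s', hs', hxs', hk'⟩ := hh1 z' hz'
    have h2 : 1 + ⟪z, z'⟫_ℂ =
        ((s * (s' * ⟪(x : EuclideanSpace ℝ (Fin d)), x'⟫_ℝ) : ℝ) : ℂ) := by
      rw [← inner_add_orth hx0cn, hxs, hxs', inner_smul_left, inner_smul_right, inner_cx,
        Complex.conj_ofReal]
      push_cast
      rfl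
    have h3 : 0 < s * (s' * ⟪(x : EuclideanSpace ℝ (Fin d)), x'⟫_ℝ) := by
      have h4 := re_pos_of_norm_lt (norm_inner_lt_one hz.1 hz'.1)
      rw [h2, Complex.ofReal_re] at h4
      exact h4
    have h5 : 0 < ⟪(x : EuclideanSpace ℝ (Fin d)), x'⟫_ℝ := by
      have h6 := (mul_pos_iff_of_pos_left hs).mp h3
      exact (mul_pos_iff_of_pos_left hs').mp h6
    rw [h2, ← Complex.ofReal_cpow h3.le, hk, hk', inner_smul_left, inner_smul_right, hh,
      Complex.conj_ofReal, ← Complex.ofReal_mul, ← Complex.ofReal_mul, abs_of_pos h5,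
      Real.mul_rpow hs.le (by positivity), Real.mul_rpow hs'.le h5.le]
  · intro n j hn hnlt
    have h2 : Module.finrank ℂ V = d := finrank_euclideanSpace_fin
    exact hkp n j hn (by omega)

end Pool.Agent.Lib.MP_3f9d7d_an
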