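import Mathlib

open Filter MeasureTheory Set Topology Metric
open scoped InnerProductSpace ENNReal

namespace Pool.Agent.Lib.MP_3f9d7d_an

variable {X : Type*} [MetricSpace X] [CompactSpace X] [SecondCountableTopology X]
  [MeasurableSpace X] [BorelSpace X]

lemma integrable_mul_bdd {K G : X × X → ℝ} (hK : Continuous K) (hG : Measurable G) {C : ℝ}
    (hC : ∀ z, |G z| ≤ C) {μ : Measure X} [IsProbabilityMeasure μ] :
    Integrable (fun z => G z * K z) (μ.prod μ) := by
  obtain ⟨B, hB⟩ := (isCompact_univ (X := X × X)).exists_bound_of_continuousOn hK.continuousOn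
  apply Integrable.of_bound (hG.mul hK.measurable).aestronglyMeasurable (C * B)
  filter_upwards with z
  rw [Pi.mul_apply, norm_mul]
  have h1 := hB z (mem_univ _)
  have h2 := hC z
  rw [Real.norm_eq_abs]
  exact mul_le_mul h2 h1 (norm_nonneg _) ((abs_nonneg _).trans h2)

/-- The perturbed energies. -/
lemma energy_perturb {K : X × X → ℝ} {μ : Measure X} [IsProbabilityMeasure μ]
    (hmin : ∀ ν : Measure X, IsProbabilityMeasure ν →
      ∫ z, K z ∂(μ.prod μ) ≤ ∫ z, K z ∂(ν.prod ν))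
    {f : X → ℝ} (hf : Measurable f) (hf0 : ∀ x, 0 < f x) (hfi : Integrable f μ) :
    (∫ x, f x ∂μ) ^ 2 * ∫ z, K z ∂(μ.prod μ) ≤ ∫ z, (f z.1 * f z.2) * K z ∂(μ.prod μ) := by
  set a := ∫ x, f x ∂μ with ha
  have hapos : 0 < a := by
    rw [ha]
    rw [integral_pos_iff_support_of_nonneg (fun x => (hf0 x).le) hfi]
    have h1 : Function.support f = univ := by
      ext x; simp [(hf0 x).ne']
    rw [h1]
    simp
  set ρ : X → ℝ≥0∞ := fun x => ENNReal.ofReal (a⁻¹ * f x) with hρ
  have hρm : Measurable ρ := (hf.const_mul a⁻¹).ennreal_ofReal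
  have hprob : IsProbabilityMeasure (μ.withDensity ρ) := by
    constructor
    rw [withDensity_apply _ MeasurableSet.univ, Measure.restrict_univ, hρ,
      ← ofReal_integral_eq_lintegral_ofReal (hfi.const_mul _)
        (Eventually.of_forall fun x => mul_nonneg (by positivity) (hf0 x).le),
      integral_const_mul, ← ha, inv_mul_cancel₀ hapos.ne', ENNReal.ofReal_one]
  have h1 := hmin _ hprob
  have hρm2 : Measurable fun z : X × X => ρ z.1 * ρ z.2 :=
    (hρm.comp measurable_fst).mul (hρm.comp measurable_snd)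
  rw [prod_withDensity hρm hρm, integral_withDensity_eq_integral_toReal_smul hρm2
    (Eventually.of_forall fun z => ENNReal.mul_lt_top ENNReal.ofReal_lt_top
      ENNReal.ofReal_lt_top)] at h1
  have h2 : ∀ z : X × X, (ρ z.1 * ρ z.2).toReal • K z = a⁻¹ ^ 2 * ((f z.1 * f z.2) * K z) := by
    intro z
    have e1 : 0 ≤ a⁻¹ * f z.1 := mul_nonneg (by positivity) (hf0 _).le
    have e2 : 0 ≤ a⁻¹ * f z.2 := mul_nonneg (by positivity) (hf0 _).le
    rw [hρ, ENNReal.toReal_mul, ENNReal.toReal_ofReal e1, ENNReal.toReal_ofReal e2, smul_eq_mul]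
    ring
  simp only [h2] at h1
  rw [integral_const_mul] at h1
  have h3 : a ^ 2 * (a⁻¹ ^ 2 * ∫ z, (f z.1 * f z.2) * K z ∂(μ.prod μ)) =
      ∫ z, (f z.1 * f z.2) * K z ∂(μ.prod μ) := by
    field_simp
  rw [← h3]
  gcongr

/-- The second variation at a minimizer. -/
lemma quad_nonneg {K : X × X → ℝ} (hK : Continuous K) (hK0 : ∀ z, 0 ≤ K z)
    {μ : Measure X} [IsProbabilityMeasure μ]
    (hmin : ∀ ν : Measure X, IsProbabilityMeasure ν →
      ∫ z, K z ∂(μ.prod μ) ≤ ∫ z, K z ∂(ν.prod ν))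
    {g : X → ℝ} (hg : Measurable g) {C : ℝ} (hC : ∀ x, |g x| ≤ C) :
    0 ≤ ∫ z, (g z.1 * g z.2) * K z ∂(μ.prod μ) := by
  set C' : ℝ := |C| + 1 with hC'
  have hC'0 : 0 < C' := by positivity
  have hgC : ∀ x, |g x| ≤ C' := fun x => (hC x).trans ((le_abs_self C).trans (by linarith))
  set ε : ℝ := 1 / (2 * C') with hε
  have hε0 : 0 < ε := by positivity
  have hεg : ∀ x, |ε * g x| ≤ 1 / 2 := by
    intro x
    rw [abs_mul, abs_of_pos hε0]
    calc ε * |g x| ≤ ε * C' := by gcongr; exact hgC x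
      _ = 1 / 2 := by rw [hε]; field_simp
  have hgi : Integrable g μ := by
    apply Integrable.of_bound hg.aestronglyMeasurable C'
    exact Eventually.of_forall fun x => by rw [Real.norm_eq_abs]; exact hgC x
  set a := ∫ x, g x ∂μ with ha
  set I := ∫ z, K z ∂(μ.prod μ) with hI
  have hI0 : 0 ≤ I := integral_nonneg hK0
  -- both signs
  have key : ∀ σ : ℝ, |σ| = ε → (1 + σ * a) ^ 2 * I ≤
      ∫ z, ((1 + σ * g z.1) * (1 + σ * g z.2)) * K z ∂(μ.prod μ) := by
    intro σ hσ
    have h1 : ∀ x, |σ * g x| ≤ 1 / 2 := by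
      intro x
      rw [abs_mul, hσ]
      have := hεg x
      rw [abs_mul, abs_of_pos hε0] at this
      exact this
    have h2 := energy_perturb (K := K) hmin (f := fun x => 1 + σ * g x)
      ((hg.const_mul σ).const_add 1) (fun x => by
        have := abs_le.mp (h1 x)
        linarith [this.1]) ((integrable_const _).add (hgi.const_mul σ))
    have h3 : ∫ x, (1 + σ * g x) ∂μ = 1 + σ * a := by
      rw [integral_add (integrable_const _) (hgi.const_mul σ), integral_const_mul, ← ha]
      simp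
    rw [h3] at h2
    exact h2
  have k1 := key ε (abs_of_pos hε0)
  have k2 := key (-ε) (by rw [abs_neg, abs_of_pos hε0])
  have hgg : Integrable (fun z : X × X => (g z.1 * g z.2) * K z) (μ.prod μ) := by
    apply integrable_mul_bdd hK ((hg.comp measurable_fst).mul (hg.comp measurable_snd))
      (C := C' * C')
    intro z
    rw [Pi.mul_apply, abs_mul]
    exact mul_le_mul (hgC _) (hgC _) (abs_nonneg _) hC'0.le
  have hKi : Integrable K (μ.prod μ) := by
    have := integrable_mul_bdd (μ := μ) hK (G := fun _ => 1) measurable_const (C := 1) (by simp)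
    simpa using this
  have hint : ∀ σ : ℝ, Integrable (fun z : X × X => ((1 + σ * g z.1) * (1 + σ * g z.2)) * K z)
      (μ.prod μ) := by
    intro σ
    apply integrable_mul_bdd hK (C := (1 + |σ| * C') * (1 + |σ| * C'))
    · exact ((((hg.comp measurable_fst).const_mul σ).const_add 1).mul
        (((hg.comp measurable_snd).const_mul σ).const_add 1))
    · intro z
      rw [abs_mul]
      have h1 : ∀ x, |1 + σ * g x| ≤ 1 + |σ| * C' := by
        intro x
        calc |1 + σ * g x| ≤ |1| + |σ * g x| := abs_add_le _ _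
          _ = 1 + |σ| * |g x| := by rw [abs_one, abs_mul]
          _ ≤ _ := by
            have := hgC x
            gcongr
      exact mul_le_mul (h1 _) (h1 _) (abs_nonneg _) (by positivity)
  have hsum : ∫ z, ((1 + ε * g z.1) * (1 + ε * g z.2)) * K z ∂(μ.prod μ) +
      ∫ z, ((1 + -ε * g z.1) * (1 + -ε * g z.2)) * K z ∂(μ.prod μ) =
      2 * I + 2 * ε ^ 2 * ∫ z, (g z.1 * g z.2) * K z ∂(μ.prod μ) := by
    rw [← integral_add (hint ε) (hint (-ε)), hI, ← integral_const_mul, ← integral_const_mul,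
      ← integral_add (hKi.const_mul 2) (hgg.const_mul _)]
    congr 1
    funext z
    ring
  have h4 : (1 + ε * a) ^ 2 * I + (1 + -ε * a) ^ 2 * I ≤
      2 * I + 2 * ε ^ 2 * ∫ z, (g z.1 * g z.2) * K z ∂(μ.prod μ) := by
    rw [← hsum]
    exact add_le_add k1 k2
  have h5 : 2 * ε ^ 2 * (a ^ 2 * I) ≤
      2 * ε ^ 2 * ∫ z, (g z.1 * g z.2) * K z ∂(μ.prod μ) := by
    nlinarith
  have h6 : a ^ 2 * I ≤ ∫ z, (g z.1 * g z.2) * K z ∂(μ.prod μ) :=
    le_of_mul_le_mul_left h5 (by positivity)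
  exact (mul_nonneg (sq_nonneg _) hI0).trans h6

/-- The kernel of a minimizer is positive semidefinite on the support. -/
theorem psd_of_minimizer {K : X × X → ℝ} (hK : Continuous K) (hK0 : ∀ z, 0 ≤ K z)
    {μ : Measure X} [IsProbabilityMeasure μ]
    (hmin : ∀ ν : Measure X, IsProbabilityMeasure ν →
      ∫ z, K z ∂(μ.prod μ) ≤ ∫ z, K z ∂(ν.prod ν))
    {s : Finset X} (hs : ∀ x ∈ s, x ∈ μ.support) (c : X → ℝ) :
    0 ≤ ∑ x ∈ s, ∑ y ∈ s, c x * c y * K (x, y) := by
  -- it is enough to have lower bounds with an arbitrarily small error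
  suffices h : ∀ δ > 0, -(δ * ∑ x ∈ s, ∑ y ∈ s, |c x| * |c y|) ≤
      ∑ x ∈ s, ∑ y ∈ s, c x * c y * K (x, y) by
    have hA : 0 ≤ ∑ x ∈ s, ∑ y ∈ s, |c x| * |c y| :=
      Finset.sum_nonneg fun x _ => Finset.sum_nonneg fun y _ => by positivity
    set A := ∑ x ∈ s, ∑ y ∈ s, |c x| * |c y| with hAdef
    by_contra hneg
    push Not at hneg
    set S := ∑ x ∈ s, ∑ y ∈ s, c x * c y * K (x, y) with hS
    have h1 := h (-S / (2 * (A + 1))) (by
      apply div_pos (by linarith) (by linarith))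
    have h2 : -S / (2 * (A + 1)) * A ≤ -S / 2 := by
      rw [div_mul_eq_mul_div, div_le_div_iff₀ (by linarith) two_pos]
      nlinarith
    linarith
  intro δ hδ
  have huc : UniformContinuous K := CompactSpace.uniformContinuous_of_continuous hK
  obtain ⟨ρ, hρ, hρK⟩ := Metric.uniformContinuous_iff.mp huc δ hδ
  set m : X → ℝ := fun x => μ.real (ball x ρ) with hm
  have hmpos : ∀ x ∈ s, 0 < m x := by
    intro x hx
    have h1 := (Measure.mem_support_iff_forall x).mp (hs x hx) (ball x ρ) (ball_mem_nhds x hρ)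
    exact ENNReal.toReal_pos h1.ne' (measure_ne_top _ _)
  set g : X → ℝ := fun z => ∑ x ∈ s, (c x * (m x)⁻¹) * (ball x ρ).indicator (fun _ => 1) z with hg
  have hgm : Measurable g := by
    apply Finset.measurable_sum
    intro x _
    exact (measurable_const.indicator measurableSet_ball).const_mul _
  have hind : ∀ (x z : X), |(ball x ρ).indicator (fun _ => (1 : ℝ)) z| ≤ 1 := by
    intro x z
    by_cases hz : z ∈ ball x ρ
    · simp [hz]
    · simp [hz]
  have hgb : ∀ z, |g z| ≤ ∑ x ∈ s, |c x * (m x)⁻¹| := by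
    intro z
    calc |g z| ≤ ∑ x ∈ s, |(c x * (m x)⁻¹) * (ball x ρ).indicator (fun _ => 1) z| :=
          Finset.abs_sum_le_sum_abs _ _
      _ ≤ _ := by
        apply Finset.sum_le_sum
        intro x _
        rw [abs_mul]
        exact mul_le_of_le_one_right (abs_nonneg _) (hind x z)
  have hquad := quad_nonneg hK hK0 hmin hgm hgb
  -- expand the quadratic form
  have hexp : ∫ z, (g z.1 * g z.2) * K z ∂(μ.prod μ) = ∑ x ∈ s, ∑ y ∈ s,
      (c x * (m x)⁻¹) * (c y * (m y)⁻¹) * ∫ z in ball x ρ ×ˢ ball y ρ, K z ∂(μ.prod μ) := by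
    have h1 : ∀ z : X × X, (g z.1 * g z.2) * K z = ∑ x ∈ s, ∑ y ∈ s,
        (c x * (m x)⁻¹) * (c y * (m y)⁻¹) * (ball x ρ ×ˢ ball y ρ).indicator K z := by
      intro z
      rw [hg]
      simp only
      rw [Finset.sum_mul_sum, Finset.sum_mul]
      apply Finset.sum_congr rfl
      intro x _
      rw [Finset.sum_mul]
      apply Finset.sum_congr rfl
      intro y _
      by_cases h1 : z.1 ∈ ball x ρ <;> by_cases h2 : z.2 ∈ ball y ρ
      · have h3 : z ∈ ball x ρ ×ˢ ball y ρ := ⟨h1, h2⟩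
        rw [indicator_of_mem h1, indicator_of_mem h2, indicator_of_mem h3]
        ring
      · have h3 : z ∉ ball x ρ ×ˢ ball y ρ := fun h => h2 h.2
        rw [indicator_of_notMem h2, indicator_of_notMem h3]
        ring
      · have h3 : z ∉ ball x ρ ×ˢ ball y ρ := fun h => h1 h.1
        rw [indicator_of_notMem h1, indicator_of_notMem h3]
        ring
      · have h3 : z ∉ ball x ρ ×ˢ ball y ρ := fun h => h1 h.1
        rw [indicator_of_notMem h1, indicator_of_notMem h3]
        ring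
    have hKi : Integrable K (μ.prod μ) := by
      have := integrable_mul_bdd (μ := μ) hK (G := fun _ => 1) measurable_const (C := 1) (by simp)
      simpa using this
    have hms : ∀ x y : X, MeasurableSet (ball x ρ ×ˢ ball y ρ) :=
      fun x y => measurableSet_ball.prod measurableSet_ball
    simp only [h1]
    rw [integral_finsetSum]
    · apply Finset.sum_congr rfl
      intro x _
      rw [integral_finsetSum]
      · apply Finset.sum_congr rfl
        intro y _
        rw [integral_const_mul, integral_indicator (hms x y)]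
      · intro y _
        exact (hKi.indicator (hms x y)).const_mul _
    · intro x _
      apply integrable_finsetSum
      intro y _
      exact (hKi.indicator (hms x y)).const_mul _
  rw [hexp] at hquad
  -- compare
  have hcomp : ∀ x ∈ s, ∀ y ∈ s,
      |(m x)⁻¹ * (m y)⁻¹ * (∫ z in ball x ρ ×ˢ ball y ρ, K z ∂(μ.prod μ)) - K (x, y)| ≤ δ := by
    intro x hx y hy
    have hmx := hmpos x hx
    have hmy := hmpos y hy
    have hreal : (μ.prod μ).real (ball x ρ ×ˢ ball y ρ) = m x * m y := by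
      rw [hm, measureReal_prod_prod]
    have hKi : Integrable K (μ.prod μ) := by
      have := integrable_mul_bdd (μ := μ) hK (G := fun _ => 1) measurable_const (C := 1) (by simp)
      simpa using this
    have h1 : (∫ z in ball x ρ ×ˢ ball y ρ, K z ∂(μ.prod μ)) - m x * m y * K (x, y) =
        ∫ z in ball x ρ ×ˢ ball y ρ, (K z - K (x, y)) ∂(μ.prod μ) := by
      rw [integral_sub hKi.integrableOn (integrable_const _), setIntegral_const, hreal,
        smul_eq_mul]
    have h2 : ‖∫ z in ball x ρ ×ˢ ball y ρ, (K z - K (x, y)) ∂(μ.prod μ)‖ ≤ δ * (m x * m y) := by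
      rw [← hreal]
      apply norm_setIntegral_le_of_norm_le_const (measure_lt_top _ _)
      intro z hz
      have h3 : dist z (x, y) < ρ := by
        rw [Prod.dist_eq]
        exact max_lt hz.1 hz.2
      have h4 := hρK h3
      rw [Real.dist_eq] at h4
      exact h4.le
    have h3 : (m x)⁻¹ * (m y)⁻¹ * (∫ z in ball x ρ ×ˢ ball y ρ, K z ∂(μ.prod μ)) - K (x, y) =
        (m x)⁻¹ * (m y)⁻¹ *
          ((∫ z in ball x ρ ×ˢ ball y ρ, K z ∂(μ.prod μ)) - m x * m y * K (x, y)) := by
      field_simp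
    rw [h3, h1, abs_mul, abs_of_pos (by positivity)]
    rw [Real.norm_eq_abs] at h2
    calc (m x)⁻¹ * (m y)⁻¹ * |∫ z in ball x ρ ×ˢ ball y ρ, (K z - K (x, y)) ∂(μ.prod μ)| ≤
        (m x)⁻¹ * (m y)⁻¹ * (δ * (m x * m y)) := by gcongr
      _ = δ := by field_simp
  have hfin : ∑ x ∈ s, ∑ y ∈ s, (c x * (m x)⁻¹) * (c y * (m y)⁻¹) *
      ∫ z in ball x ρ ×ˢ ball y ρ, K z ∂(μ.prod μ) ≤
      ∑ x ∈ s, ∑ y ∈ s, (c x * c y * K (x, y) + δ * (|c x| * |c y|)) := by
    apply Finset.sum_le_sum
    intro x hx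
    apply Finset.sum_le_sum
    intro y hy
    have h1 := hcomp x hx y hy
    set A := ∫ z in ball x ρ ×ˢ ball y ρ, K z ∂(μ.prod μ) with hA
    have h2 : (c x * (m x)⁻¹) * (c y * (m y)⁻¹) * A - c x * c y * K (x, y) =
        (c x * c y) * ((m x)⁻¹ * (m y)⁻¹ * A - K (x, y)) := by ring
    have h3 : (c x * c y) * ((m x)⁻¹ * (m y)⁻¹ * A - K (x, y)) ≤ δ * (|c x| * |c y|) := by
      calc (c x * c y) * ((m x)⁻¹ * (m y)⁻¹ * A - K (x, y)) ≤
          |(c x * c y) * ((m x)⁻¹ * (m y)⁻¹ * A - K (x, y))| := le_abs_self _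
        _ = (|c x| * |c y|) * |(m x)⁻¹ * (m y)⁻¹ * A - K (x, y)| := by rw [abs_mul, abs_mul]
        _ ≤ (|c x| * |c y|) * δ := by gcongr
        _ = _ := by ring
    linarith
  have hsplit : ∑ x ∈ s, ∑ y ∈ s, (c x * c y * K (x, y) + δ * (|c x| * |c y|)) =
      ∑ x ∈ s, ∑ y ∈ s, c x * c y * K (x, y) + δ * ∑ x ∈ s, ∑ y ∈ s, |c x| * |c y| := by
    simp only [Finset.sum_add_distrib, Finset.mul_sum]
  rw [hsplit] at hfin
  linarith

end Pool.Agent.Lib.MP_3f9d7d_an
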